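import Pool.Agent.MP_216eb3_nt.GIT.Spec

set_option autoImplicit false

namespace Pool.Agent.MP_216eb3_nt.GIT

open Polynomial Finset Filter

/-! ## Admissible constants -/

section adm
variable {Γ Γ' : Finset Qb} {v : AV} {A : ℝ}

theorem Adm.mono (h : Adm Γ v A) (hs : Γ' ⊆ Γ) : Adm Γ' v A :=
  ⟨h.one, h.tri, fun γ hγ => h.bd γ (hs hγ)⟩

theorem Adm.empty (h : Adm Γ v A) : Adm ∅ v A := h.mono (empty_subset _)

theorem Adm.pos (h : Adm Γ v A) : 0 < A := lt_of_lt_of_le one_pos h.one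

theorem Adm.one_le_pow (h : Adm Γ v A) (m : ℕ) : 1 ≤ A ^ m := one_le_pow₀ h.one

theorem Adm.pow_le (h : Adm Γ v A) {m n : ℕ} (hmn : m ≤ n) : A ^ m ≤ A ^ n :=
  pow_le_pow_right₀ h.one hmn

theorem Adm.add_le (h : Adm Γ v A) {x y : Qb} {B : ℝ} (hx : v x ≤ B) (hy : v y ≤ B) :
    v (x + y) ≤ A * B :=
  (h.tri x y).trans (mul_le_mul_of_nonneg_left (max_le hx hy) h.pos.le)

theorem Adm.sub_le (h : Adm Γ v A) {x y : Qb} {B : ℝ} (hx : v x ≤ B) (hy : v y ≤ B) :
    v (x - y) ≤ A * B := by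
  rw [sub_eq_add_neg]
  exact h.add_le hx (by rwa [v.map_neg])

theorem Adm.sum_le (h : Adm Γ v A) {ι : Type*} (s : Finset ι) (x : ι → Qb) {B : ℝ} (hB : 0 ≤ B)
    (hx : ∀ i ∈ s, v (x i) ≤ B) : v (∑ i ∈ s, x i) ≤ A ^ s.card * B := by
  classical
  induction s using Finset.induction_on with
  | empty => simpa using hB
  | insert a s ha ih =>
    rw [sum_insert ha, card_insert_of_notMem ha, pow_succ', mul_assoc]
    refine h.add_le ((hx a (mem_insert_self _ _)).trans ?_)
      (ih fun i hi => hx i (mem_insert_of_mem hi))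
    exact le_mul_of_one_le_left hB (h.one_le_pow _)

theorem Adm.nat_le (h : Adm Γ v A) (n : ℕ) : v n ≤ A ^ n := by
  have := h.sum_le (range n) (fun _ => (1 : Qb)) zero_le_one (fun _ _ => by simp)
  simpa using this

open Classical in
/-- the trivial absolute value -/
theorem adm_trivial (Γ : Finset Qb) : Adm Γ AbsoluteValue.trivial 1 := by
  have h : ∀ x : Qb, (AbsoluteValue.trivial : AV) x ≤ 1 := fun x => by
    rcases eq_or_ne x 0 with rfl | hx
    · simp
    · rw [AbsoluteValue.trivial_apply hx]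
  refine ⟨le_rfl, fun x y => ?_, fun γ _ => h γ⟩
  rw [one_mul]
  rcases eq_or_ne x 0 with rfl | hx
  · rw [zero_add]; exact le_max_right _ _
  · exact (h _).trans (by rw [AbsoluteValue.trivial_apply hx]; exact le_max_left _ _)

end adm

/-! ## Norms -/

section nrm
variable {ι : Type} [Finite ι] (v : AV)

theorem le_nrm (x : ι → Qb) (i : ι) : v (x i) ≤ nrm v x :=
  le_ciSup (f := fun i => v (x i)) (Set.finite_range _).bddAbove i

omit [Finite ι] in
theorem nrm_le {x : ι → Qb} {B : ℝ} (hB : 0 ≤ B) (h : ∀ i, v (x i) ≤ B) : nrm v x ≤ B :=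
  Real.iSup_le h hB

omit [Finite ι] in
theorem nrm_nonneg (x : ι → Qb) : 0 ≤ nrm v x := Real.iSup_nonneg fun _ => v.nonneg _

theorem exists_nrm [Nonempty ι] (x : ι → Qb) : ∃ i, v (x i) = nrm v x :=
  exists_eq_ciSup_of_finite (f := fun i => v (x i))

theorem nrm_pos {x : ι → Qb} (hx : x ≠ 0) : 0 < nrm v x := by
  obtain ⟨i, hi⟩ := Function.ne_iff.1 hx
  exact lt_of_lt_of_le (v.pos hi) (le_nrm v x i)

omit [Finite ι] in
theorem nrm_smul (t : Qb) (x : ι → Qb) : nrm v (t • x) = v t * nrm v x := by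
  unfold nrm
  rw [Real.mul_iSup_of_nonneg (v.nonneg t)]
  simp

theorem eq_zero_of_nrm {x : ι → Qb} (h : nrm v x ≤ 0) : x = 0 := by
  by_contra hx
  exact absurd (nrm_pos v hx) (not_lt.2 h)

end nrm

/-! ## Binary forms -/

theorem dt_mulVec (g : M2) (p q : V2) : dt (g.mulVec p) (g.mulVec q) = g.det * dt p q := by
  simp [dt, Matrix.mulVec, dotProduct, Fin.sum_univ_two, Matrix.det_fin_two]
  ring

theorem dt_smul_left (t : Qb) (p q : V2) : dt (t • p) q = t * dt p q := by
  simp [dt]; ring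

theorem dt_smul_right (t : Qb) (p q : V2) : dt p (t • q) = t * dt p q := by
  simp [dt]; ring

theorem dt_self (p : V2) : dt p p = 0 := by simp [dt]; ring

theorem dt_comm (p q : V2) : dt p q = -dt q p := by simp [dt]; ring

/-- proportional vectors -/
theorem exists_smul_of_dt {p q : V2} (hq : q ≠ 0) (h : dt p q = 0) : ∃ t : Qb, p = t • q := by
  unfold dt at h
  by_cases h0 : q 0 = 0
  · have h1 : q 1 ≠ 0 := fun h1 => hq (by ext i; fin_cases i <;> simp [h0, h1])
    refine ⟨p 1 / q 1, ?_⟩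
    have : p 0 = 0 := by
      rw [h0, mul_zero, sub_zero] at h
      exact (mul_eq_zero.1 h).resolve_right h1
    ext i; fin_cases i
    · simp [this, h0]
    · simp [h1]
  · refine ⟨p 0 / q 0, ?_⟩
    ext i; fin_cases i
    · simp [h0]
    · simp only [Fin.mk_one, Pi.smul_apply, smul_eq_mul]
      field_simp
      linear_combination -h

theorem hev_eq (n : ℕ) (P : Qb[X]) (z : V2) :
    hev n P z = MvPolynomial.eval z (P.homogenize n) := by
  unfold hev Polynomial.homogenize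
  rw [map_sum, Finset.Nat.sum_antidiagonal_eq_sum_range_succ_mk]
  refine sum_congr rfl fun i _ => ?_
  rw [MvPolynomial.eval_monomial, Finsupp.prod_fintype _ _ (by simp), Fin.prod_univ_two, mul_assoc]
  simp

theorem hev_add (n : ℕ) (P Q : Qb[X]) (z : V2) : hev n (P + Q) z = hev n P z + hev n Q z := by
  simp [hev_eq]

theorem hev_sub (n : ℕ) (P Q : Qb[X]) (z : V2) : hev n (P - Q) z = hev n P z - hev n Q z := by
  simp [hev_eq]

theorem hev_zero (n : ℕ) (z : V2) : hev n 0 z = 0 := by simp [hev]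

theorem hev_C_mul (n : ℕ) (t : Qb) (P : Qb[X]) (z : V2) : hev n (C t * P) z = t * hev n P z := by
  simp [hev_eq, homogenize_C_mul]

theorem hev_sum {ι : Type*} (n : ℕ) (s : Finset ι) (P : ι → Qb[X]) (z : V2) :
    hev n (∑ i ∈ s, P i) z = ∑ i ∈ s, hev n (P i) z := by
  simp [hev_eq, homogenize_finsetSum]

theorem hev_mul {m n : ℕ} {P Q : Qb[X]} (hP : P.natDegree ≤ m) (hQ : Q.natDegree ≤ n) (z : V2) :
    hev (m + n) (P * Q) z = hev m P z * hev n Q z := by
  simp only [hev_eq]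
  rw [homogenize_mul _ _ hP hQ, map_mul]

theorem hev_prod {ι : Type*} (s : Finset ι) (P : ι → Qb[X]) (n : ι → ℕ)
    (h : ∀ i ∈ s, (P i).natDegree ≤ n i) (z : V2) :
    hev (∑ i ∈ s, n i) (∏ i ∈ s, P i) z = ∏ i ∈ s, hev (n i) (P i) z := by
  simp only [hev_eq]
  rw [homogenize_finsetProd h, map_prod]

theorem hev_pow {n : ℕ} {P : Qb[X]} (hP : P.natDegree ≤ n) (k : ℕ) (z : V2) :
    hev (k * n) (P ^ k) z = hev n P z ^ k := by
  have := hev_prod (range k) (fun _ => P) (fun _ => n) (fun _ _ => hP) z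
  simpa using this

theorem hev_X_pow {n i : ℕ} (h : i ≤ n) (z : V2) :
    hev n (X ^ i) z = z 0 ^ i * z 1 ^ (n - i) := by
  simp [hev_eq, homogenize_X_pow h]

theorem hev_one {n : ℕ} {P : Qb[X]} (hP : P.natDegree ≤ n) (x : Qb) :
    hev n P ![x, 1] = P.eval x := by
  rw [eval_eq_sum_range' (Nat.lt_succ_of_le hP)]
  simp [hev]

theorem hev_o (n : ℕ) (P : Qb[X]) : hev n P ![0, 1] = P.coeff 0 := by
  unfold hev
  rw [sum_eq_single 0 (fun i _ hi => by simp [hi]) (by simp)]
  simp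

theorem hev_smul (n : ℕ) (P : Qb[X]) (t : Qb) (z : V2) : hev n P (t • z) = t ^ n * hev n P z := by
  unfold hev
  rw [mul_sum]
  refine sum_congr rfl fun i hi => ?_
  have : t ^ n = t ^ i * t ^ (n - i) := by
    rw [← pow_add]; congr 1; have := mem_range.1 hi; omega
  simp only [Pi.smul_apply, smul_eq_mul, mul_pow, this]
  ring

theorem hev_ext {n : ℕ} {P Q : Qb[X]} (hP : P.natDegree ≤ n) (hQ : Q.natDegree ≤ n)
    (h : ∀ x : Qb, hev n P ![x, 1] = hev n Q ![x, 1]) : P = Q :=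
  Polynomial.funext fun x => by rw [← hev_one hP, ← hev_one hQ, h]

theorem natDegree_lin (q : V2) : (lin q).natDegree ≤ 1 := by
  unfold lin; compute_degree

theorem lin_coeff_zero (q : V2) : (lin q).coeff 0 = -q 0 := by simp [lin]

theorem lin_coeff_one (q : V2) : (lin q).coeff 1 = q 1 := by simp [lin, coeff_C]

theorem hev_lin (q z : V2) : hev 1 (lin q) z = dt z q := by
  simp [hev, sum_range_succ, lin_coeff_zero, lin_coeff_one, dt]
  ring

theorem lin_smul (t : Qb) (q : V2) : lin (t • q) = C t * lin q := by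
  simp [lin]; ring

theorem natDegree_prod_lin {k : ℕ} (q : Fin k → V2) : (∏ s, lin (q s)).natDegree ≤ k :=
  (natDegree_prod_le _ _).trans
    ((sum_le_card_nsmul _ _ 1 fun s _ => natDegree_lin (q s)).trans (by simp))

theorem hev_prod_lin {k : ℕ} (q : Fin k → V2) (z : V2) :
    hev k (∏ s, lin (q s)) z = ∏ s, dt z (q s) := by
  have := hev_prod univ (fun s => lin (q s)) (fun _ => 1) (fun s _ => natDegree_lin (q s)) z
  simpa [hev_lin] using this

theorem hev_lin_mul {k : ℕ} (q₀ : V2) (q : Fin k → V2) (z : V2) :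
    hev (k + 1) (lin q₀ * ∏ s, lin (q s)) z = dt z q₀ * ∏ s, dt z (q s) := by
  rw [add_comm, hev_mul (natDegree_lin _) (natDegree_prod_lin q), hev_lin, hev_prod_lin]

section generic
variable {S : Type} [CommRing S] {d : ℕ}

theorem pol_coeff (c : Cf d → S) (r : Fin 2) (i : ℕ) :
    (pol c r).coeff i = if h : i < d + 1 then c (r, ⟨i, h⟩) else 0 := by
  unfold pol
  simp only [finsetSum_coeff, coeff_C_mul_X_pow]
  split_ifs with h
  · rw [sum_eq_single ⟨i, h⟩ (fun j _ hj => if_neg fun e => hj (Fin.ext e.symm)) (by simp)]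
    simp
  · exact sum_eq_zero fun j _ => if_neg fun (e : i = j) => h (e ▸ j.2)

theorem pol_coeff_fin (c : Cf d → S) (r : Fin 2) (i : Fin (d + 1)) :
    (pol c r).coeff i = c (r, i) := by
  rw [pol_coeff, dif_pos i.2]

theorem natDegree_pol (c : Cf d → S) (r : Fin 2) : (pol c r).natDegree ≤ d := by
  rw [natDegree_le_iff_coeff_eq_zero]
  intro i hi
  rw [pol_coeff, dif_neg (by omega)]

theorem Fp_coeff_zero (c : Cf d → S) : (Fp c).coeff 0 = (pol c 0).coeff 0 := by
  simp [Fp]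

theorem Fp_coeff_succ (c : Cf d → S) (i : ℕ) :
    (Fp c).coeff (i + 1) = (pol c 0).coeff (i + 1) - (pol c 1).coeff i := by
  simp [Fp, coeff_X_mul]

theorem Gp_coeff (c : Cf d → S) (i : ℕ) :
    (Gp c).coeff i = ((i : S) + 1) * (pol c 0).coeff (i + 1) + ((d : S) - i) * (pol c 1).coeff i := by
  have h : (X * derivative (pol c 1)).coeff i = (i : S) * (pol c 1).coeff i := by
    cases i with
    | zero => simp
    | succ i => rw [coeff_X_mul, coeff_derivative]; push_cast; ring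
  unfold Gp
  rw [coeff_add, coeff_sub, coeff_derivative, coeff_C_mul, h]
  ring

theorem natDegree_Fp (c : Cf d → S) : (Fp c).natDegree ≤ d + 1 := by
  rw [natDegree_le_iff_coeff_eq_zero]
  intro i hi
  obtain ⟨j, rfl⟩ : ∃ j, i = j + 1 := ⟨i - 1, by omega⟩
  rw [Fp_coeff_succ, pol_coeff, pol_coeff, dif_neg (by omega), dif_neg (by omega), sub_zero]

theorem natDegree_Gp {n : ℕ} (c : Cf (n + 1) → S) : (Gp c).natDegree ≤ n := by
  rw [natDegree_le_iff_coeff_eq_zero]
  intro i hi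
  rw [Gp_coeff, pol_coeff c 0, dif_neg (by omega)]
  by_cases e : i = n + 1
  · subst e; simp
  · rw [pol_coeff, dif_neg (by omega)]; simp

variable {S' : Type} [CommRing S'] (φ : S →+* S')

theorem pol_map (c : Cf d → S) (r : Fin 2) : (pol c r).map φ = pol (fun x => φ (c x)) r := by
  simp [pol, Polynomial.map_sum]

theorem Fp_map (c : Cf d → S) : (Fp c).map φ = Fp (fun x => φ (c x)) := by
  simp [Fp, pol_map]

theorem Gp_map (c : Cf d → S) : (Gp c).map φ = Gp (fun x => φ (c x)) := by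
  simp [Gp, ← pol_map, derivative_map]

theorem Tr_map (n r : ℕ) (ψ : ℕ → S) : (Tr n r ψ).map φ = Tr n r (fun i => φ (ψ i)) := by
  simp [Tr, Polynomial.map_sum]

theorem natDegree_Tr (n r : ℕ) (ψ : ℕ → S) : (Tr n r ψ).natDegree ≤ 2 * (n - r) := by
  unfold Tr
  refine natDegree_sum_le_of_forall_le _ _ fun s _ => natDegree_sum_le_of_forall_le _ _ fun i hi =>
    natDegree_sum_le_of_forall_le _ _ fun j hj => (natDegree_C_mul_X_pow_le _ _).trans ?_
  have := mem_range.1 hi
  have := mem_range.1 hj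
  omega

end generic

section maps
variable {d : ℕ}

theorem hev_pol (c : Cf d → Qb) (r : Fin 2) (z : V2) : hev d (pol c r) z = ev c z r := by
  unfold hev ev
  rw [← Fin.sum_univ_eq_sum_range (fun i => (pol c r).coeff i * z 0 ^ i * z 1 ^ (d - i))]
  simp only [pol_coeff_fin]

theorem hev_Fp (c : Cf d → Qb) (z : V2) : hev (d + 1) (Fp c) z = dt (ev c z) z := by
  have h1 := hev_mul (natDegree_pol c 0) (show (1 : Qb[X]).natDegree ≤ 1 by simp) z
  have h2 := hev_mul (show (X : Qb[X]).natDegree ≤ 1 by simp) (natDegree_pol c 1) z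
  rw [mul_one] at h1
  rw [add_comm] at h2
  rw [Fp, hev_sub, h1, h2, hev_pol, hev_pol]
  simp [hev, dt, coeff_one, coeff_X]
  ring

theorem natDegree_Bp (c : Cf d → Qb) (q : V2) : (Bp c q).natDegree ≤ d :=
  (natDegree_sub_le _ _).trans (max_le ((natDegree_mul_C_le _ _).trans (natDegree_pol c 0))
    ((natDegree_mul_C_le _ _).trans (natDegree_pol c 1)))

theorem hev_Bp (c : Cf d → Qb) (q z : V2) : hev d (Bp c q) z = dt (ev c z) q := by
  rw [Bp, hev_sub, mul_comm (pol c 0), mul_comm (pol c 1), hev_C_mul, hev_C_mul, hev_pol, hev_pol, dt]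
  ring

theorem ev_ext {c c' : Cf d → Qb} (h : ∀ z, ev c z = ev c' z) : c = c' := by
  funext ⟨r, i⟩
  have : pol c r = pol c' r := hev_ext (natDegree_pol _ _) (natDegree_pol _ _) fun x => by
    rw [hev_pol, hev_pol, h]
  rw [← pol_coeff_fin c, this, pol_coeff_fin]

theorem ev_smul (t : Qb) (c : Cf d → Qb) (z : V2) : ev (t • c) z = t • ev c z := by
  funext r
  simp [ev, mul_sum, mul_assoc]

theorem ev_smul_right (t : Qb) (c : Cf d → Qb) (z : V2) : ev c (t • z) = t ^ d • ev c z := by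
  funext r
  rw [Pi.smul_apply, ← hev_pol, ← hev_pol, hev_smul, smul_eq_mul]

theorem ev_o (c : Cf d → Qb) (r : Fin 2) : ev c ![0, 1] r = c (r, 0) := by
  rw [← hev_pol, hev_o]
  exact pol_coeff_fin c r 0

theorem conj_one (c : Cf d → Qb) : Conj 1 c c := fun z => by simp

theorem Conj.mul {g g' : M2} {c c' c'' : Cf d → Qb} (h : Conj g c c') (h' : Conj g' c' c'') :
    Conj (g * g') c c'' := fun z => by
  rw [← Matrix.mulVec_mulVec, h', h, Matrix.mulVec_mulVec]

theorem Conj.inv {g : M2} {c c' : Cf d → Qb} (hg : g.det ≠ 0) (h : Conj g c c') :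
    Conj g⁻¹ c' c := fun z => by
  have hu : IsUnit g.det := hg.isUnit
  have := h (g⁻¹.mulVec z)
  rw [Matrix.mulVec_mulVec, Matrix.mul_nonsing_inv _ hu, Matrix.one_mulVec] at this
  rw [← this, Matrix.mulVec_mulVec, Matrix.nonsing_inv_mul _ hu, Matrix.one_mulVec]

theorem det_inv_one {g : M2} (hg : g.det = 1) : g⁻¹.det = 1 := by
  rw [Matrix.det_nonsing_inv, hg, Ring.inverse_one]

theorem mulVec_inj {g : M2} (hg : g.det ≠ 0) {p q : V2} (h : g.mulVec p = g.mulVec q) : p = q :=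
  Matrix.mulVec_injective_of_isUnit ((Matrix.isUnit_iff_isUnit_det g).2 hg.isUnit) h

theorem mulVec_ne_zero {g : M2} (hg : g.det ≠ 0) {p : V2} (hp : p ≠ 0) : g.mulVec p ≠ 0 :=
  fun h => hp (mulVec_inj hg (by rw [h, Matrix.mulVec_zero]))

theorem mulVec_surj {g : M2} (hg : g.det ≠ 0) (w : V2) : ∃ z, g.mulVec z = w :=
  ⟨g⁻¹.mulVec w, by
    rw [Matrix.mulVec_mulVec, Matrix.mul_nonsing_inv _ hg.isUnit, Matrix.one_mulVec]⟩

theorem Conj.unique {g : M2} {c c' c'' : Cf d → Qb} (hg : g.det ≠ 0) (h : Conj g c c')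
    (h' : Conj g c c'') : c' = c'' :=
  ev_ext fun z => mulVec_inj hg (by rw [h, h'])

theorem Conj.eq_of_one {c c' : Cf d → Qb} (h : Conj 1 c c') : c' = c :=
  h.unique (by simp) (conj_one c)

theorem Conj.smul {g : M2} {c c' : Cf d → Qb} (h : Conj g c c') (t : Qb) :
    Conj g (t • c) (t • c') := fun z => by
  rw [ev_smul, ev_smul, Matrix.mulVec_smul, h]

theorem Conj.smul_mat {n : ℕ} {g : M2} {c c' : Cf (n + 1) → Qb} (h : Conj g c c') (t : Qb) :
    Conj (t • g) c (t ^ n • c') := fun z => by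
  rw [ev_smul, Matrix.smul_mulVec, Matrix.smul_mulVec, Matrix.mulVec_smul, ev_smul_right, h,
    smul_smul, pow_succ']

/-- reduction to determinant one -/
theorem Conj.norm {n : ℕ} {g : M2} {c c' : Cf (n + 1) → Qb} (hg : g.det ≠ 0) (h : Conj g c c') :
    ∃ (g' : M2) (t : Qb), g'.det = 1 ∧ t ≠ 0 ∧ Conj g' c (t • c') := by
  obtain ⟨s, hs⟩ := IsAlgClosed.exists_pow_nat_eq (g.det)⁻¹ two_pos
  have hs0 : s ≠ 0 := fun e => by
    rw [e, zero_pow two_ne_zero] at hs
    exact inv_ne_zero hg hs.symm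
  refine ⟨s • g, s ^ n, ?_, pow_ne_zero _ hs0, h.smul_mat s⟩
  rw [Matrix.det_smul, Fintype.card_fin, hs, inv_mul_cancel₀ hg]

/-- conjugation by a diagonal matrix -/
theorem conj_diag (c : Cf d → Qb) {s t : Qb} (hs : s ≠ 0) (ht : t ≠ 0) :
    Conj !![s, 0; 0, t] c
      (fun x => c x * s ^ (x.2 : ℕ) * t ^ (d - (x.2 : ℕ)) * (![s, t] x.1)⁻¹) := fun z => by
  funext r
  fin_cases r
  · simp only [Matrix.mulVec, dotProduct, Fin.sum_univ_two, ev]
    simp [mul_sum, mul_pow]
    refine sum_congr rfl fun i _ => ?_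
    field_simp
  · simp only [Matrix.mulVec, dotProduct, Fin.sum_univ_two, ev]
    simp [mul_sum, mul_pow]
    refine sum_congr rfl fun i _ => ?_
    field_simp

theorem IsRat.conj {g : M2} {c c' : Cf d → Qb} (hc : IsRat c) (hg : g.det ≠ 0) (h : Conj g c c') :
    IsRat c' := fun z hz e => hc _ (mulVec_ne_zero hg hz) (by rw [← h, e, Matrix.mulVec_zero])

theorem IsRat.smul {c : Cf d → Qb} (hc : IsRat c) {t : Qb} (ht : t ≠ 0) : IsRat (t • c) :=
  fun z hz => by rw [ev_smul]; exact smul_ne_zero ht (hc z hz)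

theorem o_ne_zero : (![0, 1] : V2) ≠ 0 := fun h => by simpa using congrFun h 1

theorem IsRat.at_o {c : Cf d → Qb} (hc : IsRat c) (h0 : c (0, 0) = 0) : c (1, 0) ≠ 0 := fun h1 =>
  hc _ o_ne_zero (by funext r; rw [ev_o]; fin_cases r <;> simp [h0, h1])

theorem IsRat.ne_zero {c : Cf d → Qb} (hc : IsRat c) : c ≠ 0 := fun h =>
  hc.at_o (by simp [h]) (by simp [h])

theorem Conj.Fp {g : M2} {c c' : Cf d → Qb} (hg : g.det = 1) (h : Conj g c c') (z : V2) :
    hev (d + 1) (Fp c') z = hev (d + 1) (Fp c) (g.mulVec z) := by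
  rw [hev_Fp, hev_Fp, ← h, dt_mulVec, hg, one_mul]

theorem Conj.Bp {g : M2} {c c' : Cf d → Qb} (hg : g.det = 1) (h : Conj g c c') (q z : V2) :
    hev d (Bp c' q) z = hev d (Bp c (g.mulVec q)) (g.mulVec z) := by
  rw [hev_Bp, hev_Bp, ← h, dt_mulVec, hg, one_mul]

theorem eval_smul_hom {σ : Type} {k : ℕ} {p : MvPolynomial σ Qb} (hp : p.IsHomogeneous k)
    (t : Qb) (x : σ → Qb) : MvPolynomial.eval (t • x) p = t ^ k * MvPolynomial.eval x p := by
  rw [MvPolynomial.eval_eq, MvPolynomial.eval_eq, mul_sum]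
  refine sum_congr rfl fun m hm => ?_
  have hd : ∑ i ∈ m.support, m i = k := by
    have := hp (MvPolynomial.mem_support_iff.1 hm)
    rw [← this, Finsupp.weight_apply, Finsupp.sum]
    simp
  simp only [Pi.smul_apply, smul_eq_mul, mul_pow]
  rw [prod_mul_distrib, prod_pow_eq_pow_sum, hd]
  ring

end maps

/-! ## Sums over places -/

section places

/-- finitely supported -/
def FS {ι : Type} (φ : ι → ℝ) : Prop := ∀ᶠ i in cofinite, φ i = 0

variable {ι : Type} {φ ψ : ι → ℝ}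

theorem FS.finite (h : FS φ) : (Function.support φ).Finite := h

theorem FS.add (h : FS φ) (h' : FS ψ) : FS fun i => φ i + ψ i := by
  filter_upwards [h, h'] with i a b using by rw [a, b, add_zero]

theorem FS.sub (h : FS φ) (h' : FS ψ) : FS fun i => φ i - ψ i := by
  filter_upwards [h, h'] with i a b using by rw [a, b, sub_zero]

theorem FS.mul_left (h : FS φ) (ψ : ι → ℝ) : FS fun i => ψ i * φ i := by
  filter_upwards [h] with i a using by rw [a, mul_zero]

theorem FS.const_mul (h : FS φ) (t : ℝ) : FS fun i => t * φ i := h.mul_left fun _ => t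

theorem FS.max (h : FS φ) (h' : FS ψ) : FS fun i => max (φ i) (ψ i) := by
  filter_upwards [h, h'] with i a b using by rw [a, b, max_self]

theorem FS.sum {κ : Type*} (s : Finset κ) {f : κ → ι → ℝ} (h : ∀ a ∈ s, FS (f a)) :
    FS fun i => ∑ a ∈ s, f a i := by
  have := (Filter.eventually_all_finset s).2 h
  filter_upwards [this] with i hi using sum_eq_zero hi

theorem FS.single [DecidableEq ι] (i₀ : ι) (t : ℝ) : FS (Pi.single i₀ t : ι → ℝ) := by
  filter_upwards [Filter.eventually_cofinite_ne i₀] with i hi using by simp [hi]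

variable {Γ X : Finset Qb} {K : ℝ} (P : PSys Γ X K)

/-- weighted sum over all places -/
noncomputable def PSys.sm (φ : P.ι → ℝ) : ℝ := ∑ᶠ i, P.w i * φ i

variable {P} {f g : P.ι → ℝ}

theorem PSys.sm_add (hf : FS f) (hg : FS g) : P.sm (fun i => f i + g i) = P.sm f + P.sm g := by
  unfold PSys.sm
  simp only [mul_add]
  exact finsum_add_distrib (hf.mul_left P.w).finite (hg.mul_left P.w).finite

theorem PSys.sm_const_mul (t : ℝ) (f : P.ι → ℝ) : P.sm (fun i => t * f i) = t * P.sm f := by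
  unfold PSys.sm
  rw [mul_finsum]
  exact finsum_congr fun i => by ring

theorem PSys.sm_sub (hf : FS f) (hg : FS g) : P.sm (fun i => f i - g i) = P.sm f - P.sm g := by
  unfold PSys.sm
  simp only [mul_sub]
  exact finsum_sub_distrib (hf.mul_left P.w).finite (hg.mul_left P.w).finite

theorem PSys.sm_le (hf : FS f) (hg : FS g) (h : ∀ i, f i ≤ g i) : P.sm f ≤ P.sm g :=
  finsum_le_finsum' (hf.mul_left P.w).finite (hg.mul_left P.w).finite fun i =>
    mul_le_mul_of_nonneg_left (h i) (P.wpos i).le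

theorem PSys.sm_nonneg (h : ∀ i, 0 ≤ f i) : 0 ≤ P.sm f :=
  finsum_nonneg fun i => mul_nonneg (P.wpos i).le (h i)

theorem PSys.sm_zero : P.sm (fun _ => 0) = 0 := by simp [PSys.sm]

theorem PSys.sm_sum {κ : Type*} (s : Finset κ) {F : κ → P.ι → ℝ} (h : ∀ a ∈ s, FS (F a)) :
    P.sm (fun i => ∑ a ∈ s, F a i) = ∑ a ∈ s, P.sm (F a) := by
  classical
  induction s using Finset.induction_on with
  | empty => simp [PSys.sm]
  | insert a s ha ih =>
    simp only [sum_insert ha]
    rw [PSys.sm_add (h a (mem_insert_self _ _)) (FS.sum s fun b hb => h b (mem_insert_of_mem hb)),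
      ih fun b hb => h b (mem_insert_of_mem hb)]

theorem PSys.sm_single [DecidableEq P.ι] (i₀ : P.ι) (t : ℝ) :
    P.sm (Pi.single i₀ t) = P.w i₀ * t := by
  unfold PSys.sm
  rw [finsum_eq_single _ i₀ fun i hi => by rw [Pi.single_eq_of_ne hi, mul_zero]]
  simp

/-- a constant on the archimedean places -/
theorem PSys.sm_arch [DecidableEq P.ι] (t : ℝ) :
    FS (fun i => if i ∈ P.S then t else 0) ∧ P.sm (fun i => if i ∈ P.S then t else 0) = t := by
  constructor
  · filter_upwards [P.S.eventually_cofinite_notMem] with i hi using if_neg hi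
  · unfold PSys.sm
    rw [finsum_eq_sum_of_support_subset (s := P.S) _ fun i hi => by
      by_contra h
      exact hi (by simp [show i ∉ P.S from h]),
      sum_congr rfl (g := fun i => P.w i * t) fun i hi => by simp [hi],
      ← sum_mul, P.sumS, one_mul]

theorem PSys.nonempty (P : PSys Γ X K) : Nonempty P.ι := by
  obtain ⟨i, -⟩ : P.S.Nonempty := by
    rw [Finset.nonempty_iff_ne_empty]
    intro h
    have := P.sumS
    simp [h] at this
  exact ⟨i⟩

theorem PSys.fs_A (P : PSys Γ X K) : FS fun i => Real.log (P.A i) := by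
  filter_upwards [P.afs] with i hi using by rw [hi, Real.log_one]

theorem PSys.sm_A (P : PSys Γ X K) : P.sm (fun i => Real.log (P.A i)) ≤ K := P.asum

theorem PSys.K_nonneg (P : PSys Γ X K) : 0 ≤ K :=
  (PSys.sm_nonneg fun i => Real.log_nonneg (P.adm i).one).trans P.sm_A

theorem PSys.fs_log (P : PSys Γ X K) {x : Qb} (hx : x ∈ P.L) : FS fun i => Real.log (P.v i x) := by
  rcases eq_or_ne x 0 with rfl | h0
  · exact Eventually.of_forall fun i => by simp
  · filter_upwards [P.fs x hx h0] with i hi using by rw [hi, Real.log_one]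

theorem PSys.sm_log (P : PSys Γ X K) {x : Qb} (hx : x ∈ P.L) (h0 : x ≠ 0) :
    P.sm (fun i => Real.log (P.v i x)) = 0 := P.pf x hx h0

theorem PSys.nrm_one (P : PSys Γ X K) {J : Type} [Finite J] {x : J → Qb} (hx : ∀ j, x j ∈ P.L)
    (h0 : x ≠ 0) : ∀ᶠ i in cofinite, nrm (P.v i) x = 1 := by
  obtain ⟨j₀, hj₀⟩ := Function.ne_iff.1 h0
  have h1 : ∀ j, ∀ᶠ i in cofinite, P.v i (x j) ≤ 1 := fun j => by
    rcases eq_or_ne (x j) 0 with e | e
    · exact Eventually.of_forall fun i => by simp [e]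
    · filter_upwards [P.fs _ (hx j) e] with i hi using hi.le
  filter_upwards [Filter.eventually_all.2 h1, P.fs _ (hx j₀) hj₀] with i a b
  exact le_antisymm (nrm_le _ zero_le_one a) (b ▸ le_nrm _ x j₀)

theorem PSys.fs_nrm (P : PSys Γ X K) {J : Type} [Finite J] {x : J → Qb} (hx : ∀ j, x j ∈ P.L)
    (h0 : x ≠ 0) : FS fun i => Real.log (nrm (P.v i) x) := by
  filter_upwards [P.nrm_one hx h0] with i hi using by rw [hi, Real.log_one]

theorem PSys.hgt_eq (P : PSys Γ X K) {J : Type} [Finite J] {x : J → Qb} (hx : ∀ j, x j ∈ P.L)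
    (h0 : x ≠ 0) : hgt x = P.sm fun i => Real.log (nrm (P.v i) x) := P.ht J x hx h0

variable {d : ℕ} {c : Cf d → Qb}

theorem LD.H_eq (D : LD P c) : D.H = P.sm fun i => Real.log (nrm (P.v i) (D.cc i)) := rfl

theorem LD.eta_eq (D : LD P c) (q : V2) :
    D.eta q = P.sm fun i => Real.log (nrm (P.v i) ((D.a i).mulVec q)) := rfl

theorem LD.fs_H (D : LD P c) (hc : ∀ j, c j ∈ P.L) (h0 : c ≠ 0) :
    FS fun i => Real.log (nrm (P.v i) (D.cc i)) := by
  filter_upwards [D.fin, P.nrm_one hc h0] with i a b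
  have := D.conj i
  rw [a] at this
  rw [← this.eq_of_one, b, Real.log_one]

theorem LD.fs_eta (D : LD P c) {q : V2} (hq : ∀ j, q j ∈ P.L) (h0 : q ≠ 0) :
    FS fun i => Real.log (nrm (P.v i) ((D.a i).mulVec q)) := by
  filter_upwards [D.fin, P.nrm_one hq h0] with i a b
  rw [a, Matrix.one_mulVec, b, Real.log_one]

theorem LD.nu_pos (D : LD P c) (i : P.ι) {q : V2} (h0 : q ≠ 0) :
    0 < nrm (P.v i) ((D.a i).mulVec q) :=
  nrm_pos _ (mulVec_ne_zero (by rw [D.det]; exact one_ne_zero) h0)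

theorem LD.rat (D : LD P c) (hc : IsRat c) (i : P.ι) : IsRat (D.cc i) :=
  have h : (D.a i).det ≠ 0 := by rw [D.det]; exact one_ne_zero
  hc.conj (by rw [det_inv_one (D.det i)]; exact one_ne_zero) ((D.conj i).inv h)

theorem LD.eta_smul (D : LD P c) {q : V2} (hq : ∀ j, q j ∈ P.L) (h0 : q ≠ 0) {t : Qb}
    (ht : t ∈ P.L) (ht0 : t ≠ 0) : D.eta (t • q) = D.eta q := by
  rw [LD.eta_eq, LD.eta_eq]
  have : ∀ i, Real.log (nrm (P.v i) ((D.a i).mulVec (t • q))) =
      Real.log (P.v i t) + Real.log (nrm (P.v i) ((D.a i).mulVec q)) := fun i => by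
    rw [Matrix.mulVec_smul, nrm_smul, Real.log_mul ((P.v i).pos ht0).ne' (D.nu_pos i h0).ne']
  simp only [this]
  rw [PSys.sm_add (P.fs_log ht) (D.fs_eta hq h0), P.sm_log ht ht0, zero_add]

end places

end Pool.Agent.MP_216eb3_nt.GIT
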