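import Mathlib

set_option autoImplicit false

namespace Pool.Agent.MP_216eb3_nt.GIT

/-- The field of algebraic numbers. -/
abbrev Qb : Type := AlgebraicClosure ℚ

theorem numberField_adjoin {s : Set Qb} (hs : s.Finite) :
    NumberField (IntermediateField.adjoin ℚ s) :=
  have : Finite s := hs
  have : FiniteDimensional ℚ (IntermediateField.adjoin ℚ s) :=
    IntermediateField.finiteDimensional_adjoin fun x _ =>
      ((AlgebraicClosure.isAlgebraic ℚ).isAlgebraic x).isIntegral
  {}

/-- Absolute logarithmic Weil height of a tuple of algebraic numbers: the logarithmic height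
relative to the number field generated by the coordinates, divided by the degree of that field. -/
noncomputable def hgt {ι : Type} [Finite ι] (x : ι → Qb) : ℝ :=
  haveI := numberField_adjoin (Set.finite_range x)
  Height.logHeight (fun i => (⟨x i, IntermediateField.subset_adjoin ℚ _ ⟨i, rfl⟩⟩ :
      IntermediateField.adjoin ℚ (Set.range x))) /
    Module.finrank ℚ (IntermediateField.adjoin ℚ (Set.range x))

/-- Indices of the `2d+2` coefficients of a pair of binary forms of degree `d`. -/
abbrev Cf (d : ℕ) : Type := Fin 2 × Fin (d + 1)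

/-- The value at `z` of the pair of forms with coefficient vector `c`. -/
noncomputable def ev {d : ℕ} (c : Cf d → Qb) (z : Fin 2 → Qb) : Fin 2 → Qb :=
  fun r => ∑ i : Fin (d + 1), c (r, i) * z 0 ^ (i : ℕ) * z 1 ^ (d - (i : ℕ))

/-- The two forms have no common zero on the projective line: a rational map of degree `d`. -/
def IsRat {d : ℕ} (c : Cf d → Qb) : Prop := ∀ z : Fin 2 → Qb, z ≠ 0 → ev c z ≠ 0

/-- `c'` is the coefficient vector of the conjugate of `c` by the matrix `g`. -/
def Conj {d : ℕ} (g : Matrix (Fin 2) (Fin 2) Qb) (c c' : Cf d → Qb) : Prop :=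
  ∀ z : Fin 2 → Qb, g.mulVec (ev c' z) = ev c (g.mulVec z)

/-- The minimal height in the conjugacy class. -/
noncomputable def hmin {d : ℕ} (c : Cf d → Qb) : ℝ :=
  sInf {t : ℝ | ∃ (g : Matrix (Fin 2) (Fin 2) Qb) (c' : Cf d → Qb),
    g.det ≠ 0 ∧ Conj g c c' ∧ hgt c' = t}

/-- Polynomials in the coefficients invariant under conjugation by matrices of determinant one. -/
def IsInv {d : ℕ} (J : MvPolynomial (Cf d) Qb) : Prop :=
  ∀ (g : Matrix (Fin 2) (Fin 2) Qb) (c c' : Cf d → Qb), g.det = 1 → Conj g c c' →
    MvPolynomial.eval c' J = MvPolynomial.eval c J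

/-- Nullforms: all homogeneous invariants of positive degree vanish. -/
def IsNull {d : ℕ} (c : Cf d → Qb) : Prop :=
  ∀ (m : ℕ) (J : MvPolynomial (Cf d) Qb), 0 < m → J.IsHomogeneous m → IsInv J →
    MvPolynomial.eval c J = 0

/-- Invariant forms of one degree `k > 0` whose common zeros are nullforms. -/
structure IsGIT {d M : ℕ} (k : ℕ) (I : Fin M → MvPolynomial (Cf d) Qb) : Prop where
  pos : 0 < k
  hom : ∀ j, (I j).IsHomogeneous k
  inv : ∀ j, IsInv (I j)
  null : ∀ c : Cf d → Qb, (∀ j, MvPolynomial.eval c (I j) = 0) → IsNull c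

/-- The moduli height: the height of the point given by the invariants, divided by their degree. -/
noncomputable def hG {d M : ℕ} (k : ℕ) (I : Fin M → MvPolynomial (Cf d) Qb)
    (c : Cf d → Qb) : ℝ :=
  hgt (fun j => MvPolynomial.eval c (I j)) / k

end Pool.Agent.MP_216eb3_nt.GIT
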