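import Pool.Agent.MP_216eb3_nt.GIT.Basic

set_option autoImplicit false

namespace Pool.Agent.MP_216eb3_nt.GIT

open Finset

theorem fin_le (hH : SpHt) {d : ℕ} {g : M2} {c c' : Cf d → Qb} (hg : g.det ≠ 0) (h : Conj g c c') :
    hmin c ≤ hgt c' :=
  csInf_le ⟨0, by rintro _ ⟨_, c'', -, -, rfl⟩; exact (hH _ c'').1⟩ ⟨g, c', hg, h, rfl⟩

theorem fin_ge {d : ℕ} {c : Cf d → Qb} {t : ℝ}
    (h : ∀ (g : M2) (c' : Cf d → Qb), g.det ≠ 0 → Conj g c c' → t ≤ hgt c') : t ≤ hmin c :=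
  le_csInf ⟨_, 1, c, by simp, conj_one c, rfl⟩ (by rintro _ ⟨g, c', hg, hc, rfl⟩; exact h g c' hg hc)

theorem fin_up (hH : SpHt) (hS : SpPS) (hD : SpData) (h1 : SpKey1) (h2 : SpKey2) (n : ℕ)
    (hn : 1 ≤ n) (M k : ℕ) (I : Fin M → MvPolynomial (Cf (n + 1)) Qb) (hI : IsGIT k I) :
    ∃ K : ℝ, ∀ c, IsRat c → hmin c ≤ 2 * hG k I c + K := by
  classical
  obtain ⟨Γ, m₀, h0⟩ := hD n hn M k I hI
  obtain ⟨m₁, h1⟩ := h1 n hn
  obtain ⟨m₂, h2⟩ := h2 n hn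
  obtain ⟨K, hK⟩ := hS Γ
  refine ⟨2 * (m₀ * K + 1) + m₁ * K + m₂ * K + 1, fun c hc => ?_⟩
  obtain ⟨Y, hY⟩ := h1 c hc
  obtain ⟨P⟩ := hK (Y ∪ univ.image c ∪ univ.image fun j => MvPolynomial.eval c (I j))
  have cL : ∀ j, c j ∈ P.L := fun j => P.mem _ (by simp)
  obtain ⟨D, hD⟩ := h0 _ K P c hc cL fun j => P.mem _ (by simp)
  obtain ⟨q₀, r, p, p', hF, a1, a2⟩ := hY _ _ K P D cL fun x hx => P.mem _ (by simp [hx])
  obtain ⟨g, c', hg, hcc, a3⟩ := h2 c _ _ K P D q₀ r p p' hc cL hF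
  have a4 := fin_le hH hg hcc
  have a5 : (n : ℝ) * max (D.eta q₀) (D.eta r) ≤ D.H + m₁ * K := by
    rcases le_total (D.eta q₀) (D.eta r) with e | e
    · rwa [max_eq_right e]
    · rwa [max_eq_left e]
  linarith

theorem fin_main (hH : SpHt) (hS : SpPS) (hD : SpData) (h1 : SpKey1) (h2 : SpKey2) (hL : SpLow)
    (s1 : SpS1) (sa : SpS2a) (sb : SpS2b) (n : ℕ) (hn : 1 ≤ n) (M k : ℕ)
    (I : Fin M → MvPolynomial (Cf (n + 1)) Qb) (hI : IsGIT k I) :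
    ∃ K : ℝ,
      (∀ c, IsRat c → hG k I c - K ≤ hmin c ∧ hmin c ≤ 2 * hG k I c + K) ∧
      (∀ T : ℝ, ∃ c, IsRat c ∧ T ≤ hG k I c ∧ hmin c ≤ hG k I c + K) ∧
      (∀ T : ℝ, ∃ c, IsRat c ∧ T ≤ hG k I c ∧ 2 * hG k I c - K ≤ hmin c) := by
  obtain ⟨K₁, k1⟩ := fin_up hH hS hD h1 h2 n hn M k I hI
  obtain ⟨K₂, k2⟩ := hL n hn M k I hI
  obtain ⟨K₃, k3⟩ := s1 n hn M k I hI
  obtain ⟨K₄, k4⟩ := sa n hn M k I hI
  obtain ⟨K₅, k5⟩ := sb n hn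
  have b1 := le_abs_self K₁
  have b2 := le_abs_self K₂
  have b3 := le_abs_self K₃
  have b4 := le_abs_self (K₄ + K₅)
  have c1 := abs_nonneg K₁
  have c2 := abs_nonneg K₂
  have c3 := abs_nonneg K₃
  have c4 := abs_nonneg (K₄ + K₅)
  refine ⟨|K₁| + |K₂| + |K₃| + |K₄ + K₅|, fun c hc => ⟨fin_ge fun g c' hg h => ?_, ?_⟩,
    fun T => ?_, fun T => ?_⟩
  · linarith [k2 c c' g hc hg h]
  · linarith [k1 c hc]
  · obtain ⟨c, hc, a1, a2⟩ := k3 T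
    exact ⟨c, hc, a1, by linarith [fin_le hH (g := 1) (by simp) (conj_one c)]⟩
  · obtain ⟨N, hN⟩ := exists_nat_ge (Real.exp (2 * |2 * T + K₁ + K₅|))
    have hp := Real.exp_pos (2 * |2 * T + K₁ + K₅|)
    have hN1 : 1 ≤ N := Nat.one_le_iff_ne_zero.2 fun e => by
      rw [e, Nat.cast_zero] at hN; linarith
    have a0 : 2 * |2 * T + K₁ + K₅| ≤ Real.log N := (Real.le_log_iff_exp_le (by linarith)).2 hN
    obtain ⟨hc, a1⟩ := k4 N hN1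
    have a2 := fin_ge (k5 N hN1)
    have a3 := k1 _ hc
    have a4 : (1 : ℝ) / 2 ≤ (n : ℝ) / (n + 1) := by
      have : (1 : ℝ) ≤ n := by exact_mod_cast hn
      rw [div_le_div_iff₀ (by norm_num) (by linarith)]
      linarith
    have a5 := mul_le_mul_of_nonneg_right a4 (Real.log_natCast_nonneg N)
    have a6 := le_abs_self (2 * T + K₁ + K₅)
    exact ⟨_, hc, by linarith, by linarith⟩

end Pool.Agent.MP_216eb3_nt.GIT
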