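import Pool.Agent.MP_216eb3_nt.GIT.Spec

set_option autoImplicit false

namespace Pool.Agent.MP_216eb3_nt.GIT

open Polynomial Finset

variable {v : AV} {A : ℝ}

theorem r1_add (h : Adm ∅ v A) {x y : Qb} {B : ℝ} (hx : v x ≤ B) (hy : v y ≤ B) :
    v (x + y) ≤ A * B :=
  (h.tri x y).trans (mul_le_mul_of_nonneg_left (max_le hx hy) (zero_le_one.trans h.one))

theorem r1_sub (h : Adm ∅ v A) {x y : Qb} {B : ℝ} (hx : v x ≤ B) (hy : v y ≤ B) :
    v (x - y) ≤ A * B := by
  rw [sub_eq_add_neg]
  exact r1_add h hx (by rwa [v.map_neg])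

theorem r1_pow (h : Adm ∅ v A) {i j : ℕ} (hij : i ≤ j) {B : ℝ} (hB : 0 ≤ B) :
    A ^ i * B ≤ A ^ j * B :=
  mul_le_mul_of_nonneg_right (pow_le_pow_right₀ h.one hij) hB

theorem r1_c0 (a b : Qb) (P : Qb[X]) : ((C a * X + C b) * P).coeff 0 = b * P.coeff 0 := by
  simp

theorem r1_c1 (a b : Qb) (P : Qb[X]) (i : ℕ) :
    ((C a * X + C b) * P).coeff (i + 1) = a * P.coeff i + b * P.coeff (i + 1) := by
  rw [add_mul, coeff_add, mul_assoc, coeff_C_mul, coeff_C_mul, coeff_X_mul]

theorem r1_lin (h : Adm ∅ v A) (a b : Qb) (P : Qb[X]) (N : ℕ) (B : ℝ) (hP : P.natDegree ≤ N)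
    (hB : ∀ i, v (((C a * X + C b) * P).coeff i) ≤ B) (j : ℕ) :
    max (v a) (v b) * v (P.coeff j) ≤ A ^ (N + 1) * B := by
  have B0 : 0 ≤ B := (v.nonneg _).trans (hB 0)
  have hB' : ∀ t i, v (((C a * X + C b) * P).coeff i) ≤ A ^ t * B := fun t i =>
    (hB i).trans (by simpa using r1_pow h (Nat.zero_le t) B0)
  rcases le_total (v a) (v b) with hab | hab
  · rw [max_eq_right hab]
    have key : ∀ i, v b * v (P.coeff i) ≤ A ^ i * B := by
      intro i
      induction i with
      | zero => simpa [r1_c0] using hB 0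
      | succ i ih =>
        have e : b * P.coeff (i + 1) =
            ((C a * X + C b) * P).coeff (i + 1) - a * P.coeff i := by rw [r1_c1]; ring
        rw [← v.map_mul, e, pow_succ', mul_assoc]
        refine r1_sub h (hB' i _) ?_
        rw [v.map_mul]
        exact (mul_le_mul_of_nonneg_right hab (v.nonneg _)).trans ih
    rcases le_or_gt j N with hj | hj
    · exact (key j).trans (r1_pow h (by omega) B0)
    · rw [coeff_eq_zero_of_natDegree_lt (hP.trans_lt hj), v.map_zero, mul_zero]
      exact mul_nonneg (pow_nonneg (zero_le_one.trans h.one) _) B0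
  · rw [max_eq_left hab]
    have key : ∀ t i, N + 1 ≤ i + t → v a * v (P.coeff i) ≤ A ^ t * B := by
      intro t
      induction t with
      | zero =>
        intro i hi
        rw [coeff_eq_zero_of_natDegree_lt (by omega), v.map_zero, mul_zero, pow_zero, one_mul]
        exact B0
      | succ t ih =>
        intro i hi
        have e : a * P.coeff i =
            ((C a * X + C b) * P).coeff (i + 1) - b * P.coeff (i + 1) := by rw [r1_c1]; ring
        rw [← v.map_mul, e, pow_succ', mul_assoc]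
        refine r1_sub h (hB' t _) ?_
        rw [v.map_mul]
        exact (mul_le_mul_of_nonneg_right hab (v.nonneg _)).trans (ih (i + 1) (by omega))
    exact key (N + 1) j (by omega)

theorem r1_two (h : Adm ∅ v A) (D : ℕ) (Q : Qb[X]) (i k : ℕ) : ∀ (p : Qb[X]) (B : ℝ),
    p.natDegree = k → k + Q.natDegree ≤ D → (∀ l, v ((p * Q).coeff l) ≤ B) →
    ∀ j, v (p.coeff j) * v (Q.coeff i) ≤ A ^ (k * (D + 2)) * B := by
  induction k with
  | zero =>
    intro p B hp _ hB j
    rw [zero_mul, pow_zero, one_mul]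
    rcases j with _ | j
    · have := hB i
      rwa [eq_C_of_natDegree_eq_zero hp, coeff_C_mul, v.map_mul] at this
    · rw [coeff_eq_zero_of_natDegree_lt (by omega), v.map_zero, zero_mul]
      exact (v.nonneg _).trans (hB 0)
  | succ k ih =>
    intro p B hp hD hB j
    have A0 : 0 ≤ A := zero_le_one.trans h.one
    have B0 : 0 ≤ B := (v.nonneg _).trans (hB 0)
    obtain ⟨r, hr⟩ := IsAlgClosed.exists_root p (by
      rw [degree_eq_natDegree (by rintro rfl; simp at hp), hp]
      exact_mod_cast Nat.succ_ne_zero k)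
    obtain ⟨p', rfl⟩ := dvd_iff_isRoot.2 hr
    have p0 : p' ≠ 0 := by rintro rfl; simp at hp
    rw [natDegree_mul (X_sub_C_ne_zero r) p0, natDegree_X_sub_C] at hp
    have e : (X - C r : Qb[X]) = C 1 * X + C (-r) := by simp [sub_eq_add_neg]
    rw [e] at hB ⊢
    set μ := max (v 1) (v (-r)) with hμ
    have μ0 : 0 < μ := lt_max_of_lt_left (by simp)
    have h1 : ∀ l, v ((p' * Q).coeff l) ≤ A ^ (D + 1) * B / μ := fun l => by
      rw [le_div_iff₀' μ0]
      exact r1_lin h 1 (-r) (p' * Q) D B (natDegree_mul_le.trans (by omega))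
        (fun l => by rw [← mul_assoc]; exact hB l) l
    have h2 : ∀ (c : Qb) (j : ℕ), v c ≤ μ → v (c * p'.coeff j * Q.coeff i) ≤
        A ^ (k * (D + 2)) * (A ^ (D + 1) * B) := fun c j hc => by
      have := ih p' _ (by omega) (by omega) h1 j
      rw [← mul_div_assoc, le_div_iff₀' μ0] at this
      rw [mul_assoc, v.map_mul, v.map_mul]
      exact (mul_le_mul_of_nonneg_right hc (mul_nonneg (v.nonneg _) (v.nonneg _))).trans this
    have e2 : A ^ ((k + 1) * (D + 2)) * B = A * (A ^ (k * (D + 2)) * (A ^ (D + 1) * B)) := by ring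
    rw [e2, ← v.map_mul]
    rcases j with _ | j
    · rw [r1_c0]
      exact (h2 _ 0 (le_max_right _ _)).trans (le_mul_of_one_le_left (by positivity) h.one)
    · rw [r1_c1, add_mul]
      exact r1_add h (h2 _ j (le_max_left _ _)) (h2 _ (j + 1) (le_max_right _ _))

theorem r1_low (h : Adm ∅ v A) (n : ℕ) {ι : Type} (p : ι → Qb[X]) (j : ι → ℕ) (s : Finset ι) :
    ∀ B : ℝ, s.card ≤ n → (∀ a ∈ s, (p a).natDegree ≤ n) →
    (∀ i, v ((∏ a ∈ s, p a).coeff i) ≤ B) →
    ∏ a ∈ s, v ((p a).coeff (j a)) ≤ A ^ (s.card * (n * (n + n * n + 2))) * B := by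
  classical
  induction s using Finset.induction_on with
  | empty =>
    intro B _ _ hB
    simpa using hB 0
  | insert a s ha ih =>
    intro B hc hd hB
    have A0 : 0 ≤ A := zero_le_one.trans h.one
    have B0 : 0 ≤ B := (v.nonneg _).trans (hB 0)
    rw [card_insert_of_notMem ha] at hc ⊢
    rw [prod_insert ha] at hB ⊢
    have hd' : ∀ b ∈ s, (p b).natDegree ≤ n := fun b hb => hd b (mem_insert_of_mem hb)
    have hda := hd a (mem_insert_self a s)
    have hQ : (∏ b ∈ s, p b).natDegree ≤ n * n :=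
      (natDegree_prod_le s p).trans ((sum_le_card_nsmul s _ n hd').trans
        (Nat.mul_le_mul_right n (by omega)))
    rcases (v.nonneg ((p a).coeff (j a))).eq_or_lt with e | e
    · rw [← e, zero_mul]
      positivity
    · have h1 : ∀ i, v ((∏ b ∈ s, p b).coeff i) ≤
          A ^ (n * (n + n * n + 2)) * B / v ((p a).coeff (j a)) := fun i => by
        rw [le_div_iff₀' e]
        exact (r1_two h (n + n * n) _ i _ (p a) B rfl (by omega) hB (j a)).trans
          (r1_pow h (Nat.mul_le_mul_right _ hda) B0)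
      have h2 := ih _ (by omega) hd' h1
      rw [← mul_div_assoc, le_div_iff₀' e] at h2
      refine h2.trans (le_of_eq ?_)
      ring

theorem r1_up (h : Adm ∅ v A) {ι : Type} (α β : ι → Qb) (μ : ι → ℝ) {x y : ℝ} (hx : 0 ≤ x)
    (hy : 0 ≤ y) (s : Finset ι) : (∀ a ∈ s, 0 ≤ μ a ∧ v (α a) ≤ μ a * x ∧ v (β a) ≤ μ a * y) →
    ∀ i, v ((∏ a ∈ s, (C (α a) * X + C (β a))).coeff i) ≤
      if i ≤ s.card then A ^ s.card * (∏ a ∈ s, μ a) * x ^ i * y ^ (s.card - i) else 0 := by
  classical
  induction s using Finset.induction_on with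
  | empty =>
    intro _ i
    rcases i with _ | i
    · simp
    · simp [coeff_one]
  | insert a s ha ih =>
    intro hs i
    have A0 : 0 ≤ A := zero_le_one.trans h.one
    have hs' := fun b (hb : b ∈ s) => hs b (mem_insert_of_mem hb)
    obtain ⟨m0, m1, m2⟩ := hs a (mem_insert_self a s)
    have M0 : 0 ≤ ∏ b ∈ s, μ b := prod_nonneg fun b hb => (hs' b hb).1
    have ih' := ih hs'
    rw [card_insert_of_notMem ha, prod_insert ha, prod_insert ha]
    generalize ∏ b ∈ s, (C (α b) * X + C (β b)) = Q at ih'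
    generalize ∏ b ∈ s, μ b = M at ih' M0
    generalize s.card = k at ih'
    rcases i with _ | i
    · have := ih' 0
      rw [if_pos (Nat.zero_le _)] at this ⊢
      rw [r1_c0, v.map_mul]
      refine (mul_le_mul m2 this (v.nonneg _) (by positivity)).trans ?_
      refine (le_mul_of_one_le_left (by positivity) h.one).trans (le_of_eq ?_)
      rw [Nat.sub_zero, Nat.sub_zero]
      ring
    · rw [r1_c1]
      have h1 := ih' i
      have h2 := ih' (i + 1)
      by_cases hi : i ≤ k
      · rw [if_pos hi] at h1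
        rw [if_pos (by omega), Nat.add_sub_add_right]
        have e : A ^ (k + 1) * (μ a * M) * x ^ (i + 1) * y ^ (k - i) =
            A * (μ a * x * (A ^ k * M * x ^ i * y ^ (k - i))) := by ring
        rw [e]
        refine r1_add h ?_ ?_
        · rw [v.map_mul]
          exact mul_le_mul m1 h1 (v.nonneg _) (by positivity)
        · rw [v.map_mul]
          by_cases hi' : i + 1 ≤ k
          · rw [if_pos hi'] at h2
            refine (mul_le_mul m2 h2 (v.nonneg _) (by positivity)).trans (le_of_eq ?_)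
            rw [show k - i = k - (i + 1) + 1 by omega]
            ring
          · rw [if_neg hi'] at h2
            rw [le_antisymm h2 (v.nonneg _), mul_zero]
            positivity
      · rw [if_neg hi] at h1
        rw [if_neg (by omega)] at h2 ⊢
        rw [v.eq_zero.1 (le_antisymm h1 (v.nonneg _)), v.eq_zero.1 (le_antisymm h2 (v.nonneg _))]
        simp

theorem r1_Gauss : SpGauss := by
  intro n
  refine ⟨n * (n * (n + n * n + 2)) + n, fun v A h => ⟨fun ι s p j B hc hd hB => ?_,
    fun ι s α β μ x y hc hx hy hs i hi => ?_⟩⟩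
  · exact (r1_low h n p j s B hc hd hB).trans (r1_pow h
      ((Nat.mul_le_mul_right _ hc).trans (Nat.le_add_right _ _)) ((v.nonneg _).trans (hB 0)))
  · have h1 := r1_up h α β μ hx hy s hs i
    have M0 : 0 ≤ ∏ b ∈ s, μ b := prod_nonneg fun b hb => (hs b hb).1
    rw [if_pos hi, mul_assoc, mul_assoc] at h1
    rw [mul_assoc, mul_assoc]
    exact h1.trans (r1_pow h (by omega) (by positivity))

end Pool.Agent.MP_216eb3_nt.GIT
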