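import Pool.Agent.MP_216eb3_nt.GIT.Basic

set_option autoImplicit false

namespace Pool.Agent.MP_216eb3_nt.GIT

open Polynomial Finset Filter

theorem r10_pol (v : AV) {d : ℕ} (c : Cf d → Qb) (r : Fin 2) (i : ℕ) :
    v ((pol c r).coeff i) ≤ nrm v c := by
  rw [pol_coeff]
  split_ifs with h
  · exact le_nrm v c _
  · rw [map_zero]; exact nrm_nonneg v c

theorem r10_Fp {v : AV} {A : ℝ} (h : Adm ∅ v A) {d : ℕ} (c : Cf d → Qb) (i : ℕ) :
    v ((Fp c).coeff i) ≤ A * nrm v c := by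
  cases i with
  | zero =>
    rw [Fp_coeff_zero]
    exact (r10_pol v c 0 0).trans (le_mul_of_one_le_left (nrm_nonneg v c) h.one)
  | succ i =>
    rw [Fp_coeff_succ]
    exact h.sub_le (r10_pol v c 0 _) (r10_pol v c 1 _)

theorem r10_Bp {v : AV} {A : ℝ} (h : Adm ∅ v A) {d : ℕ} (c : Cf d → Qb) (q : V2) (i : ℕ) :
    v ((Bp c q).coeff i) ≤ A * (nrm v c * nrm v q) := by
  rw [Bp, coeff_sub, coeff_mul_C, coeff_mul_C]
  refine h.sub_le ?_ ?_ <;> rw [map_mul] <;>
    exact mul_le_mul (r10_pol v c _ _) (le_nrm v q _) (v.nonneg _) (nrm_nonneg v c)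

theorem r10_idx (v : AV) (q : V2) : ∃ j : ℕ, v ((lin q).coeff j) = nrm v q := by
  obtain ⟨i, hi⟩ := exists_nrm v q
  fin_cases i
  · exact ⟨0, by rw [lin_coeff_zero, v.map_neg]; exact hi⟩
  · exact ⟨1, by rw [lin_coeff_one]; exact hi⟩

theorem r10_roots (hG : SpGauss) (N : ℕ) (hN : 1 ≤ N) : ∃ m : ℕ, ∀ (v : AV) (A : ℝ), Adm ∅ v A →
    ∀ (k : ℕ) (q₀ : V2) (p : Fin k → V2) (B : ℝ), k + 1 ≤ N →
      (∀ i, v ((lin q₀ * ∏ s, lin (p s)).coeff i) ≤ B) →
      nrm v q₀ * ∏ s, nrm v (p s) ≤ A ^ m * B := by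
  obtain ⟨m, hm⟩ := hG N
  refine ⟨m, fun v A h k q₀ p B hk hB => ?_⟩
  let Q : Fin (k + 1) → V2 := Fin.cons q₀ p
  choose j hj using fun s => r10_idx v (Q s)
  have := (hm v A h).1 (Fin (k + 1)) univ (fun s => lin (Q s)) j B (by simpa using hk)
    (fun a _ => (natDegree_lin _).trans hN) (by
      intro i
      rw [Fin.prod_univ_succ]
      exact hB i)
  simp only [hj] at this
  rwa [Fin.prod_univ_succ] at this

theorem r10_tr {a : M2} (ha : a.det = 1) {k : ℕ} {F F' : Qb[X]} (hF' : F'.natDegree ≤ k + 1)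
    (h : ∀ z, hev (k + 1) F z = hev (k + 1) F' (a.mulVec z)) (q₀ : V2) (p : Fin k → V2)
    (e : F = lin q₀ * ∏ s, lin (p s)) :
    F' = lin (a.mulVec q₀) * ∏ s, lin (a.mulVec (p s)) := by
  refine hev_ext hF' (natDegree_mul_le.trans ?_) fun x => ?_
  · have h1 := natDegree_lin (a.mulVec q₀)
    have h2 := natDegree_prod_lin fun s => a.mulVec (p s)
    omega
  · obtain ⟨z, hz⟩ := mulVec_surj (g := a) (by rw [ha]; exact one_ne_zero) ![x, 1]
    rw [← hz, ← h, e, hev_lin_mul, hev_lin_mul]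
    simp only [dt_mulVec, ha, one_mul]

theorem r10_Loc (hG : SpGauss) : SpLoc := by
  intro n
  obtain ⟨m, hm⟩ := r10_roots hG (n + 2) (by omega)
  refine ⟨m + 1, fun v A a cc c h ha hc => ⟨fun p q => ?_, fun q₀ p e => ?_, fun q₀ p h0 e => ?_⟩⟩
  · have : dt p q = dt (a.mulVec p) (a.mulVec q) := by rw [dt_mulVec, ha, one_mul]
    rw [this, dt]
    refine h.sub_le ?_ ?_ <;> rw [map_mul] <;>
      exact mul_le_mul (le_nrm v _ _) (le_nrm v _ _) (v.nonneg _) (nrm_nonneg v _)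
  · have e' := r10_tr ha (natDegree_Fp cc) (hc.Fp ha) q₀ p e
    have := hm v A h (n + 1) (a.mulVec q₀) (fun s => a.mulVec (p s)) (A * nrm v cc) le_rfl
      (fun i => by rw [← e']; exact r10_Fp h cc i)
    rwa [← mul_assoc, ← pow_succ] at this
  · have e' := r10_tr ha (natDegree_Bp cc (a.mulVec q₀)) (hc.Bp ha q₀) q₀ p e
    have := hm v A h n (a.mulVec q₀) (fun s => a.mulVec (p s))
      (A * (nrm v cc * nrm v (a.mulVec q₀))) (by omega)
      (fun i => by rw [← e']; exact r10_Bp h cc _ i)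
    have hp : 0 < nrm v (a.mulVec q₀) :=
      nrm_pos v (mulVec_ne_zero (by rw [ha]; exact one_ne_zero) h0)
    refine le_of_mul_le_mul_left (this.trans (le_of_eq ?_)) hp
    ring

theorem r10_Data (hL : SpLL)
    (hne : ∀ n, 1 ≤ n → ∀ (M k : ℕ) (I : Fin M → MvPolynomial (Cf (n + 1)) Qb), IsGIT k I →
      ∀ c, IsRat c → (fun j => MvPolynomial.eval c (I j)) ≠ 0) : SpData := by
  classical
  intro n hn M k I hI
  obtain ⟨Γ, m, hm⟩ := hL n hn M k I hI
  refine ⟨Γ, m, fun X K P c hc hcL hIL => ?_⟩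
  set y : Fin M → Qb := fun j => MvPolynomial.eval c (I j) with hy
  have hy0 : y ≠ 0 := hne n hn M k I hI c hc
  have hfin : ∀ᶠ i in cofinite, P.A i = 1 ∧ nrm (P.v i) c = 1 ∧ nrm (P.v i) y = 1 :=
    P.afs.and ((P.nrm_one hcL hc.ne_zero).and (P.nrm_one hIL hy0))
  set T : Finset P.ι := (Filter.eventually_cofinite.1 hfin).toFinset with hT
  have hTm : ∀ i, i ∉ T → P.A i = 1 ∧ nrm (P.v i) c = 1 ∧ nrm (P.v i) y = 1 := fun i hi => by
    by_contra h
    exact hi (by rw [hT, Set.Finite.mem_toFinset]; exact h)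
  have hW : 0 ≤ ∑ i ∈ T, P.w i := sum_nonneg fun i _ => (P.wpos i).le
  set ε : ℝ := 1 / (1 + ∑ i ∈ T, P.w i) with hε
  have hε0 : 0 < ε := by positivity
  have key : ∀ i, ∃ (a : M2) (cc : Cf (n + 1) → Qb), a.det = 1 ∧ Conj a cc c ∧ (i ∉ T → a = 1) ∧
      k * Real.log (nrm (P.v i) cc) ≤ (if i ∈ T then ε else 0) + m * Real.log (P.A i) +
        Real.log (nrm (P.v i) y) := by
    intro i
    by_cases hi : i ∈ T
    · obtain ⟨g, c', hg, hcc, hb⟩ := hm (P.v i) (P.A i) ε c (P.adm i) hε0 hc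
      have hg0 : g.det ≠ 0 := by rw [hg]; exact one_ne_zero
      refine ⟨g⁻¹, c', det_inv_one hg, hcc.inv hg0, fun h => absurd hi h, ?_⟩
      have h1 : 0 < nrm (P.v i) c' := nrm_pos _ (hc.conj hg0 hcc).ne_zero
      have h2 : 0 < nrm (P.v i) y := nrm_pos _ hy0
      have h3 : 0 < P.A i := (P.adm i).pos
      have h4 := Real.log_le_log (pow_pos h1 k) hb
      rw [Real.log_pow, Real.log_mul (by positivity) h2.ne',
        Real.log_mul (by positivity) (by positivity), Real.log_pow] at h4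
      have h5 := Real.log_le_sub_one_of_pos (show 0 < 1 + ε by positivity)
      rw [if_pos hi]
      linarith
    · obtain ⟨h1, h2, h3⟩ := hTm i hi
      refine ⟨1, c, by simp, conj_one c, fun _ => rfl, ?_⟩
      rw [if_neg hi, h1, h2, h3]
      simp
  choose a cc h1 h2 h3 h4 using key
  let D : LD P c := ⟨a, cc, h1, h2, by
    filter_upwards [T.eventually_cofinite_notMem] with i hi using h3 i hi⟩
  refine ⟨D, ?_⟩
  have f0 : FS fun i => if i ∈ T then ε else 0 := by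
    filter_upwards [T.eventually_cofinite_notMem] with i hi using if_neg hi
  have s0 : P.sm (fun i => if i ∈ T then ε else 0) ≤ 1 := by
    unfold PSys.sm
    rw [finsum_eq_sum_of_support_subset (s := T) _ fun i hi => by
      by_contra h
      exact hi (by simp [show i ∉ T from h]),
      sum_congr rfl (g := fun i => P.w i * ε) fun i hi => by simp [hi], ← sum_mul, hε,
      mul_one_div, div_le_one (by positivity)]
    linarith
  have f1 := P.fs_A.const_mul (m : ℝ)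
  have f2 := P.fs_nrm hIL hy0
  have e := PSys.sm_le ((D.fs_H hcL hc.ne_zero).const_mul (k : ℝ)) ((f0.add f1).add f2) h4
  rw [PSys.sm_const_mul, PSys.sm_add (f0.add f1) f2, PSys.sm_add f0 f1, PSys.sm_const_mul,
    ← P.hgt_eq hIL hy0, ← D.H_eq] at e
  have hk : (1 : ℝ) ≤ k := by exact_mod_cast hI.pos
  have hA := mul_le_mul_of_nonneg_left P.sm_A (Nat.cast_nonneg (α := ℝ) m)
  have hK : 0 ≤ (m : ℝ) * K + 1 := by have := P.K_nonneg; positivity
  have e2 : hG k I c = hgt y / k := rfl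
  rw [e2, add_assoc, ← sub_le_iff_le_add, le_div_iff₀ (by linarith)]
  nlinarith [mul_le_mul_of_nonneg_left hk hK]

end Pool.Agent.MP_216eb3_nt.GIT
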