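import Pool.Agent.MP_216eb3_nt.GIT.Spec
import Pool.Agent.MP_216eb3_nt.H66.Local

set_option autoImplicit false

namespace Pool.Agent.MP_216eb3_nt.GIT

open Height NumberField

/-- a ring map from a number field into an algebraically closed field extends to `Qb` -/
theorem r11a_lift (L : IntermediateField ℚ Qb) (F : Type) [Field F] [IsAlgClosed F]
    (φ : L →+* F) : ∃ ψ : Qb →+* F, ∀ x : L, ψ x = φ x := by
  let _ : Algebra L F := φ.toAlgebra
  have : Algebra.IsAlgebraic ℚ Qb := AlgebraicClosure.isAlgebraic ℚ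
  have : Algebra.IsAlgebraic L Qb := Algebra.IsAlgebraic.tower_top (K := ℚ) L
  let ψ : Qb →ₐ[L] F := IsAlgClosed.lift
  exact ⟨ψ.toRingHom, fun x => ψ.commutes x⟩

theorem r11a_nonarch (L : IntermediateField ℚ Qb) (F : Type) [NontriviallyNormedField F]
    [IsUltrametricDist F] [CompleteSpace F] (φ : L →+* F) :
    ∃ v : AV, IsNonarchimedean v ∧ ∀ x : L, v x = ‖φ x‖ := by
  obtain ⟨ψ, hψ⟩ := r11a_lift L (AlgebraicClosure F)
    ((algebraMap F (AlgebraicClosure F)).comp φ)
  let _ : NormedField (AlgebraicClosure F) := spectralNorm.normedField F (AlgebraicClosure F)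
  refine ⟨(NormedField.toAbsoluteValue (AlgebraicClosure F)).comp ψ.injective, ?_, ?_⟩
  · intro x y
    change spectralNorm F _ (ψ (x + y)) ≤ max (spectralNorm F _ (ψ x)) (spectralNorm F _ (ψ y))
    rw [map_add]
    exact isNonarchimedean_spectralNorm _ _
  · intro x
    change spectralNorm F _ (ψ x) = _
    rw [hψ]
    exact spectralNorm_extends _

theorem r11a_Ext : SpExt := by
  intro L _
  refine ⟨fun w => ?_, fun w => ?_⟩
  · obtain ⟨ψ, hψ⟩ := r11a_lift L ℂ w.embedding
    refine ⟨(NormedField.toAbsoluteValue ℂ).comp ψ.injective, fun x => ?_⟩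
    change ‖ψ x‖ = _
    rw [hψ, InfinitePlace.norm_embedding_eq]
  · let _ : NontriviallyNormedField (w.maximalIdeal.adicCompletion L) :=
      Valued.toNontriviallyNormedField _ (WithZero (Multiplicative ℤ))
    obtain ⟨v, h1, h2⟩ := r11a_nonarch L (w.maximalIdeal.adicCompletion L)
      (FinitePlace.embedding w.maximalIdeal)
    exact ⟨v, h1, fun x => (h2 x).trans (FinitePlace.norm_embedding_eq w x)⟩

theorem r11a_hgt_eq {J : Type} [Finite J] (L : IntermediateField ℚ Qb) [NumberField L]
    (y : J → L) : hgt (fun i => (y i : Qb)) = logHeight y / Module.finrank ℚ L := by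
  have hle : IntermediateField.adjoin ℚ (Set.range fun i => (y i : Qb)) ≤ L := by
    rw [IntermediateField.adjoin_le_iff]
    rintro _ ⟨i, rfl⟩
    exact (y i).2
  unfold hgt
  have := numberField_adjoin (Set.finite_range fun i => (y i : Qb))
  set L₀ := IntermediateField.adjoin ℚ (Set.range fun i => (y i : Qb)) with hL₀
  let _ : Algebra L₀ L := (IntermediateField.inclusion hle).toRingHom.toAlgebra
  have : IsScalarTower ℚ L₀ L := IsScalarTower.of_algebraMap_eq fun q => by simp
  have h1 := H66.logHeight_ext (K := L) (fun i => (⟨(y i : Qb),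
    IntermediateField.subset_adjoin ℚ _ ⟨i, rfl⟩⟩ : L₀))
  have h2 : (fun i => algebraMap L₀ L (⟨(y i : Qb),
    IntermediateField.subset_adjoin ℚ _ ⟨i, rfl⟩⟩ : L₀)) = y := by
    ext i; rfl
  rw [h2] at h1
  have h3 := Module.finrank_mul_finrank ℚ L₀ L
  have p0 : 0 < Module.finrank ℚ L := Module.finrank_pos
  have p1 : (Module.finrank L₀ L : ℝ) ≠ 0 := by
    have : Module.finrank L₀ L ≠ 0 := fun h => by rw [h] at h3; omega
    exact_mod_cast this
  have p2 : (Module.finrank ℚ L₀ : ℝ) ≠ 0 := by
    have : Module.finrank ℚ L₀ ≠ 0 := fun h => by rw [h] at h3; omega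
    exact_mod_cast this
  rw [h1, ← h3]
  push_cast
  rw [mul_comm (Module.finrank ℚ L₀ : ℝ), mul_div_mul_left _ _ p1]

theorem r11a_field {s : Set Qb} (hs : s.Finite) :
    ∃ (L : IntermediateField ℚ Qb) (_ : NumberField L), ∀ x ∈ s, x ∈ L :=
  ⟨_, numberField_adjoin hs, fun _ hx => IntermediateField.subset_adjoin ℚ _ hx⟩

theorem r11a_Ht : SpHt := by
  intro J _ x
  refine ⟨?_, fun t ht => ?_, fun m => ?_⟩
  · unfold hgt
    have := numberField_adjoin (Set.finite_range x)
    exact div_nonneg (logHeight_nonneg _) (Nat.cast_nonneg _)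
  · obtain ⟨L, _, hL⟩ := r11a_field ((Set.finite_range x).insert t)
    lift t to L using hL t (by simp)
    lift x to J → L using fun i => hL (x i) (by simp)
    have hc' : t ≠ 0 := fun h => ht (by simp [h])
    have e : ((t : Qb) • fun i => (x i : Qb)) = fun i => ((t • x) i : Qb) := by
      ext i; simp
    rw [e, r11a_hgt_eq, r11a_hgt_eq, logHeight_smul_eq_logHeight _ hc']
  · obtain ⟨L, _, hL⟩ := r11a_field (Set.finite_range x)
    lift x to J → L using fun i => hL (x i) (by simp)
    have e : (fun j => (x j : Qb) ^ m) = fun i => ((x ^ m) i : Qb) := by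
      ext i; simp
    rw [e, r11a_hgt_eq, r11a_hgt_eq, logHeight_pow, mul_div_assoc]

end Pool.Agent.MP_216eb3_nt.GIT
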