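import Pool.Agent.MP_216eb3_nt.GIT.Spec

/-! Elements of a number field with prescribed sizes, by the theorem of Minkowski. -/

set_option autoImplicit false

namespace Pool.Agent.MP_216eb3_nt.GIT

open NumberField IsDedekindDomain Finset Filter
open scoped nonZeroDivisors

variable {L : Type} [Field L] [NumberField L]

/-- the logarithm of the norm of a prime -/
noncomputable def r11b_lN (p : HeightOneSpectrum (𝓞 L)) : ℝ :=
  Real.log (Ideal.absNorm p.asIdeal : ℕ)

theorem r11b_gt (p : HeightOneSpectrum (𝓞 L)) : (1 : ℝ) < (Ideal.absNorm p.asIdeal : ℕ) := by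
  exact_mod_cast NumberField.HeightOneSpectrum.one_lt_absNorm p

theorem r11b_pos (p : HeightOneSpectrum (𝓞 L)) : 0 < r11b_lN p := Real.log_pos (r11b_gt p)

theorem r11b_int (p : HeightOneSpectrum (𝓞 L)) (g : 𝓞 L) : FinitePlace.mk p (g : L) ≤ 1 :=
  FinitePlace.norm_le_one L p g

theorem r11b_val (p : HeightOneSpectrum (𝓞 L)) (j : ℕ) {s : L}
    (h : p.valuation L s ≤ WithZero.exp (-(j : ℤ))) :
    FinitePlace.mk p s ≤ Real.exp (-(j * r11b_lN p)) := by
  have h0 : (0 : ℝ) < (Ideal.absNorm p.asIdeal : ℕ) := zero_lt_one.trans (r11b_gt p)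
  have h1 := (WithZeroMulInt.toNNReal_strictMono
    (HeightOneSpectrum.one_lt_absNorm_nnreal p)).monotone h
  rw [WithZeroMulInt.toNNReal_neg_apply _ (WithZero.exp_ne_zero (a := -(j : ℤ)))] at h1
  rw [FinitePlace.mk_apply, FinitePlace.norm_embedding', Real.exp_neg, Real.exp_nat_mul, r11b_lN,
    Real.exp_log h0]
  have h2 : Multiplicative.toAdd (WithZero.unzero (WithZero.exp_ne_zero (a := -(j : ℤ)))) =
      -(j : ℤ) := rfl
  rw [h2, zpow_neg, zpow_natCast] at h1
  exact_mod_cast h1

/-- all elements of a fractional ideal are bounded at a prime -/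
def r11b_Bd (q : HeightOneSpectrum (𝓞 L)) (I : FractionalIdeal (𝓞 L)⁰ L) (c : ℝ) : Prop :=
  ∀ a ∈ I, FinitePlace.mk q a ≤ Real.exp c

theorem r11b_mul {q : HeightOneSpectrum (𝓞 L)} {I J : FractionalIdeal (𝓞 L)⁰ L} {b c : ℝ}
    (hI : r11b_Bd q I b) (hJ : r11b_Bd q J c) : r11b_Bd q (I * J) (b + c) := fun a ha =>
  FractionalIdeal.mul_induction_on (C := fun a => FinitePlace.mk q a ≤ Real.exp (b + c)) ha
    (fun i hi j hj => by
      rw [map_mul, Real.exp_add]
      exact mul_le_mul (hI i hi) (hJ j hj) (apply_nonneg _ _) (Real.exp_pos _).le)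
    fun x y hx hy => (FinitePlace.add_le _ _ _).trans (max_le hx hy)

theorem r11b_one (q : HeightOneSpectrum (𝓞 L)) : r11b_Bd q 1 0 := fun a ha => by
  obtain ⟨g, rfl⟩ := (FractionalIdeal.mem_one_iff _).1 ha
  rw [Real.exp_zero]
  exact r11b_int q g

theorem r11b_pow {q : HeightOneSpectrum (𝓞 L)} {I : FractionalIdeal (𝓞 L)⁰ L} {b : ℝ}
    (hI : r11b_Bd q I b) (n : ℕ) : r11b_Bd q (I ^ n) (n * b) := by
  induction n with
  | zero => simpa using r11b_one q
  | succ n ih =>
    rw [pow_succ, Nat.cast_succ, add_one_mul]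
    exact r11b_mul ih hI

open scoped Classical in
theorem r11b_self (q p : HeightOneSpectrum (𝓞 L)) :
    r11b_Bd q p.asIdeal (-if q = p then r11b_lN p else 0) := fun a ha => by
  obtain ⟨g, hg, rfl⟩ := (FractionalIdeal.mem_coeIdeal _).1 ha
  split_ifs with h
  · subst h
    simpa using r11b_val q 1 ((q.valuation_of_algebraMap (K := L) g).trans_le
      ((q.intValuation_le_pow_iff_mem g 1).2 (by simpa using hg)))
  · simpa using r11b_int q g

open scoped Classical in
theorem r11b_inv (q p : HeightOneSpectrum (𝓞 L)) :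
    r11b_Bd q (p.asIdeal : FractionalIdeal (𝓞 L)⁰ L)⁻¹ (if q = p then r11b_lN p else 0) :=
  fun a ha => by
  have key : ∀ g ∈ p.asIdeal, FinitePlace.mk q a * FinitePlace.mk q (g : L) ≤ 1 := fun g hg => by
    have := r11b_one q _ ((FractionalIdeal.mem_inv_iff (FractionalIdeal.coeIdeal_ne_zero.2
      p.ne_bot)).1 ha _ (FractionalIdeal.mem_coeIdeal_of_mem _ hg))
    rwa [map_mul, Real.exp_zero] at this
  split_ifs with h
  · subst h
    obtain ⟨g, hg⟩ := q.intValuation_exists_uniformizer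
    have h1 := key g (by simpa using (q.intValuation_le_pow_iff_mem g 1).1 (by simp [hg]))
    have h2 : FinitePlace.mk q (g : L) = (((Ideal.absNorm q.asIdeal : ℕ) : ℝ))⁻¹ := by
      have h3 : q.valuation L (g : L) = WithZero.exp (-1 : ℤ) :=
        (q.valuation_of_algebraMap (K := L) g).trans hg
      rw [FinitePlace.mk_apply, FinitePlace.norm_embedding', h3,
        WithZeroMulInt.toNNReal_neg_apply _ (WithZero.exp_ne_zero (a := (-1 : ℤ)))]
      have h4 : Multiplicative.toAdd (WithZero.unzero (WithZero.exp_ne_zero (a := (-1 : ℤ)))) =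
        (-1 : ℤ) := rfl
      rw [h4, zpow_neg_one]
      simp
    have h0 := zero_lt_one.trans (r11b_gt q)
    rw [h2, mul_inv_le_iff₀ h0, one_mul] at h1
    exact h1.trans_eq (Real.exp_log h0).symm
  · obtain ⟨g, hg, hq⟩ : ∃ g ∈ p.asIdeal, g ∉ q.asIdeal := by
      by_contra c
      push Not at c
      exact h (HeightOneSpectrum.ext (p.isMaximal.eq_of_le q.isPrime.ne_top c)).symm
    have h1 := key g hg
    rw [show FinitePlace.mk q (g : L) = 1 from (FinitePlace.norm_eq_one_iff_notMem L q g).2 hq,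
      mul_one] at h1
    simpa using h1

open scoped Classical in
theorem r11b_prod (q : HeightOneSpectrum (𝓞 L)) (S : Finset (HeightOneSpectrum (𝓞 L)))
    (m : HeightOneSpectrum (𝓞 L) → ℤ) :
    r11b_Bd q (∏ p ∈ S, (p.asIdeal : FractionalIdeal (𝓞 L)⁰ L) ^ m p)
      (-((if q ∈ S then (m q : ℝ) else 0) * r11b_lN q)) := by
  have h1 : ∀ p, r11b_Bd q ((p.asIdeal : FractionalIdeal (𝓞 L)⁰ L) ^ m p)
      (-(m p * if q = p then r11b_lN p else 0)) := fun p => by
    obtain ⟨n, h | h⟩ := (m p).eq_nat_or_neg <;> rw [h]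
    · simpa using r11b_pow (r11b_self q p) n
    · rw [zpow_neg, zpow_natCast, ← inv_pow, Int.cast_neg, neg_mul, neg_neg, Int.cast_natCast]
      exact r11b_pow (r11b_inv q p) n
  have h2 : r11b_Bd q (∏ p ∈ S, (p.asIdeal : FractionalIdeal (𝓞 L)⁰ L) ^ m p)
      (∑ p ∈ S, -(m p * if q = p then r11b_lN p else 0)) := by
    induction S using Finset.induction_on with
    | empty => simpa using r11b_one q
    | insert a s ha ih =>
      rw [prod_insert ha, sum_insert ha]
      exact r11b_mul (h1 a) ih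
  simpa using h2

open scoped Classical in
/-- the theorem of Minkowski with conditions at all places -/
theorem r11b_mink (S : Finset (HeightOneSpectrum (𝓞 L))) (m : HeightOneSpectrum (𝓞 L) → ℤ)
    (f : InfinitePlace L → ℝ)
    (h : ∑ p ∈ S, m p * r11b_lN p + Module.finrank ℚ L * Real.log 2 +
      Real.log |(discr L : ℝ)| / 2 < ∑ w, w.mult * f w) :
    ∃ a : L, a ≠ 0 ∧ (∀ q : HeightOneSpectrum (𝓞 L), Real.log (FinitePlace.mk q a) ≤
      -((if q ∈ S then (m q : ℝ) else 0) * r11b_lN q)) ∧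
      ∀ w : InfinitePlace L, Real.log (w a) ≤ f w := by
  have I0 : ∏ p ∈ S, (p.asIdeal : FractionalIdeal (𝓞 L)⁰ L) ^ m p ≠ 0 :=
    prod_ne_zero_iff.2 fun p _ => zpow_ne_zero _ (FractionalIdeal.coeIdeal_ne_zero.2 p.ne_bot)
  have D0 : (0 : ℝ) < |(discr L : ℝ)| := abs_pos.2 (Int.cast_ne_zero.2 (discr_ne_zero L))
  obtain ⟨a, ha, a0, hw⟩ := mixedEmbedding.exists_ne_zero_mem_ideal_lt L (Units.mk0 _ I0)
    (f := fun w => ⟨Real.exp (f w), (Real.exp_pos _).le⟩) (by
      have n1 : ((FractionalIdeal.absNorm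
          (∏ p ∈ S, (p.asIdeal : FractionalIdeal (𝓞 L)⁰ L) ^ m p) : ℚ) : ℝ) =
          Real.exp (∑ p ∈ S, m p * r11b_lN p) := by
        rw [map_prod, Real.exp_sum, Rat.cast_prod]
        refine prod_congr rfl fun p _ => ?_
        rw [map_zpow₀, FractionalIdeal.coeIdeal_absNorm, Rat.cast_zpow, Rat.cast_natCast,
          mul_comm, Real.exp_mul, Real.rpow_intCast, r11b_lN,
          Real.exp_log (zero_lt_one.trans (r11b_gt p))]
      rw [mixedEmbedding.minkowskiBound,
        mixedEmbedding.volume_fundamentalDomain_fractionalIdealLatticeBasis,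
        mixedEmbedding.volume_fundamentalDomain_latticeBasis, mixedEmbedding.finrank,
        mixedEmbedding.convexBodyLT_volume, Units.val_mk0, n1]
      calc _ ≤ ENNReal.ofReal (Real.exp (∑ p ∈ S, m p * r11b_lN p)) *
            (1 * ENNReal.ofReal (Real.exp (Real.log |(discr L : ℝ)| / 2))) *
            ENNReal.ofReal (Real.exp (Module.finrank ℚ L * Real.log 2)) := by
            gcongr
            · exact pow_le_one₀ (by positivity) (by simp)
            · rw [← ENNReal.ofReal_coe_nnreal, Real.coe_sqrt, coe_nnnorm, Int.norm_eq_abs,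
                ← Real.log_sqrt D0.le, Real.exp_log (Real.sqrt_pos.2 D0)]
            · rw [Real.exp_nat_mul, Real.exp_log two_pos, ENNReal.ofReal_pow zero_le_two,
                ENNReal.ofReal_ofNat]
        _ < ENNReal.ofReal (Real.exp (∑ w, w.mult * f w)) := by
            rw [one_mul, ← ENNReal.ofReal_mul (Real.exp_pos _).le,
              ← ENNReal.ofReal_mul (by positivity), ENNReal.ofReal_lt_ofReal_iff (Real.exp_pos _),
              ← Real.exp_add, ← Real.exp_add, Real.exp_lt_exp]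
            linarith
        _ ≤ _ := by
            refine le_trans (le_of_eq ?_) (le_mul_of_one_le_left (zero_le)
              (by exact_mod_cast mixedEmbedding.one_le_convexBodyLTFactor L))
            rw [← ENNReal.ofReal_coe_nnreal, Real.exp_sum]
            congr 1
            push_cast
            exact prod_congr rfl fun w _ => Real.exp_nat_mul _ _)
  exact ⟨a, a0, fun q => (Real.log_le_iff_le_exp (FinitePlace.pos_iff.2 a0)).2
    (r11b_prod q S m a ha), fun w => (Real.log_le_iff_le_exp (InfinitePlace.pos_iff.2 a0)).2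
    (hw w).le⟩

theorem r11b_MK : SpMK := by
  classical
  intro L _ _ y₁ y₂ hfin hsum
  have hf : {w : FinitePlace L | ¬ y₂ w = 0}.Finite := eventually_cofinite.1 hfin
  let S : Finset (HeightOneSpectrum (𝓞 L)) := hf.toFinset.image FinitePlace.maximalIdeal
  have hS : ∑ᶠ w, y₂ w = ∑ p ∈ S, y₂ (FinitePlace.mk p) := by
    rw [sum_image fun a _ b _ h => FinitePlace.maximalIdeal_injective h]
    simp only [FinitePlace.mk_maximalIdeal]
    exact finsum_eq_sum_of_support_subset _ fun w hw => by simpa using hw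
  obtain ⟨C, hC⟩ : ∃ C : ℝ, C = ∑ p ∈ S, r11b_lN p + Module.finrank ℚ L * Real.log 2 +
    Real.log |(discr L : ℝ)| / 2 := ⟨_, rfl⟩
  refine ⟨|C| + 1, fun m => ?_⟩
  have n1 : (1 : ℝ) ≤ Module.finrank ℚ L := by exact_mod_cast Module.finrank_pos
  obtain ⟨a, a0, h1, h2⟩ := r11b_mink S
    (fun p => ⌈-(m * y₂ (FinitePlace.mk p)) / r11b_lN p⌉) (fun w => m * y₁ w + (|C| + 1)) (by
      have e1 : ∑ p ∈ S, (⌈-(m * y₂ (FinitePlace.mk p)) / r11b_lN p⌉ : ℝ) * r11b_lN p ≤
          ∑ p ∈ S, (-(m * y₂ (FinitePlace.mk p)) + r11b_lN p) := sum_le_sum fun p _ => by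
        have := mul_le_mul_of_nonneg_right
          (Int.ceil_lt_add_one (-(m * y₂ (FinitePlace.mk p)) / r11b_lN p)).le (r11b_pos p).le
        rwa [add_mul, div_mul_cancel₀ _ (r11b_pos p).ne', one_mul] at this
      rw [sum_add_distrib, sum_neg_distrib, ← mul_sum, ← hS] at e1
      have e2 : ∑ w : InfinitePlace L, (w.mult : ℝ) * (m * y₁ w + (|C| + 1)) =
          m * ∑ w : InfinitePlace L, (w.mult : ℝ) * y₁ w + Module.finrank ℚ L * (|C| + 1) := by
        rw [← InfinitePlace.sum_mult_eq, mul_sum, Nat.cast_sum, sum_mul, ← sum_add_distrib]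
        exact sum_congr rfl fun w _ => by ring
      have e3 : ∑ w : InfinitePlace L, (w.mult : ℝ) * y₁ w = -∑ᶠ w, y₂ w := by linarith
      rw [e2, e3]
      have e4 := mul_le_mul_of_nonneg_right n1 (show 0 ≤ |C| + 1 by positivity)
      linarith [le_abs_self C])
  refine ⟨a, a0, h2, fun w => ?_⟩
  have h3 := h1 w.maximalIdeal
  rw [FinitePlace.mk_maximalIdeal] at h3
  refine h3.trans ?_
  split_ifs with hw
  · have := mul_le_mul_of_nonneg_right
      (Int.le_ceil (-(m * y₂ w) / r11b_lN w.maximalIdeal)) (r11b_pos w.maximalIdeal).le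
    rw [div_mul_cancel₀ _ (r11b_pos _).ne'] at this
    linarith
  · have : y₂ w = 0 := by
      by_contra h0
      exact hw (mem_image_of_mem _ (hf.mem_toFinset.2 h0))
    simp [this]

end Pool.Agent.MP_216eb3_nt.GIT
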