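import Pool.Agent.MP_216eb3_nt.GIT.Spec
import Pool.Agent.MP_216eb3_nt.H66.Local

set_option autoImplicit false

namespace Pool.Agent.MP_216eb3_nt.GIT

open Finset Filter NumberField Height

theorem r11c_hgt_eq {J : Type} [Finite J] (L : IntermediateField ℚ Qb) [NumberField L]
    (y : J → L) : hgt (fun i => (y i : Qb)) = logHeight y / Module.finrank ℚ L := by
  have hle : IntermediateField.adjoin ℚ (Set.range fun i => (y i : Qb)) ≤ L := by
    rw [IntermediateField.adjoin_le_iff]
    rintro _ ⟨i, rfl⟩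
    exact (y i).2
  unfold hgt
  have := numberField_adjoin (Set.finite_range fun i => (y i : Qb))
  set L₀ := IntermediateField.adjoin ℚ (Set.range fun i => (y i : Qb)) with hL₀
  let _ : Algebra L₀ L := (IntermediateField.inclusion hle).toRingHom.toAlgebra
  have : IsScalarTower ℚ L₀ L := IsScalarTower.of_algebraMap_eq fun q => by simp
  have h1 := H66.logHeight_ext (K := L) (fun i => (⟨(y i : Qb),
    IntermediateField.subset_adjoin ℚ _ ⟨i, rfl⟩⟩ : L₀))
  have h2 : (fun i => algebraMap L₀ L (⟨(y i : Qb),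
    IntermediateField.subset_adjoin ℚ _ ⟨i, rfl⟩⟩ : L₀)) = y := by
    ext i; rfl
  rw [h2] at h1
  have h3 := Module.finrank_mul_finrank ℚ L₀ L
  have p0 : 0 < Module.finrank ℚ L := Module.finrank_pos
  have p1 : (Module.finrank L₀ L : ℝ) ≠ 0 := by
    have : Module.finrank L₀ L ≠ 0 := fun h => by rw [h] at h3; omega
    exact_mod_cast this
  have p2 : (Module.finrank ℚ L₀ : ℝ) ≠ 0 := by
    have : Module.finrank ℚ L₀ ≠ 0 := fun h => by rw [h] at h3; omega
    exact_mod_cast this
  rw [h1, ← h3]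
  push_cast
  rw [mul_comm (Module.finrank ℚ L₀ : ℝ), mul_div_mul_left _ _ p1]

theorem r11c_finsum {α β : Type} [Fintype α] (f : α ⊕ β → ℝ)
    (hf : ∀ᶠ b in cofinite, f (Sum.inr b) = 0) :
    ∑ᶠ i, f i = ∑ a, f (Sum.inl a) + ∑ᶠ b, f (Sum.inr b) := by
  classical
  have hfin : (Function.support fun b => f (Sum.inr b)).Finite := Filter.eventually_cofinite.1 hf
  have h1 : Function.support f ⊆ ((univ : Finset α).disjSum hfin.toFinset : Finset (α ⊕ β)) := by
    rintro (a | b) h
    · simp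
    · simpa using h
  rw [finsum_eq_sum_of_support_subset f h1, Finset.sum_disjSum,
    finsum_eq_sum_of_support_subset (fun b => f (Sum.inr b)) (s := hfin.toFinset) (by simp)]

theorem r11c_cof {α β : Type} [Finite α] (p : α ⊕ β → Prop)
    (h : ∀ᶠ b in cofinite, p (Sum.inr b)) : ∀ᶠ i in cofinite, p i := by
  rw [Filter.eventually_cofinite] at h ⊢
  refine ((Set.finite_range (Sum.inl : α → α ⊕ β)).union (h.image Sum.inr)).subset ?_
  rintro (a | b) hb
  · exact Or.inl ⟨a, rfl⟩
  · exact Or.inr ⟨b, hb, rfl⟩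

theorem r11c_cof' {α β : Type} (p : α ⊕ β → Prop)
    (h : ∀ᶠ i in cofinite, p i) : ∀ᶠ b in cofinite, p (Sum.inr b) :=
  Sum.inr_injective.tendsto_cofinite.eventually h

theorem r11c_le_nrm {J : Type} [Finite J] (v : AV) (x : J → Qb) (j : J) : v (x j) ≤ nrm v x :=
  le_ciSup (f := fun i => v (x i)) (Set.finite_range _).bddAbove j

theorem r11c_sup_one {L : Type} [Field L] [NumberField L] {J : Type} [Finite J] (y : J → L)
    (hy : y ≠ 0) : ∀ᶠ w : FinitePlace L in cofinite, ⨆ j, w (y j) = 1 := by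
  obtain ⟨j₀, hj₀⟩ := Function.ne_iff.1 hy
  have : Nonempty J := ⟨j₀⟩
  have h1 : ∀ j, ∀ᶠ w : FinitePlace L in cofinite, y j ≠ 0 → w (y j) = 1 := fun j => by
    by_cases h : y j = 0
    · simp [h]
    · have := FinitePlace.hasFiniteMulSupport h
      filter_upwards [Filter.eventually_cofinite.2 this] with w hw _ using hw
  filter_upwards [Filter.eventually_all.2 h1] with w hw
  refine le_antisymm (ciSup_le fun j => ?_) ?_
  · by_cases h : y j = 0
    · simp [h]
    · exact (hw j h).le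
  · rw [← hw j₀ hj₀]
    exact le_ciSup (f := fun j => w (y j)) (Set.finite_range _).bddAbove j₀

theorem r11c_fpos {α : Type} (f : α → ℝ) (h : ∀ a, 0 < f a) : 0 < ∏ᶠ a, f a :=
  finprod_induction (fun x => 0 < x) one_pos (fun _ _ => mul_pos) h

theorem r11c_logHeight {L : Type} [Field L] [NumberField L] {J : Type} [Finite J] (y : J → L)
    (hy : y ≠ 0) : logHeight y = ∑ w : InfinitePlace L, (w.mult : ℝ) * Real.log (⨆ j, w (y j)) +
      ∑ᶠ w : FinitePlace L, Real.log (⨆ j, w (y j)) := by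
  obtain ⟨j₀, hj₀⟩ := Function.ne_iff.1 hy
  have p1 : ∀ w : InfinitePlace L, 0 < ⨆ j, w (y j) := fun w =>
    lt_of_lt_of_le (InfinitePlace.pos_iff.2 hj₀)
      (le_ciSup (f := fun j => w (y j)) (Set.finite_range _).bddAbove j₀)
  have p2 : ∀ w : FinitePlace L, 0 < ⨆ j, w (y j) := fun w =>
    lt_of_lt_of_le (FinitePlace.pos_iff.2 hj₀)
      (le_ciSup (f := fun j => w (y j)) (Set.finite_range _).bddAbove j₀)
  rw [logHeight_eq_log_mulHeight, NumberField.mulHeight_eq hy,
    Real.log_mul (Finset.prod_pos fun w _ => pow_pos (p1 w) _).ne' (r11c_fpos _ p2).ne',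
    Real.log_prod fun w _ => (pow_pos (p1 w) _).ne', Real.log_finprod p2]
  simp only [Real.log_pow]

theorem r11c_pf {L : Type} [Field L] [NumberField L] (x : L) (hx : x ≠ 0) :
    ∑ w : InfinitePlace L, (w.mult : ℝ) * Real.log (w x) +
      ∑ᶠ w : FinitePlace L, Real.log (w x) = 0 := by
  have p1 : ∀ w : InfinitePlace L, 0 < w x := fun w => InfinitePlace.pos_iff.2 hx
  have p2 : ∀ w : FinitePlace L, 0 < w x := fun w => FinitePlace.pos_iff.2 hx
  have h := congrArg Real.log (prod_abs_eq_one hx)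
  rw [Real.log_mul (Finset.prod_pos fun w _ => pow_pos (p1 w) _).ne' (r11c_fpos _ p2).ne',
    Real.log_prod fun w _ => (pow_pos (p1 w) _).ne', Real.log_finprod p2, Real.log_one] at h
  simpa only [Real.log_pow] using h

/-- the weights of the places -/
noncomputable def r11c_w (L : Type) [Field L] [NumberField L] :
    InfinitePlace L ⊕ FinitePlace L → ℝ :=
  Sum.elim (fun w => (w.mult : ℝ) / Module.finrank ℚ L) (fun _ => 1 / Module.finrank ℚ L)

theorem r11c_wsum {L : Type} [Field L] [NumberField L] (f : InfinitePlace L ⊕ FinitePlace L → ℝ)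
    (hf : ∀ᶠ b in cofinite, f (Sum.inr b) = 0) :
    ∑ᶠ i, r11c_w L i * f i = (∑ w : InfinitePlace L, (w.mult : ℝ) * f (Sum.inl w) +
      ∑ᶠ w : FinitePlace L, f (Sum.inr w)) / Module.finrank ℚ L := by
  rw [r11c_finsum _ (by filter_upwards [hf] with b hb; simp [hb]), add_div, Finset.sum_div]
  congr 1
  · refine Finset.sum_congr rfl fun w _ => ?_
    simp only [r11c_w, Sum.elim_inl]
    ring
  · simp only [r11c_w, Sum.elim_inr]
    rw [← mul_finsum]
    ring

/-- the tuple `(1, 2, Γ)` -/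
noncomputable def r11c_T (Γ : Finset Qb) : Fin 2 ⊕ Γ → Qb := Sum.elim ![1, 2] Subtype.val

theorem r11c_PS (hE : SpExt) (hM : SpMK) : SpPS := by
  classical
  intro Γ
  refine ⟨hgt (r11c_T Γ), fun X => ?_⟩
  have hfin : ((X : Set Qb) ∪ Γ).Finite := X.finite_toSet.union Γ.finite_toSet
  set L := IntermediateField.adjoin ℚ ((X : Set Qb) ∪ Γ) with hL
  have : NumberField L := numberField_adjoin hfin
  obtain ⟨h1, h2⟩ := hE L
  choose v₁ hv₁ using h1
  choose v₂ hn₂ hv₂ using h2
  let v : InfinitePlace L ⊕ FinitePlace L → AV := Sum.elim v₁ v₂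
  have hD : (0 : ℝ) < Module.finrank ℚ L := by
    have p0 : 0 < Module.finrank ℚ L := Module.finrank_pos
    exact_mod_cast p0
  have hT : ∀ j, r11c_T Γ j ∈ L := by
    rintro (j | j)
    · fin_cases j
      · exact L.one_mem
      · exact ofNat_mem L 2
    · exact IntermediateField.subset_adjoin ℚ _ (Or.inr j.2)
  have hT0 : r11c_T Γ ≠ 0 := Function.ne_iff.2 ⟨Sum.inl 0, by simp [r11c_T]⟩
  have hone : ∀ (J : Type) [Finite J] (x : J → Qb), (∀ j, x j ∈ L) → x ≠ 0 →
      ∀ᶠ w in cofinite, nrm (v₂ w) x = 1 := by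
    intro J _ x hx hx0
    lift x to J → L using hx
    have hy : x ≠ 0 := fun h => hx0 (by ext j; simp [h])
    filter_upwards [r11c_sup_one x hy] with w hw
    simpa only [nrm, hv₂] using hw
  have hht : ∀ (J : Type) [Finite J] (x : J → Qb), (∀ j, x j ∈ L) → x ≠ 0 →
      hgt x = ∑ᶠ i, r11c_w L i * Real.log (nrm (v i) x) := by
    intro J _ x hx hx0
    rw [r11c_wsum _ (by filter_upwards [hone J x hx hx0] with w hw; simp [v, hw])]
    lift x to J → L using hx
    have hy : x ≠ 0 := fun h => hx0 (by ext j; simp [h])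
    rw [r11c_hgt_eq, r11c_logHeight x hy]
    simp only [v, Sum.elim_inl, Sum.elim_inr, nrm, hv₁, hv₂]
  have hA1 : ∀ u : AV, 1 ≤ nrm u (r11c_T Γ) := fun u => by
    simpa [r11c_T] using r11c_le_nrm u (r11c_T Γ) (Sum.inl 0)
  have harch : ∀ w, ∀ n : ℕ, v₁ w n = n := fun w n => by
    have := hv₁ w n
    rw [InfinitePlace.map_natCast] at this
    simpa using this
  refine ⟨{
    ι := InfinitePlace L ⊕ FinitePlace L
    L := L.toSubfield
    v := v
    w := r11c_w L
    A := fun i => nrm (v i) (r11c_T Γ)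
    S := univ.map ⟨Sum.inl, Sum.inl_injective⟩
    mem := fun x hx => IntermediateField.subset_adjoin ℚ _ (Or.inl hx)
    wpos := ?_
    adm := fun i => ⟨hA1 _, ?_, fun γ hγ => r11c_le_nrm (v i) (r11c_T Γ) (Sum.inr ⟨γ, hγ⟩)⟩
    afs := r11c_cof _ (hone _ _ hT hT0)
    asum := (hht _ _ hT hT0).ge
    fs := ?_
    pf := ?_
    ht := hht
    mink := ?_
    sumS := ?_
    arch := ?_
    non := ?_ }⟩
  · rintro (w | w)
    · have : (0 : ℝ) < w.mult := by exact_mod_cast InfinitePlace.mult_pos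
      exact div_pos this hD
    · exact div_pos one_pos hD
  · intro x y
    have hm : 0 ≤ max (v i x) (v i y) := le_max_of_le_left ((v i).nonneg x)
    rcases i with w | w
    · have h2 : (2 : ℝ) ≤ nrm (v₁ w) (r11c_T Γ) := by
        have a1 := r11c_le_nrm (v₁ w) (r11c_T Γ) (Sum.inl 1)
        have a2 := harch w 2
        simp only [Nat.cast_ofNat] at a2
        simpa [r11c_T, a2] using a1
      have a3 := (v₁ w).add_le x y
      have a4 := le_max_left (v₁ w x) (v₁ w y)
      have a5 := le_max_right (v₁ w x) (v₁ w y)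
      have a6 := mul_le_mul_of_nonneg_right h2 hm
      simp only [v, Sum.elim_inl] at a6 ⊢
      linarith
    · exact (hn₂ w x y).trans (le_mul_of_one_le_left hm (hA1 _))
  · intro x hx hx0
    refine r11c_cof _ ?_
    have hx' : (⟨x, hx⟩ : L) ≠ 0 := fun h => hx0 (congrArg Subtype.val h)
    filter_upwards [Filter.eventually_cofinite.2 (FinitePlace.hasFiniteMulSupport hx')] with w hw
    exact (hv₂ w ⟨x, hx⟩).trans hw
  · intro x hx hx0
    have hx' : (⟨x, hx⟩ : L) ≠ 0 := fun h => hx0 (congrArg Subtype.val h)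
    have e1 : ∀ w, v₁ w x = w (⟨x, hx⟩ : L) := fun w => hv₁ w ⟨x, hx⟩
    have e2 : ∀ w, v₂ w x = w (⟨x, hx⟩ : L) := fun w => hv₂ w ⟨x, hx⟩
    rw [r11c_wsum]
    · simp only [v, Sum.elim_inl, Sum.elim_inr, e1, e2]
      rw [r11c_pf _ hx', zero_div]
    · filter_upwards [Filter.eventually_cofinite.2 (FinitePlace.hasFiniteMulSupport hx')] with w hw
      simp only [v, Sum.elim_inr, e2]
      rw [hw, Real.log_one]
  · intro y hy hs
    have hy2 := r11c_cof' _ hy
    rw [r11c_wsum _ hy2, div_eq_zero_iff, or_iff_left hD.ne'] at hs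
    obtain ⟨E, hE'⟩ := hM L (fun w => y (Sum.inl w)) (fun w => y (Sum.inr w)) hy2 hs
    refine ⟨Sum.elim (fun _ => E) (fun _ => 0), r11c_cof _ (by simp), fun m => ?_⟩
    obtain ⟨u, hu0, hu1, hu2⟩ := hE' m
    refine ⟨u, u.2, fun h => hu0 (Subtype.val_injective h), ?_⟩
    rintro (w | w)
    · simpa only [v, Sum.elim_inl, hv₁] using hu1 w
    · simpa only [v, Sum.elim_inr, hv₂, add_zero] using hu2 w
  · rw [Finset.sum_map]
    simp only [Function.Embedding.coeFn_mk, r11c_w, Sum.elim_inl]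
    rw [← Finset.sum_div, ← Nat.cast_sum, InfinitePlace.sum_mult_eq, div_self hD.ne']
  · intro i hi n
    obtain ⟨w, -, rfl⟩ := Finset.mem_map.1 hi
    exact harch w n
  · rintro (w | w) hi n
    · exact absurd (Finset.mem_map.2 ⟨w, Finset.mem_univ _, rfl⟩) hi
    · exact (hn₂ w).apply_natCast_le_one

end Pool.Agent.MP_216eb3_nt.GIT
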