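import Pool.Agent.MP_216eb3_nt.GIT.Basic

set_option autoImplicit false

namespace Pool.Agent.MP_216eb3_nt.GIT

open Polynomial Finset Filter

theorem r13_root (hF : SpFac) {n : ℕ} (hn : 1 ≤ n) {P : Qb[X]} (hP : P.natDegree ≤ n) :
    ∃ z : V2, z ≠ 0 ∧ hev n P z = 0 := by
  rcases eq_or_ne P 0 with rfl | h0
  · exact ⟨_, o_ne_zero, hev_zero _ _⟩
  · obtain ⟨q, hq, e⟩ := hF.1 n P hn h0 hP
    refine ⟨q ⟨0, hn⟩, hq _, ?_⟩
    rw [e, hev_prod_lin]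
    exact prod_eq_zero (mem_univ ⟨0, hn⟩) (dt_self _)

theorem r13_Fp_ne (hF : SpFac) {n : ℕ} (hn : 1 ≤ n) {c : Cf (n + 1) → Qb} (hc : IsRat c) :
    Fp c ≠ 0 := by
  intro h
  have hA : pol c 0 = X * pol c 1 := sub_eq_zero.1 h
  have hB : (pol c 1).natDegree ≤ n := by
    rw [natDegree_le_iff_coeff_eq_zero]
    intro i hi
    rw [← coeff_X_mul, ← hA, pol_coeff, dif_neg (by omega)]
  obtain ⟨z, hz, e⟩ := r13_root hF hn hB
  refine hc z hz ?_
  have h1 := hev_mul hB (show (1 : Qb[X]).natDegree ≤ 1 by simp) z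
  have h2 := hev_mul hB (show (X : Qb[X]).natDegree ≤ 1 by simp) z
  rw [mul_one, e, zero_mul, hev_pol] at h1
  rw [mul_comm (pol c 1), ← hA, e, zero_mul, hev_pol] at h2
  funext r
  fin_cases r
  · exact h2
  · exact h1

theorem r13_Bp_ne (hF : SpFac) {n : ℕ} {c : Cf (n + 1) → Qb} (hc : IsRat c) {q : V2}
    (hq : q ≠ 0) : Bp c q ≠ 0 := by
  intro h
  have hd : ∀ z, dt (ev c z) q = 0 := fun z => by rw [← hev_Bp, h, hev_zero]
  by_cases h0 : q 0 = 0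
  · have h1 : q 1 ≠ 0 := fun h1 => hq (by ext i; fin_cases i <;> simp [h0, h1])
    obtain ⟨z, hz, e⟩ := r13_root hF (Nat.le_add_left 1 n) (natDegree_pol c 1)
    rw [hev_pol] at e
    have := hd z
    rw [dt, e, zero_mul, sub_zero] at this
    refine hc z hz ?_
    funext r
    fin_cases r
    · exact (mul_eq_zero.1 this).resolve_right h1
    · exact e
  · obtain ⟨z, hz, e⟩ := r13_root hF (Nat.le_add_left 1 n) (natDegree_pol c 0)
    rw [hev_pol] at e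
    have := hd z
    rw [dt, e, zero_mul, zero_sub, neg_eq_zero] at this
    refine hc z hz ?_
    funext r
    fin_cases r
    · exact e
    · exact (mul_eq_zero.1 this).resolve_right h0

theorem r13_lin_ne {q : V2} (hq : q ≠ 0) : lin q ≠ 0 := by
  intro h
  have h0 := lin_coeff_zero q
  have h1 := lin_coeff_one q
  rw [h, coeff_zero] at h0 h1
  refine hq ?_
  funext r
  fin_cases r
  · exact neg_eq_zero.1 h0.symm
  · exact h1.symm

theorem r13_exists_dt {q : V2} (hq : q ≠ 0) : ∃ r : V2, dt r q = 1 := by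
  by_cases h0 : q 0 = 0
  · have h1 : q 1 ≠ 0 := fun h1 => hq (by ext i; fin_cases i <;> simp [h0, h1])
    exact ⟨![(q 1)⁻¹, 0], by simp [dt, h1]⟩
  · exact ⟨![0, -(q 0)⁻¹], by simp [dt, h0]⟩

theorem r13_Fp_eq {d : ℕ} (c : Cf d → Qb) {r q : V2} (h : dt r q = 1) :
    Fp c = lin q * Bp c r - lin r * Bp c q := by
  have e : (C (r 0) * C (q 1) - C (r 1) * C (q 0) : Qb[X]) = 1 := by
    rw [← C_mul, ← C_mul, ← C_sub, ← C_1]
    exact congrArg C h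
  unfold Fp Bp lin
  linear_combination (X * pol c 1 - pol c 0) * e

/-- a critical fixed point is a simple fixed point -/
theorem r13_simple {n : ℕ} {c : Cf (n + 1) → Qb} (hc : IsRat c) {q₀ : V2} (hq : q₀ ≠ 0)
    {p : Fin (n + 1) → V2} {p' : Fin n → V2} (h1 : Fp c = lin q₀ * ∏ s, lin (p s))
    (h2 : Bp c q₀ = lin q₀ * ∏ s, lin (p' s)) {t : Fin n} (ht : dt (p' t) q₀ = 0)
    (s : Fin (n + 1)) : dt (p s) q₀ ≠ 0 := by
  intro hs
  obtain ⟨r, hr⟩ := r13_exists_dt hq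
  have e := r13_Fp_eq c hr
  have e' : ∏ s, lin (p s) = Bp c r - lin r * ∏ s, lin (p' s) := by
    apply mul_left_cancel₀ (r13_lin_ne hq)
    rw [← h1, e, h2]
    ring
  have e2 := congrArg (fun P => hev (n + 1) P q₀) e'
  simp only [hev_sub, hev_prod_lin, hev_lin_mul, hev_Bp] at e2
  rw [prod_eq_zero (mem_univ s) (by rw [dt_comm, hs, neg_zero]),
    prod_eq_zero (mem_univ t) (by rw [dt_comm, ht, neg_zero]), mul_zero, sub_zero] at e2
  have e3 : dt (ev c q₀) q₀ = 0 := by rw [← hev_Bp, h2, hev_lin_mul, dt_self, zero_mul]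
  obtain ⟨u, hu⟩ := exists_smul_of_dt hq e3
  rw [hu, dt_smul_left, dt_comm, hr] at e2
  have : u = 0 := by linear_combination e2
  exact hc q₀ hq (by rw [hu, this, zero_smul])

section sums
variable {Γ X : Finset Qb} {K : ℝ} {P : PSys Γ X K} {d : ℕ} {c : Cf d → Qb}

theorem r13_sum (D : LD P c) (hc : IsRat c) (hL : ∀ j, c j ∈ P.L) {κ : Type} [Fintype κ]
    (p : κ → V2) (hp : ∀ s j, p s j ∈ P.L) (h0 : ∀ s, p s ≠ 0) (m : ℕ)
    (h : ∀ i, ∏ s, nrm (P.v i) ((D.a i).mulVec (p s)) ≤ P.A i ^ m * nrm (P.v i) (D.cc i)) :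
    ∑ s, D.eta (p s) ≤ D.H + m * K := by
  have hf : ∀ s ∈ (univ : Finset κ),
      FS fun i => Real.log (nrm (P.v i) ((D.a i).mulVec (p s))) :=
    fun s _ => D.fs_eta (hp s) (h0 s)
  have hH := D.fs_H hL hc.ne_zero
  have key := PSys.sm_le (P := P) (FS.sum univ hf) (hH.add (P.fs_A.const_mul m)) fun i => by
    have hN : 0 < nrm (P.v i) (D.cc i) := nrm_pos _ (D.rat hc i).ne_zero
    rw [← Real.log_prod fun s _ => (D.nu_pos i (h0 s)).ne', ← Real.log_pow,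
      ← Real.log_mul hN.ne' (pow_pos (P.adm i).pos m).ne', mul_comm]
    exact Real.log_le_log (prod_pos fun s _ => D.nu_pos i (h0 s)) (h i)
  rw [PSys.sm_sum univ hf, PSys.sm_add hH (P.fs_A.const_mul m), PSys.sm_const_mul] at key
  have := mul_le_mul_of_nonneg_left P.sm_A (Nat.cast_nonneg (α := ℝ) m)
  simp only [LD.eta_eq, LD.H_eq]
  linarith

theorem r13_dt_mem {L : Subfield Qb} {p q : V2} (hp : ∀ j, p j ∈ L) (hq : ∀ j, q j ∈ L) :
    dt p q ∈ L := L.sub_mem (L.mul_mem (hp 0) (hq 1)) (L.mul_mem (hp 1) (hq 0))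

theorem r13_pair (D : LD P c) {p q : V2} (hp : ∀ j, p j ∈ P.L) (hq : ∀ j, q j ∈ P.L)
    (h0 : dt p q ≠ 0)
    (h : ∀ i, P.v i (dt p q) ≤
      P.A i * (nrm (P.v i) ((D.a i).mulVec p) * nrm (P.v i) ((D.a i).mulVec q))) :
    0 ≤ K + D.eta p + D.eta q := by
  have hp0 : p ≠ 0 := fun e => h0 (by simp [e, dt])
  have hq0 : q ≠ 0 := fun e => h0 (by simp [e, dt])
  have hm := r13_dt_mem hp hq
  have key := PSys.sm_le (P := P) (P.fs_log hm)
    (P.fs_A.add ((D.fs_eta hp hp0).add (D.fs_eta hq hq0))) fun i => by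
    rw [← Real.log_mul (D.nu_pos i hp0).ne' (D.nu_pos i hq0).ne',
      ← Real.log_mul (P.adm i).pos.ne' (mul_pos (D.nu_pos i hp0) (D.nu_pos i hq0)).ne']
    exact Real.log_le_log ((P.v i).pos h0) (h i)
  rw [P.sm_log hm h0, PSys.sm_add P.fs_A ((D.fs_eta hp hp0).add (D.fs_eta hq hq0)),
    PSys.sm_add (D.fs_eta hp hp0) (D.fs_eta hq hq0)] at key
  have := P.sm_A
  simp only [LD.eta_eq]
  linarith

end sums

theorem r13_min {k : ℕ} (hk : 1 ≤ k) (f : Fin k → ℝ) : ∃ s, (k : ℝ) * f s ≤ ∑ t, f t := by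
  obtain ⟨s, -, hs⟩ := exists_min_image univ f ⟨⟨0, hk⟩, mem_univ _⟩
  refine ⟨s, ?_⟩
  have := card_nsmul_le_sum univ f (f s) hs
  simpa using this

theorem r13_Key1 (hF : SpFac) (hL : SpLoc) : SpKey1 := by
  classical
  intro n hn
  obtain ⟨m, hm⟩ := hL n
  refine ⟨m + 1 + n, fun c hc => ?_⟩
  obtain ⟨q, hq0, hq⟩ := hF.1 (n + 2) (Fp c) (by omega) (r13_Fp_ne hF hn hc) (natDegree_Fp c)
  have hB : ∀ s, ∃ rr : Fin n → V2, (∀ t, rr t ≠ 0) ∧
      Bp c (q s) = lin (q s) * ∏ t, lin (rr t) := fun s => by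
    refine hF.2 n _ (q s) hn (r13_Bp_ne hF hc (hq0 s)) (natDegree_Bp c _) (hq0 s) ?_
    rw [hev_Bp, ← hev_Fp, hq, hev_prod_lin]
    exact prod_eq_zero (mem_univ s) (dt_self _)
  choose rr hrr0 hrr using hB
  refine ⟨(univ.image fun x : Fin (n + 2) × Fin 2 => q x.1 x.2) ∪
    (univ.image fun x : Fin (n + 2) × Fin n × Fin 2 => rr x.1 x.2.1 x.2.2), ?_⟩
  intro Γ X K P D hcL hY
  have hqL : ∀ s j, q s j ∈ P.L := fun s j =>
    hY _ (mem_union_left _ (mem_image.2 ⟨(s, j), mem_univ _, rfl⟩))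
  have hrL : ∀ s t j, rr s t j ∈ P.L := fun s t j =>
    hY _ (mem_union_right _ (mem_image.2 ⟨(s, t, j), mem_univ _, rfl⟩))
  have hK := P.K_nonneg
  have hl := fun i => hm (P.v i) (P.A i) (D.a i) (D.cc i) c (P.adm i).empty (D.det i) (D.conj i)
  obtain ⟨s₀, hs₀⟩ := r13_min (k := n + 2) (by omega) fun s => D.eta (q s)
  have hFp : Fp c = lin (q s₀) * ∏ s, lin (q (s₀.succAbove s)) := by
    rw [hq, Fin.prod_univ_succAbove _ s₀]
  have S1 : ∑ s, D.eta (q s) ≤ D.H + m * K := r13_sum D hc hcL q hqL hq0 m fun i => by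
    rw [Fin.prod_univ_succAbove _ s₀]
    exact (hl i).2.1 _ _ hFp
  have S2 : ∑ t, D.eta (rr s₀ t) ≤ D.H + m * K :=
    r13_sum D hc hcL (rr s₀) (hrL s₀) (hrr0 s₀) m fun i => (hl i).2.2 _ _ (hq0 s₀) (hrr s₀)
  have hnK : (0 : ℝ) ≤ n * K := mul_nonneg (Nat.cast_nonneg n) hK
  obtain ⟨r₀, hr₀L, hr₀, hη⟩ : ∃ r₀ : V2, (∀ j, r₀ j ∈ P.L) ∧ dt r₀ (q s₀) ≠ 0 ∧
      n * D.eta r₀ ≤ D.H + m * K + K := by
    by_cases h : ∃ t, dt (rr s₀ t) (q s₀) = 0
    · obtain ⟨t, ht⟩ := h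
      obtain ⟨s, hs⟩ := r13_min (k := n + 1) (by omega) fun s => D.eta (q (s₀.succAbove s))
      have hd := r13_simple hc (hq0 s₀) hFp (hrr s₀) ht s
      refine ⟨_, hqL _, hd, ?_⟩
      have h3 := r13_pair D (hqL _) (hqL s₀) hd fun i => (hl i).1 _ _
      rw [Fin.sum_univ_succAbove _ s₀] at S1
      push_cast at hs
      linarith
    · obtain ⟨t, ht⟩ := r13_min hn fun t => D.eta (rr s₀ t)
      exact ⟨_, hrL s₀ t, fun e => h ⟨t, e⟩, by linarith⟩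
  have hr0 : r₀ ≠ 0 := fun e => hr₀ (by simp [e, dt])
  have hdm := P.L.inv_mem (r13_dt_mem hr₀L (hqL s₀))
  have h3 := r13_pair D hr₀L (hqL s₀) hr₀ fun i => (hl i).1 _ _
  refine ⟨q s₀, (dt r₀ (q s₀))⁻¹ • r₀, fun s => q (s₀.succAbove s), rr s₀,
    ⟨hqL s₀, fun j => P.L.mul_mem hdm (hr₀L j), fun s => hqL _, hrL s₀, fun s => hq0 _, hrr0 s₀,
      by rw [dt_smul_left, inv_mul_cancel₀ hr₀], hFp, hrr s₀⟩, ?_, ?_⟩
  · push_cast at hs₀ ⊢
    rcases le_total 0 (D.eta (q s₀)) with h | h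
    · nlinarith
    · have a1 := mul_nonpos_of_nonneg_of_nonpos (Nat.cast_nonneg (α := ℝ) n) h
      have a2 := mul_nonneg (Nat.cast_nonneg (α := ℝ) n) (show 0 ≤ K + D.eta r₀ by linarith)
      nlinarith
  · rw [D.eta_smul hr₀L hr0 hdm (inv_ne_zero hr₀)]
    push_cast
    linarith

end Pool.Agent.MP_216eb3_nt.GIT
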