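import Pool.Agent.MP_216eb3_nt.GIT.Basic

set_option autoImplicit false

namespace Pool.Agent.MP_216eb3_nt.GIT

open Polynomial Finset Filter

theorem r14_mem_mul (L : Subfield Qb) {P Q : Qb[X]} (hP : ∀ i, P.coeff i ∈ L)
    (hQ : ∀ i, Q.coeff i ∈ L) (i : ℕ) : (P * Q).coeff i ∈ L := by
  rw [coeff_mul]
  exact L.sum_mem fun x _ => L.mul_mem (hP _) (hQ _)

theorem r14_mem_prod (L : Subfield Qb) {ι : Type} (s : Finset ι) (α β : ι → Qb)
    (h : ∀ a, α a ∈ L ∧ β a ∈ L) (i : ℕ) : (∏ a ∈ s, (C (α a) * X + C (β a))).coeff i ∈ L := by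
  classical
  induction s using Finset.induction_on generalizing i with
  | empty =>
    rw [prod_empty, coeff_one]
    split_ifs
    · exact L.one_mem
    · exact L.zero_mem
  | insert a s ha ih =>
    rw [prod_insert ha]
    refine r14_mem_mul L (fun j => ?_) ih i
    rw [coeff_add, coeff_C_mul, coeff_X, coeff_C]
    refine L.add_mem (L.mul_mem (h a).1 ?_) ?_
    · split_ifs
      · exact L.one_mem
      · exact L.zero_mem
    · split_ifs
      · exact (h a).2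
      · exact L.zero_mem

theorem r14_dt_mem (L : Subfield Qb) {p q : V2} (hp : ∀ j, p j ∈ L) (hq : ∀ j, q j ∈ L) :
    dt p q ∈ L := L.sub_mem (L.mul_mem (hp 0) (hq 1)) (L.mul_mem (hp 1) (hq 0))

/-- the product of the linear forms in the new coordinates -/
noncomputable def r14_P {k : ℕ} (q₀ r : V2) (p : Fin k → V2) : Qb[X] :=
  ∏ s, (C (dt r (p s)) * X + C (dt q₀ (p s)))

theorem r14_deg {k : ℕ} (q₀ r : V2) (p : Fin k → V2) : (r14_P q₀ r p).natDegree ≤ k :=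
  (natDegree_prod_le _ _).trans
    ((sum_le_card_nsmul _ _ 1 fun s _ => by compute_degree).trans (by simp))

theorem r14_id {k : ℕ} {q₀ r : V2} (h1 : dt r q₀ = 1) (p : Fin k → V2) {Q : Qb[X]}
    (hQ : Q.natDegree ≤ k + 1)
    (h : ∀ z, hev (k + 1) Q z = hev (k + 1) (lin q₀ * ∏ s, lin (p s))
      ((!![r 0, q₀ 0; r 1, q₀ 1] : M2).mulVec z)) : Q = X * r14_P q₀ r p := by
  refine Polynomial.funext fun x => ?_
  rw [← hev_one hQ, h, hev_lin_mul, eval_mul, eval_X, r14_P, eval_prod]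
  have e : ∀ q : V2, dt ((!![r 0, q₀ 0; r 1, q₀ 1] : M2).mulVec ![x, 1]) q =
      dt r q * x + dt q₀ q := fun q => by
    simp [dt, Matrix.mulVec, dotProduct, Fin.sum_univ_two]
    ring
  simp only [e, h1, dt_self, eval_add, eval_mul, eval_C, eval_X]
  ring

/-- the normal form with the fixed point at the origin -/
theorem r14_form (hC : SpConj) {n : ℕ} {L : Subfield Qb} {c : Cf (n + 1) → Qb} {q₀ r : V2}
    {p : Fin (n + 1) → V2} {p' : Fin n → V2} (h : Fr L c q₀ r p p') :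
    ∃ (g : M2) (c₁ : Cf (n + 1) → Qb), g.det = 1 ∧ Conj g c c₁ ∧
      pol c₁ 0 = X * r14_P q₀ r p' ∧ pol c₁ 1 = r14_P q₀ r p' - r14_P q₀ r p := by
  have hd : (!![r 0, q₀ 0; r 1, q₀ 1] : M2).det = 1 := by
    rw [Matrix.det_fin_two_of, ← h.one, dt]; ring
  obtain ⟨m, hm⟩ := hC (n + 1)
  obtain ⟨c₁, h1, -⟩ := hm _ c hd
  have eo : (!![r 0, q₀ 0; r 1, q₀ 1] : M2).mulVec ![0, 1] = q₀ := by
    funext j; fin_cases j <;> simp [Matrix.mulVec, dotProduct, Fin.sum_univ_two]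
  have e0 : pol c₁ 0 = X * r14_P q₀ r p' := by
    refine r14_id h.one p' (natDegree_pol _ _) fun z => ?_
    have := h1.Bp hd ![0, 1] z
    rw [eo, h.hB] at this
    rw [← this]
    simp [Bp]
  have e1 : Fp c₁ = X * r14_P q₀ r p := by
    refine r14_id h.one p (natDegree_Fp _) fun z => ?_
    rw [h1.Fp hd, h.hF]
  refine ⟨_, c₁, hd, h1, e0, mul_left_cancel₀ (X_ne_zero (R := Qb)) ?_⟩
  rw [mul_sub, ← e0, ← e1, Fp]
  ring

theorem r14_bd {k m : ℕ} {v : AV} {A : ℝ} (hA : Adm ∅ v A) (ν : V2 → ℝ) (hν : ∀ q, 0 ≤ ν q)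
    (hdt : ∀ p q : V2, v (dt p q) ≤ A * (ν p * ν q))
    (hG : ∀ (ι : Type) (s : Finset ι) (α β : ι → Qb) (μ : ι → ℝ) (x y : ℝ), s.card ≤ k → 0 ≤ x →
      0 ≤ y → (∀ a ∈ s, 0 ≤ μ a ∧ v (α a) ≤ μ a * x ∧ v (β a) ≤ μ a * y) → ∀ i, i ≤ s.card →
      v ((∏ a ∈ s, (C (α a) * X + C (β a))).coeff i) ≤
        A ^ m * (∏ a ∈ s, μ a) * x ^ i * y ^ (s.card - i))
    {l : ℕ} (hl : l ≤ k) (q₀ r : V2) (p : Fin l → V2) (i : ℕ) (hi : i ≤ l) :
    v ((r14_P q₀ r p).coeff i) ≤ A ^ (m + k) * (∏ s, ν (p s)) * ν r ^ i * ν q₀ ^ (l - i) := by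
  have := hG (Fin l) univ (fun s => dt r (p s)) (fun s => dt q₀ (p s)) (fun s => A * ν (p s))
    (ν r) (ν q₀) (by simpa using hl) (hν _) (hν _) (fun s _ => ⟨mul_nonneg hA.pos.le (hν _),
      (hdt _ _).trans (le_of_eq (by ring)), (hdt _ _).trans (le_of_eq (by ring))⟩) i
      (by simpa using hi)
  rw [prod_mul_distrib, prod_const, card_univ, Fintype.card_fin] at this
  refine this.trans ?_
  have h1 : 0 ≤ ∏ s, ν (p s) := prod_nonneg fun s _ => hν _
  have h2 := hA.pow_le hl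
  have h3 := hν r
  have h4 := hν q₀
  have h5 := hA.pos
  rw [pow_add, mul_assoc (A ^ m) (A ^ k)]
  gcongr

/-- local bounds for the coefficients of the normal form -/
theorem r14_loc (hG : SpGauss) (hL : SpLoc) (n : ℕ) : ∃ M : ℕ, ∀ (v : AV) (A : ℝ) (a : M2)
    (cc c : Cf (n + 1) → Qb) (L : Subfield Qb) (q₀ r : V2) (p : Fin (n + 1) → V2)
    (p' : Fin n → V2), Adm ∅ v A → a.det = 1 → Conj a cc c → Fr L c q₀ r p p' →
    (∀ j, j ≤ n → v ((r14_P q₀ r p').coeff j) ≤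
      A ^ M * nrm v cc * nrm v (a.mulVec r) ^ j * nrm v (a.mulVec q₀) ^ (n - j)) ∧
    (∀ j, j ≤ n → v ((r14_P q₀ r p' - r14_P q₀ r p).coeff j) ≤
      A ^ M * nrm v cc * nrm v (a.mulVec r) ^ j * nrm v (a.mulVec q₀) ^ (n - j)) ∧
    v ((r14_P q₀ r p' - r14_P q₀ r p).coeff (n + 1)) * nrm v (a.mulVec q₀) ≤
      A ^ M * nrm v cc * nrm v (a.mulVec r) ^ (n + 1) := by
  obtain ⟨m₁, h₁⟩ := hG (n + 1)
  obtain ⟨m₂, h₂⟩ := hL n
  refine ⟨m₁ + (n + 1) + m₂ + 1, fun v A a cc c L q₀ r p p' hA ha hc hF => ?_⟩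
  obtain ⟨k1, k2, k3⟩ := h₂ v A a cc c hA ha hc
  have hq0 : q₀ ≠ 0 := fun e => by
    have := hF.one
    simp [e, dt] at this
  have k2' := k2 q₀ p hF.hF
  have k3' := k3 q₀ p' hq0 hF.hB
  have b := fun {l : ℕ} (hl : l ≤ n + 1) (p : Fin l → V2) (i : ℕ) (hi : i ≤ l) =>
    r14_bd hA (fun q => nrm v (a.mulVec q)) (fun _ => nrm_nonneg _ _) k1 (h₁ v A hA).2 hl q₀ r p i hi
  have n1 : 0 < nrm v (a.mulVec q₀) :=
    nrm_pos _ (mulVec_ne_zero (by rw [ha]; exact one_ne_zero) hq0)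
  have n2 : 0 ≤ nrm v (a.mulVec r) := nrm_nonneg _ _
  have n3 : 0 ≤ nrm v cc := nrm_nonneg _ _
  have h5 := hA.pos
  have h6 := hA.one
  set ν₁ := nrm v (a.mulVec q₀)
  set ν₂ := nrm v (a.mulVec r)
  set N := nrm v cc
  set W := A ^ (m₁ + (n + 1) + m₂) * N with hW
  have hW0 : 0 ≤ W := by positivity
  have e : A ^ (m₁ + (n + 1) + m₂ + 1) * N = A * W := by rw [hW]; ring
  have a1 : ∀ j, j ≤ n → v ((r14_P q₀ r p').coeff j) ≤ W * ν₂ ^ j * ν₁ ^ (n - j) := fun j hj => by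
    refine (b (by omega) p' j hj).trans ?_
    rw [hW, pow_add _ _ m₂, mul_assoc (A ^ (m₁ + (n + 1))) (A ^ m₂)]
    gcongr
  have a2 : ∀ j, j ≤ n + 1 → v ((r14_P q₀ r p).coeff j) * ν₁ ≤ W * ν₂ ^ j * ν₁ ^ (n + 1 - j) :=
    fun j hj => by
      calc _ ≤ A ^ (m₁ + (n + 1)) * (∏ s, nrm v (a.mulVec (p s))) * ν₂ ^ j * ν₁ ^ (n + 1 - j) * ν₁ :=
            mul_le_mul_of_nonneg_right (b le_rfl p j hj) n1.le
        _ = A ^ (m₁ + (n + 1)) * (ν₁ * ∏ s, nrm v (a.mulVec (p s))) * ν₂ ^ j * ν₁ ^ (n + 1 - j) := by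
            ring
        _ ≤ _ := by
            rw [hW, pow_add _ _ m₂, mul_assoc (A ^ (m₁ + (n + 1))) (A ^ m₂)]
            gcongr
  rw [e]
  refine ⟨fun j hj => (a1 j hj).trans ?_, fun j hj => ?_, ?_⟩
  · gcongr
    exact le_mul_of_one_le_left hW0 h6
  · have a3 : v ((r14_P q₀ r p).coeff j) ≤ W * ν₂ ^ j * ν₁ ^ (n - j) := by
      refine le_of_mul_le_mul_right ((a2 j (by omega)).trans (le_of_eq ?_)) n1
      rw [show n + 1 - j = n - j + 1 by omega]
      ring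
    rw [coeff_sub]
    exact (hA.sub_le (a1 j hj) a3).trans (le_of_eq (by ring))
  · rw [coeff_sub, coeff_eq_zero_of_natDegree_lt (Nat.lt_succ_of_le (r14_deg q₀ r p')), zero_sub,
      v.map_neg]
    refine (a2 (n + 1) le_rfl).trans ?_
    rw [Nat.sub_self, pow_zero, mul_one]
    gcongr
    exact le_mul_of_one_le_left hW0 h6

/-- distribution of the shift over the places -/
theorem r14_shift {Γ X : Finset Qb} {K : ℝ} (P : PSys Γ X K) (σ : ℝ) (b : Prop) (D : P.ι → ℝ)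
    (hD : FS D) (h0 : b → ∀ i, 0 ≤ D i) (h1 : b → 0 ≤ σ → σ ≤ P.sm D) :
    ∃ s : P.ι → ℝ, FS s ∧ P.sm s = σ ∧ (σ ≤ 0 → ∀ i, s i ≤ 0) ∧ (0 ≤ σ → ∀ i, 0 ≤ s i) ∧
      (b → ∀ i, s i ≤ D i) := by
  classical
  by_cases h : b ∧ 0 < σ
  · have h2 := h1 h.1 h.2.le
    have h3 : 0 < P.sm D := lt_of_lt_of_le h.2 h2
    refine ⟨fun i => σ / P.sm D * D i, hD.const_mul _, ?_, fun e => absurd h.2 (not_lt.2 e),
      fun _ i => mul_nonneg (div_nonneg h.2.le h3.le) (h0 h.1 i), fun _ i => ?_⟩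
    · rw [PSys.sm_const_mul, div_mul_cancel₀ _ h3.ne']
    · exact mul_le_of_le_one_left (h0 h.1 i) ((div_le_one h3).2 h2)
  · obtain ⟨i₀⟩ := P.nonempty
    have hw := P.wpos i₀
    have n1 : σ ≤ 0 → ∀ i, (Pi.single i₀ (σ / P.w i₀) : P.ι → ℝ) i ≤ 0 := fun e i => by
      rcases eq_or_ne i i₀ with rfl | hi
      · rw [Pi.single_eq_same]; exact div_nonpos_of_nonpos_of_nonneg e hw.le
      · simp [hi]
    refine ⟨Pi.single i₀ (σ / P.w i₀), FS.single _ _, ?_, n1, fun e i => ?_, fun hb i => ?_⟩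
    · rw [PSys.sm_single, mul_div_cancel₀ _ hw.ne']
    · rcases eq_or_ne i i₀ with rfl | hi
      · rw [Pi.single_eq_same]; exact div_nonneg e hw.le
      · simp [hi]
    · exact (n1 (not_lt.1 fun e => h ⟨hb, e⟩) i).trans (h0 hb i)

/-- scaling by an algebraic number with prescribed sizes -/
theorem r14_scale (hH : SpHt) {Γ X : Finset Qb} {K : ℝ} (P : PSys Γ X K) {J : Type} [Fintype J]
    (x : J → Qb) (hx : ∀ j, x j ∈ P.L) (h0 : x ≠ 0) (e : J → ℕ) (y l : P.ι → ℝ) (hy : FS y)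
    (hl : FS l) (hs : P.sm y = 0)
    (h : ∀ i j, x j ≠ 0 → Real.log (P.v i (x j)) + e j * y i ≤ l i) :
    ∃ t : Qb, t ≠ 0 ∧ hgt (fun j => x j * t ^ e j) ≤ P.sm l + 1 := by
  obtain ⟨E, hE, hu⟩ := P.mink y hy hs
  have hE' : FS fun i => max (E i) 0 := FS.max hE (Eventually.of_forall fun _ => rfl)
  set k : ℝ := ∑ j, (e j : ℝ) with hk
  obtain ⟨m, hm⟩ := exists_nat_ge (k * P.sm fun i => max (E i) 0)
  obtain ⟨u, uL, u0, hu⟩ := hu (m + 1)
  obtain ⟨t, ht⟩ := IsAlgClosed.exists_pow_nat_eq u (Nat.succ_pos m)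
  have t0 : t ≠ 0 := fun e => u0 (by rw [← ht, e, zero_pow (Nat.succ_ne_zero m)])
  refine ⟨t, t0, ?_⟩
  have h1 := (hH J (fun j => x j * t ^ e j)).2.2 (m + 1)
  have h2 : (fun j => (x j * t ^ e j) ^ (m + 1)) = fun j => x j ^ (m + 1) * u ^ e j := by
    funext j
    rw [mul_pow, ← ht, ← pow_mul, ← pow_mul, mul_comm (e j)]
  obtain ⟨j₀, hj₀⟩ := Function.ne_iff.1 h0
  have : Nonempty J := ⟨j₀⟩
  have zL : ∀ j, x j ^ (m + 1) * u ^ e j ∈ P.L := fun j =>
    P.L.mul_mem (P.L.pow_mem (hx j) _) (P.L.pow_mem uL _)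
  have z0 : (fun j => x j ^ (m + 1) * u ^ e j) ≠ 0 :=
    Function.ne_iff.2 ⟨j₀, mul_ne_zero (pow_ne_zero _ hj₀) (pow_ne_zero _ u0)⟩
  rw [h2, P.hgt_eq zL z0] at h1
  have h3 := PSys.sm_le (P.fs_nrm zL z0)
    ((hl.const_mul ((m + 1 : ℕ) : ℝ)).add (hE'.const_mul k)) fun i => by
      obtain ⟨j, hj⟩ := exists_nrm (P.v i) (fun j => x j ^ (m + 1) * u ^ e j)
      have hp := nrm_pos (P.v i) z0
      rw [← hj] at hp ⊢
      have xj : x j ≠ 0 := fun e => by simp [e] at hp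
      rw [map_mul, map_pow, map_pow, Real.log_mul (pow_pos ((P.v i).pos xj) _).ne'
        (pow_pos ((P.v i).pos u0) _).ne', Real.log_pow, Real.log_pow]
      have a1 := mul_le_mul_of_nonneg_left (h i j xj) (Nat.cast_nonneg (α := ℝ) (m + 1))
      have a2 := mul_le_mul_of_nonneg_left ((hu i).trans (add_le_add_right (le_max_left (E i) 0) _))
        (Nat.cast_nonneg (α := ℝ) (e j))
      have a3 : (e j : ℝ) ≤ k := single_le_sum (f := fun j => (e j : ℝ))
        (fun _ _ => Nat.cast_nonneg _) (mem_univ j)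
      have a4 := mul_le_mul_of_nonneg_right a3 (le_max_right (E i) 0)
      linarith
  rw [PSys.sm_add (hl.const_mul _) (hE'.const_mul k), PSys.sm_const_mul, PSys.sm_const_mul,
    h1] at h3
  have hp : (0 : ℝ) < ((m + 1 : ℕ) : ℝ) := by positivity
  refine le_of_mul_le_mul_left (h3.trans ?_) hp
  push_cast
  linarith

theorem r14_log {x W a b : ℝ} {i j : ℕ} (hx : 0 < x) (hW : 0 < W) (ha : 0 < a) (hb : 0 < b)
    (h : x ≤ W * a ^ i * b ^ j) : Real.log x ≤ Real.log W + i * Real.log a + j * Real.log b := by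
  rw [← Real.log_pow, ← Real.log_pow, ← Real.log_mul hW.ne' (by positivity),
    ← Real.log_mul (by positivity) (by positivity)]
  exact Real.log_le_log hx h

theorem r14_Key2 (hG : SpGauss) (hL : SpLoc) (hC : SpConj) (hH : SpHt) : SpKey2 := by
  intro n _
  obtain ⟨M, hM⟩ := r14_loc hG hL n
  refine ⟨M, fun c Γ Y K P D q₀ r p p' hc cL hF => ?_⟩
  obtain ⟨g, c₁, hg, h1, e0, e1⟩ := r14_form hC hF
  have hg0 : g.det ≠ 0 := by rw [hg]; exact one_ne_zero
  have hc₁ := hc.conj hg0 h1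
  have hq0 : q₀ ≠ 0 := fun e => by
    have := hF.one
    simp [e, dt] at this
  have hr0 : r ≠ 0 := fun e => by
    have := hF.one
    simp [e, dt] at this
  have pL : ∀ {l : ℕ} (p : Fin l → V2), (∀ s j, p s j ∈ P.L) → ∀ i, (r14_P q₀ r p).coeff i ∈ P.L :=
    fun p hp i => r14_mem_prod _ _ _ _
      (fun s => ⟨r14_dt_mem _ hF.mr (hp s), r14_dt_mem _ hF.m0 (hp s)⟩) i
  have ca : ∀ i : Fin (n + 2), c₁ (0, i) = (X * r14_P q₀ r p').coeff i := fun i => by
    rw [← e0, pol_coeff_fin]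
  have cb : ∀ i : Fin (n + 2), c₁ (1, i) = (r14_P q₀ r p' - r14_P q₀ r p).coeff i := fun i => by
    rw [← e1, pol_coeff_fin]
  have bL : ∀ i, (r14_P q₀ r p' - r14_P q₀ r p).coeff i ∈ P.L := fun i => by
    rw [coeff_sub]
    exact P.L.sub_mem (pL p' hF.mp' i) (pL p hF.mp i)
  have c₁L : ∀ x, c₁ x ∈ P.L := by
    rintro ⟨ρ, i⟩
    fin_cases ρ
    · show c₁ (0, i) ∈ P.L
      rw [ca]
      rcases (i : ℕ) with _ | j
      · simp
      · rw [coeff_X_mul]; exact pL p' hF.mp' j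
    · show c₁ (1, i) ∈ P.L
      rw [cb]; exact bL i
  have b0 : (r14_P q₀ r p' - r14_P q₀ r p).coeff 0 ≠ 0 := by
    have := hc₁.at_o (by rw [ca]; simp)
    rwa [cb] at this
  have loc := fun i => hM (P.v i) (P.A i) (D.a i) (D.cc i) c P.L q₀ r p p' (P.adm i).empty (D.det i)
    (D.conj i) hF
  have n1 := fun i => D.nu_pos i hq0
  have n2 := fun i => D.nu_pos i hr0
  have n3 : ∀ i, 0 < nrm (P.v i) (D.cc i) := fun i => nrm_pos _ (D.rat hc i).ne_zero
  have n4 : ∀ i, 0 < P.A i ^ M * nrm (P.v i) (D.cc i) := fun i =>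
    mul_pos (pow_pos (P.adm i).pos _) (n3 i)
  have fα := D.fs_eta hF.m0 hq0
  have fβ := D.fs_eta hF.mr hr0
  have sα := (D.eta_eq q₀).symm
  have sβ := (D.eta_eq r).symm
  set α : P.ι → ℝ := fun i => Real.log (nrm (P.v i) ((D.a i).mulVec q₀)) with hα
  set β : P.ι → ℝ := fun i => Real.log (nrm (P.v i) ((D.a i).mulVec r)) with hβ
  set lw : P.ι → ℝ := fun i => Real.log (P.A i ^ M * nrm (P.v i) (D.cc i)) with hlw
  have elw : lw = fun i => M * Real.log (P.A i) + Real.log (nrm (P.v i) (D.cc i)) := by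
    funext i
    rw [hlw]
    simp only
    rw [Real.log_mul (pow_pos (P.adm i).pos _).ne' (n3 i).ne', Real.log_pow]
  have fl : FS lw := by
    rw [elw]; exact (P.fs_A.const_mul _).add (D.fs_H cL hc.ne_zero)
  have sl : P.sm lw ≤ D.H + M * K := by
    rw [elw, PSys.sm_add (P.fs_A.const_mul _) (D.fs_H cL hc.ne_zero), PSys.sm_const_mul, ← D.H_eq]
    have := mul_le_mul_of_nonneg_left P.sm_A (Nat.cast_nonneg (α := ℝ) M)
    linarith
  have s0 : 0 ≤ P.sm lw + n * D.eta q₀ := by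
    have := PSys.sm_le (P.fs_log (bL 0)) (fl.add (fα.const_mul n)) fun i => by
      have := r14_log ((P.v i).pos b0) (n4 i) (n2 i) (n1 i) ((loc i).2.1 0 (Nat.zero_le _))
      rwa [Nat.cast_zero, zero_mul, add_zero, Nat.sub_zero] at this
    rwa [P.sm_log (bL 0) b0, PSys.sm_add fl (fα.const_mul _), PSys.sm_const_mul, sα] at this
  set b := (r14_P q₀ r p' - r14_P q₀ r p).coeff (n + 1) with hb
  have fD : FS fun i => lw i + (n + 1 : ℝ) * β i - α i - Real.log (P.v i b) :=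
    ((fl.add (fβ.const_mul _)).sub fα).sub (P.fs_log (bL _))
  obtain ⟨s, fs, ss, sn, sp, sD⟩ := r14_shift P (D.eta r - D.eta q₀) (b ≠ 0) _ fD
    (fun hb0 i => by
      have := r14_log (i := n + 1) (j := 0) (mul_pos ((P.v i).pos hb0) (n1 i)) (n4 i) (n2 i) one_pos
        ((loc i).2.2.trans (le_of_eq (by rw [pow_zero, mul_one])))
      rw [Real.log_mul ((P.v i).pos hb0).ne' (n1 i).ne'] at this
      simp only [hα, hβ, hlw]
      push_cast at this
      linarith)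
    (fun hb0 hσ => by
      rw [PSys.sm_sub ((fl.add (fβ.const_mul _)).sub fα) (P.fs_log (bL _)),
        PSys.sm_sub (fl.add (fβ.const_mul _)) fα, PSys.sm_add fl (fβ.const_mul _),
        PSys.sm_const_mul, P.sm_log (bL _) hb0, sα, sβ]
      have := mul_nonneg (Nat.cast_nonneg (α := ℝ) n) hσ
      linarith)
  have fy : FS fun i => β i - s i - α i := (fβ.sub fs).sub fα
  have sy : P.sm (fun i => β i - s i - α i) = 0 := by
    rw [PSys.sm_sub (fβ.sub fs) fα, PSys.sm_sub fβ fs, ss, sα, sβ]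
    ring
  have fm : FS fun i => max (β i - s i) (β i) := (fβ.sub fs).max fβ
  have sm : P.sm (fun i => max (β i - s i) (β i)) ≤ max (D.eta q₀) (D.eta r) := by
    rcases le_total (D.eta r - D.eta q₀) 0 with h | h
    · have : (fun i => max (β i - s i) (β i)) = fun i => β i - s i :=
        funext fun i => max_eq_left (by linarith [sn h i])
      rw [this, PSys.sm_sub fβ fs, ss, sβ]
      linarith [le_max_left (D.eta q₀) (D.eta r)]
    · have : (fun i => max (β i - s i) (β i)) = β :=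
        funext fun i => max_eq_right (by linarith [sp h i])
      rw [this, sβ]
      exact le_max_right _ _
  have key : ∀ i (x : ℝ) (j : ℕ), j ≤ n → x ≤ lw i + j * β i + ((n - j : ℕ) : ℝ) * α i →
      x + ((n + 1 - j : ℕ) : ℝ) * (β i - s i - α i) ≤
        lw i + n * max (β i - s i) (β i) + (β i - s i - α i) := fun i x j hj hx => by
    obtain ⟨k, rfl⟩ := Nat.exists_eq_add_of_le hj
    rw [show j + k - j = k by omega] at hx
    rw [show j + k + 1 - j = k + 1 by omega]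
    have a1 := mul_le_mul_of_nonneg_left (le_max_left (β i - s i) (β i)) (Nat.cast_nonneg (α := ℝ) k)
    have a2 := mul_le_mul_of_nonneg_left (le_max_right (β i - s i) (β i)) (Nat.cast_nonneg (α := ℝ) j)
    push_cast
    linarith
  obtain ⟨t, t0, ht⟩ := r14_scale hH P c₁ c₁L hc₁.ne_zero
    (fun x => if x.1 = 0 then n + 2 - (x.2 : ℕ) else n + 1 - (x.2 : ℕ)) _
    (fun i => lw i + n * max (β i - s i) (β i) + (β i - s i - α i)) fy
    ((fl.add (fm.const_mul _)).add fy) sy (by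
      rintro i ⟨ρ, j⟩ hx
      fin_cases ρ
      · change c₁ (0, j) ≠ 0 at hx
        change Real.log (P.v i (c₁ (0, j))) + ((n + 2 - (j : ℕ) : ℕ) : ℝ) * _ ≤ _
        rw [ca] at hx ⊢
        have hj := j.2
        generalize (j : ℕ) = j at hx hj ⊢
        rcases j with _ | j
        · simp at hx
        · rw [coeff_X_mul] at hx ⊢
          rw [show n + 2 - (j + 1) = n + 1 - j by omega]
          exact key i _ j (by omega)
            (r14_log ((P.v i).pos hx) (n4 i) (n2 i) (n1 i) ((loc i).1 j (by omega)))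
      · change c₁ (1, j) ≠ 0 at hx
        change Real.log (P.v i (c₁ (1, j))) + ((n + 1 - (j : ℕ) : ℕ) : ℝ) * _ ≤ _
        rw [cb] at hx ⊢
        have hj := j.2
        generalize (j : ℕ) = j at hx hj ⊢
        by_cases e : j = n + 1
        · subst e
          have a1 := sD hx i
          have a2 := mul_le_mul_of_nonneg_left (le_max_right (β i - s i) (β i))
            (Nat.cast_nonneg (α := ℝ) n)
          rw [Nat.sub_self, ← hb]
          push_cast
          linarith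
        · exact key i _ j (by omega)
            (r14_log ((P.v i).pos hx) (n4 i) (n2 i) (n1 i) ((loc i).2.1 j (by omega))))
  have h2 := conj_diag c₁ one_ne_zero t0
  refine ⟨_, _, ?_, h1.mul h2, ?_⟩
  · rw [Matrix.det_mul, hg, Matrix.det_fin_two_of]
    simpa using t0
  · rw [← (hH _ _).2.1 t t0]
    rw [PSys.sm_add (fl.add (fm.const_mul _)) fy, PSys.sm_add fl (fm.const_mul _),
      PSys.sm_const_mul, sy] at ht
    have a1 := mul_le_mul_of_nonneg_left sm (Nat.cast_nonneg (α := ℝ) n)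
    refine le_trans (le_of_eq ?_) (ht.trans (by linarith))
    congr 1
    funext ⟨ρ, j⟩
    have hj := j.2
    fin_cases ρ
    · simp only [Pi.smul_apply, smul_eq_mul]
      rw [if_pos (by rfl), show n + 2 - (j : ℕ) = n + 1 - j + 1 by omega]
      simp
      ring
    · simp only [Pi.smul_apply, smul_eq_mul]
      rw [if_neg (by decide)]
      simp
      field_simp

end Pool.Agent.MP_216eb3_nt.GIT
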