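import Pool.Agent.MP_216eb3_nt.GIT.Basic

set_option autoImplicit false

namespace Pool.Agent.MP_216eb3_nt.GIT

open Finset Filter

theorem r15_loc (hP : SpPB) {d M k : ℕ} (I : Fin M → MvPolynomial (Cf d) Qb)
    (hI : ∀ j, (I j).IsHomogeneous k) : ∃ (Γ : Finset Qb) (m : ℕ), ∀ (v : AV) (A : ℝ)
      (c : Cf d → Qb), Adm Γ v A →
      nrm v (fun j => MvPolynomial.eval c (I j)) ≤ A ^ m * nrm v c ^ k := by
  classical
  choose Γ m h using fun j => hP (Cf d) (I j)
  refine ⟨univ.biUnion Γ, ∑ j, m j, fun v A c hA => ?_⟩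
  have h0 := nrm_nonneg v c
  have h1 := hA.pos
  refine nrm_le v (by positivity) fun j => ?_
  refine ((h j v A c (hA.mono (subset_biUnion_of_mem Γ (mem_univ j)))).2 k (hI j)).trans ?_
  exact mul_le_mul_of_nonneg_right
    (hA.pow_le (single_le_sum (f := m) (fun _ _ => Nat.zero_le _) (mem_univ j))) (by positivity)

theorem r15_hgt_zero (hH : SpHt) {J : Type} [Finite J] : hgt (0 : J → Qb) = 0 := by
  have := (hH J 0).2.2 2
  have e : (fun j => (0 : J → Qb) j ^ 2) = 0 := by ext j; simp
  rw [e] at this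
  push_cast at this
  linarith

theorem r15_glob (hH : SpHt) {Γ X : Finset Qb} {K : ℝ} (P : PSys Γ X K) {J : Type} [Finite J]
    (y : J → Qb) (hy : ∀ j, y j ∈ P.L) (m k : ℕ) (hk : 0 < k) (φ : P.ι → ℝ) (hφ : FS φ)
    (h0 : 0 ≤ P.sm φ) (h : ∀ i, nrm (P.v i) y ≤ P.A i ^ m * Real.exp (φ i) ^ k) :
    hgt y / k ≤ P.sm φ + m * K / k := by
  have hk' : (0 : ℝ) < k := by exact_mod_cast hk
  have hK := P.K_nonneg
  rcases eq_or_ne y 0 with rfl | hy0
  · rw [r15_hgt_zero hH, zero_div]
    positivity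
  have h1 : hgt y ≤ m * K + k * P.sm φ := by
    rw [P.hgt_eq hy hy0]
    refine (PSys.sm_le (P.fs_nrm hy hy0) ((P.fs_A.const_mul m).add (hφ.const_mul k))
      fun i => ?_).trans ?_
    · have hA := (P.adm i).pos
      refine (Real.log_le_log (nrm_pos _ hy0) (h i)).trans (le_of_eq ?_)
      rw [Real.log_mul (by positivity) (by positivity), Real.log_pow, Real.log_pow, Real.log_exp]
    · rw [PSys.sm_add (P.fs_A.const_mul m) (hφ.const_mul k), PSys.sm_const_mul, PSys.sm_const_mul]
      have := mul_le_mul_of_nonneg_left P.sm_A (Nat.cast_nonneg (α := ℝ) m)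
      linarith
  rw [div_le_iff₀ hk', add_mul, div_mul_cancel₀ _ hk'.ne']
  linarith

theorem r15_Low (hP : SpPB) (hS : SpPS) (hH : SpHt) : SpLow := by
  classical
  intro n _ M k I hI
  obtain ⟨Γ, m, hloc⟩ := r15_loc hP I hI.hom
  obtain ⟨K, hK⟩ := hS Γ
  refine ⟨m * K / k, fun c c' g hc hg h => ?_⟩
  obtain ⟨g', t, hg', ht, h'⟩ := h.norm hg
  have hne : t • c' ≠ 0 := (hc.conj (by rw [hg']; exact one_ne_zero) h').ne_zero
  obtain ⟨P⟩ := hK (univ.image (t • c') ∪ univ.image fun j => MvPolynomial.eval c (I j))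
  have m1 : ∀ j, (t • c') j ∈ P.L := fun j =>
    P.mem _ (mem_union_left _ (mem_image_of_mem _ (mem_univ j)))
  have m2 : ∀ j, MvPolynomial.eval c (I j) ∈ P.L := fun j =>
    P.mem _ (mem_union_right _ (mem_image_of_mem (fun j => MvPolynomial.eval c (I j)) (mem_univ j)))
  have e := P.hgt_eq m1 hne
  have := r15_glob hH P _ m2 m k hI.pos _ (P.fs_nrm m1 hne) (e ▸ (hH _ _).1) fun i => by
    rw [Real.exp_log (nrm_pos _ hne)]
    have := hloc (P.v i) (P.A i) (t • c') (P.adm i)
    simpa only [fun j => hI.inv j g' c _ hg' h'] using this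
  rw [← e, (hH _ c').2.1 t ht] at this
  exact this

theorem r15_ev1 (n N : ℕ) (z : V2) : ev (zc (n + 1) N) z 1 = z 1 ^ (n + 1) := by
  unfold ev
  rw [Finset.sum_eq_single (0 : Fin (n + 1 + 1))]
  · simp [zc]
  · intro i _ hi
    have : (i : ℕ) ≠ 0 := fun h => hi (Fin.ext h)
    simp [zc, this]
  · simp

theorem r15_ev0 (n N : ℕ) (z : V2) (hz : z 1 = 0) : ev (zc (n + 1) N) z 0 = z 0 ^ (n + 1) := by
  unfold ev
  rw [Finset.sum_eq_single (Fin.last (n + 1))]
  · simp [zc]
  · intro i _ hi
    have h1 : (i : ℕ) ≠ n + 1 := fun h => hi (Fin.ext h)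
    have h2 : n + 1 - (i : ℕ) ≠ 0 := by have := i.2; omega
    simp [hz, h2]
  · simp

theorem r15_rat (n N : ℕ) : IsRat (zc (n + 1) N) := fun z hz h => by
  have h1 : z 1 = 0 := by
    have := congrFun h 1
    rw [r15_ev1] at this
    exact pow_eq_zero_iff (Nat.succ_ne_zero n) |>.1 this
  have h0 : z 0 = 0 := by
    have := congrFun h 0
    rw [r15_ev0 n N z h1] at this
    exact pow_eq_zero_iff (Nat.succ_ne_zero n) |>.1 this
  exact hz (by ext i; fin_cases i <;> simp [h0, h1])

theorem r15_S2a (hP : SpPB) (hS : SpPS) (hH : SpHt) : SpS2a := by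
  classical
  intro n _ M k I hI
  obtain ⟨Γ, m, hloc⟩ := r15_loc hP I hI.hom
  obtain ⟨K, hK⟩ := hS Γ
  refine ⟨2 * (m * K / k), fun N hN => ⟨r15_rat n N, ?_⟩⟩
  obtain ⟨P⟩ := hK (univ.image fun j => MvPolynomial.eval (zc (n + 1) N) (I j))
  have m2 : ∀ j, MvPolynomial.eval (zc (n + 1) N) (I j) ∈ P.L := fun j =>
    P.mem _ (mem_image_of_mem (fun j => MvPolynomial.eval (zc (n + 1) N) (I j)) (mem_univ j))
  have hN1 : (1 : ℝ) ≤ N := by exact_mod_cast hN
  have hlog : 0 ≤ Real.log N := Real.log_nonneg hN1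
  obtain ⟨t, ht⟩ := IsAlgClosed.exists_pow_nat_eq (N : Qb) (show 0 < 2 * (n + 1) by omega)
  have ht0 : t ≠ 0 := fun e => by
    rw [e, zero_pow (by omega)] at ht
    exact absurd (by exact_mod_cast ht.symm) (show N ≠ 0 by omega)
  set β : ℝ := (n : ℝ) / (2 * (n + 1)) * Real.log N with hβ
  obtain ⟨f1, f2⟩ := PSys.sm_arch (P := P) β
  have := r15_glob hH P _ m2 m k hI.pos _ f1 (by rw [f2]; positivity) fun i => by
    have hA := (P.adm i).pos
    by_cases hi : i ∈ P.S
    · rw [if_pos hi]
      have hc := conj_diag (zc (n + 1) N) ht0 (inv_ne_zero ht0)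
      have hdet : (!![t, 0; 0, t⁻¹] : M2).det = 1 := by simp [Matrix.det_fin_two, ht0]
      have h1 := hloc (P.v i) (P.A i)
        (fun x => zc (n + 1) N x * t ^ (x.2 : ℕ) * t⁻¹ ^ (n + 1 - (x.2 : ℕ)) *
          (![t, t⁻¹] x.1)⁻¹) (P.adm i)
      simp only [fun j => hI.inv j _ _ _ hdet hc] at h1
      refine h1.trans (mul_le_mul_of_nonneg_left (pow_le_pow_left₀ (nrm_nonneg _ _) ?_ k)
        (by positivity))
      set τ := P.v i t with hτ
      have hτ0 : 0 < τ := (P.v i).pos ht0
      have hτN : τ ^ (2 * (n + 1)) = N := by rw [hτ, ← map_pow, ht, P.arch i hi]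
      have hτ1 : 1 ≤ τ := by
        by_contra hlt
        have := pow_lt_one₀ hτ0.le (not_le.1 hlt) (show 2 * (n + 1) ≠ 0 by omega)
        linarith
      have hexp : Real.exp β = τ ^ n := by
        rw [hβ, ← hτN, Real.log_pow, ← Real.exp_log (pow_pos hτ0 n), Real.log_pow]
        congr 1
        push_cast
        field_simp
      rw [hexp]
      refine nrm_le _ (by positivity) fun x => ?_
      obtain ⟨r, j⟩ := x
      simp only [map_mul, map_pow, map_inv₀]
      fin_cases r
      · by_cases h1 : (j : ℕ) = n + 1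
        · simp only [zc, h1, Fin.zero_eta, if_true, map_one, Nat.sub_self, pow_zero,
            Matrix.cons_val_zero, ← hτ]
          apply le_of_eq
          field_simp
          ring
        · by_cases h2 : (j : ℕ) = 0
          · have h3 : ¬ (0 = n + 1) := by omega
            simp only [zc, h2, h3, Fin.zero_eta, if_true, if_false, Nat.sub_zero, pow_zero,
              Matrix.cons_val_zero, ← hτ, P.arch i hi, ← hτN]
            apply le_of_eq
            rw [inv_pow]
            field_simp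
            ring
          · simp only [zc, h1, h2, Fin.zero_eta, if_true, if_false, map_zero, zero_mul]
            positivity
      · by_cases h2 : (j : ℕ) = 0
        · have e : P.v i (zc (n + 1) N (1, j)) = 1 := by simp [zc, h2]
          simp only [Fin.mk_one, e, h2, pow_zero, Nat.sub_zero, Matrix.cons_val_one,
            Matrix.cons_val_zero, map_inv₀, inv_inv, ← hτ]
          have e2 : 1 * 1 * τ⁻¹ ^ (n + 1) * τ = (τ ^ n)⁻¹ := by
            rw [inv_pow]
            field_simp
            ring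
          rw [e2]
          have := one_le_pow₀ (n := n) hτ1
          exact (inv_le_one_of_one_le₀ this).trans this
        · have e : P.v i (zc (n + 1) N (1, j)) = 0 := by simp [zc, h2]
          simp only [Fin.mk_one, e, zero_mul]
          positivity
    · rw [if_neg hi, Real.exp_zero]
      refine (hloc (P.v i) (P.A i) _ (P.adm i)).trans (mul_le_mul_of_nonneg_left
        (pow_le_pow_left₀ (nrm_nonneg _ _) (nrm_le _ zero_le_one fun x => ?_) k) (by positivity))
      unfold zc
      split_ifs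
      · simp
      · exact P.non i hi N
      · simp
      · simp
      · simp
  rw [f2] at this
  have e : (n : ℝ) / (n + 1) * Real.log N = 2 * β := by
    rw [hβ]
    field_simp
  unfold hG
  rw [e]
  linarith

end Pool.Agent.MP_216eb3_nt.GIT
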