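import Pool.Agent.MP_216eb3_nt.GIT.Basic

set_option autoImplicit false

namespace Pool.Agent.MP_216eb3_nt.GIT

open Polynomial Finset Filter

/-- coefficients of `(X ^ d + Y ^ d, Y ^ d)` -/
def r16_n1 (d : ℕ) (x : Cf d) : ℕ :=
  (if (x.2 : ℕ) = 0 then 1 else 0) + (if x.1 = 0 ∧ (x.2 : ℕ) = d then 1 else 0)

/-- coefficients of `(P, P)` -/
def r16_n2 (d : ℕ) (x : Cf d) : ℕ := if (x.2 : ℕ) = d / 2 then 1 else 0

theorem r16_single {d : ℕ} (a : ℕ) (ha : a ≤ d) (z : V2) :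
    ∑ i : Fin (d + 1), (if (i : ℕ) = a then (1 : Qb) else 0) * z 0 ^ (i : ℕ) * z 1 ^ (d - (i : ℕ)) =
      z 0 ^ a * z 1 ^ (d - a) := by
  rw [sum_eq_single ⟨a, by omega⟩ (fun i _ hi => by
    rw [if_neg fun e => hi (Fin.ext e), zero_mul, zero_mul]) (by simp)]
  simp

theorem r16_ev2 (d : ℕ) (z : V2) (r : Fin 2) :
    ev (fun x => (r16_n2 d x : Qb)) z r = z 0 ^ (d / 2) * z 1 ^ (d - d / 2) := by
  rw [← r16_single (d / 2) (Nat.div_le_self _ _) z]
  simp [ev, r16_n2]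

theorem r16_ev1 (d : ℕ) (z : V2) :
    ev (fun x => (r16_n1 d x : Qb)) z 0 = z 1 ^ d + z 0 ^ d ∧
      ev (fun x => (r16_n1 d x : Qb)) z 1 = z 1 ^ d := by
  have h0 := r16_single (d := d) 0 (Nat.zero_le _) z
  have h1 := r16_single (d := d) d le_rfl z
  rw [pow_zero, one_mul, Nat.sub_zero] at h0
  rw [Nat.sub_self, pow_zero, mul_one] at h1
  constructor
  · rw [← h0, ← h1, ← sum_add_distrib]
    refine sum_congr rfl fun i _ => ?_
    simp only [r16_n1, true_and]
    push_cast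
    ring
  · rw [← h0]
    refine sum_congr rfl fun i _ => ?_
    simp [r16_n1]

theorem r16_ev_add {d : ℕ} (c c' : Cf d → Qb) (z : V2) (r : Fin 2) :
    ev (c + c') z r = ev c z r + ev c' z r := by
  simp [ev, add_mul, sum_add_distrib]

theorem r16_rat {n : ℕ} (hn : 1 ≤ n) (T : Qb) :
    IsRat ((fun x => (r16_n1 (n + 1) x : Qb)) + T • fun x => (r16_n2 (n + 1) x : Qb)) := by
  intro z hz e
  have e0 := congrFun e 0
  have e1 := congrFun e 1
  rw [r16_ev_add, ev_smul, Pi.smul_apply, r16_ev2, smul_eq_mul, Pi.zero_apply] at e0 e1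
  rw [(r16_ev1 _ z).1] at e0
  rw [(r16_ev1 _ z).2] at e1
  have h0 : z 0 = 0 := pow_eq_zero_iff (n := n + 1) (by omega) |>.1 (by linear_combination e0 - e1)
  rw [h0, zero_pow (by omega), zero_mul, mul_zero, add_zero] at e1
  have h1 : z 1 = 0 := pow_eq_zero_iff (by omega) |>.1 e1
  exact hz (by funext i; fin_cases i <;> simp [h0, h1])

theorem r16_lin {α β : Qb} (h : β = 0 → α ≠ 0) : ∃ (m : ℕ) (U : Qb[X]), m ≤ 1 ∧ (m = 1 → β = 0) ∧
    U.eval 0 ≠ 0 ∧ C α * X + C β = X ^ m * U := by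
  by_cases hb : β = 0
  · exact ⟨1, C α, le_rfl, fun _ => hb, by simpa using h hb, by rw [hb, C_0]; ring⟩
  · exact ⟨0, C α * X + C β, zero_le_one, by simp, by simpa using hb, by simp⟩

theorem r16_not_null (hU : SpUnst) {n : ℕ} (hn : 1 ≤ n) :
    ¬ IsNull fun x => (r16_n2 (n + 1) x : Qb) := by
  intro h
  obtain ⟨g, c', hg, hc, hF, -⟩ := hU n hn _ h
  have hd : g 0 0 * g 1 1 - g 0 1 * g 1 0 = 1 := by rw [← Matrix.det_fin_two, hg]
  obtain ⟨m0, U0, a0, b0, u0, e0⟩ := r16_lin (α := g 0 0) (β := g 0 1) fun e e' => by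
    rw [e, e'] at hd; simp at hd
  obtain ⟨m1, U1, a1, b1, u1, e1⟩ := r16_lin (α := g 1 0) (β := g 1 1) fun e e' => by
    rw [e, e'] at hd; simp at hd
  obtain ⟨m2, U2, a2, b2, u2, e2⟩ := r16_lin (α := g 1 0 - g 0 0) (β := g 1 1 - g 0 1)
    fun e e' => by
      rw [sub_eq_zero.1 e, sub_eq_zero.1 e'] at hd
      exact zero_ne_one (by linear_combination hd)
  have hP : Fp c' = (C (g 0 0) * X + C (g 0 1)) ^ ((n + 1) / 2) *
      (C (g 1 0) * X + C (g 1 1)) ^ (n + 1 - (n + 1) / 2) *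
      (C (g 1 0 - g 0 0) * X + C (g 1 1 - g 0 1)) := Polynomial.funext fun x => by
    rw [← hev_one (natDegree_Fp c'), hc.Fp hg, hev_Fp, dt, r16_ev2, r16_ev2]
    simp [Matrix.mulVec, dotProduct, Fin.sum_univ_two]
    ring
  have hQ : Fp c' = X ^ (m0 * ((n + 1) / 2) + m1 * (n + 1 - (n + 1) / 2) + m2) *
      (U0 ^ ((n + 1) / 2) * U1 ^ (n + 1 - (n + 1) / 2) * U2) := by
    rw [hP, e0, e1, e2]
    ring
  have h01 : ¬ (g 0 1 = 0 ∧ g 1 1 = 0) := fun e => by
    rw [e.1, e.2] at hd; simp at hd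
  have hle : 2 * (m0 * ((n + 1) / 2) + m1 * (n + 1 - (n + 1) / 2) + m2) ≤ n + 2 := by
    have c0 : m0 = 0 ∨ m0 = 1 := by omega
    have c1 : m1 = 0 ∨ m1 = 1 := by omega
    have c2 : m2 = 0 ∨ m2 = 1 := by omega
    rcases c0 with rfl | rfl <;> rcases c1 with rfl | rfl <;> rcases c2 with rfl | rfl
    · omega
    · omega
    · omega
    · exact absurd ⟨by linear_combination b1 rfl - b2 rfl, b1 rfl⟩ h01
    · omega
    · exact absurd ⟨b0 rfl, by linear_combination b0 rfl + b2 rfl⟩ h01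
    · exact absurd ⟨b0 rfl, b1 rfl⟩ h01
    · exact absurd ⟨b0 rfl, b1 rfl⟩ h01
  have := hF _ hle
  rw [hQ, coeff_X_pow_mul', if_pos le_rfl, Nat.sub_self, coeff_zero_eq_eval_zero] at this
  simp only [eval_mul, eval_pow] at this
  exact mul_ne_zero (mul_ne_zero (pow_ne_zero _ u0) (pow_ne_zero _ u1)) u2 this

/-- restriction of a polynomial to a line -/
theorem r16_line {σ : Type} (Q : MvPolynomial σ Qb) (c c' : σ → Qb) :
    ∃ p : Qb[X], ∀ t, p.eval t = MvPolynomial.eval (c + t • c') Q := by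
  refine ⟨MvPolynomial.aeval (fun x => C (c x) + X * C (c' x)) Q, fun t => ?_⟩
  induction Q using MvPolynomial.induction_on with
  | C a => simp
  | add p q hp hq => simp only [map_add, eval_add, hp, hq]
  | mul_X p x hp =>
    simp only [map_mul, eval_mul, hp, MvPolynomial.aeval_X, MvPolynomial.eval_X, eval_add, eval_C,
      eval_X, Pi.add_apply, Pi.smul_apply, smul_eq_mul]

theorem r16_bezout {M : ℕ} (p : Fin M → Qb[X]) (h : ∀ t, ∃ j, (p j).eval t ≠ 0) :
    ∃ u : Fin M → Qb[X], ∑ j, u j * p j = 1 := by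
  rw [← Ideal.mem_span_range_iff_exists_fun, ← Ideal.eq_top_iff_one]
  obtain ⟨g, hg⟩ := (IsPrincipalIdealRing.principal (Ideal.span (Set.range p))).principal
  rw [hg, Ideal.submodule_span_eq, Ideal.span_singleton_eq_top]
  by_contra hu
  have hr : ∃ t, g.eval t = 0 := by
    by_cases h0 : g = 0
    · exact ⟨0, by rw [h0, eval_zero]⟩
    · exact IsAlgClosed.exists_root g fun e => hu (isUnit_iff_degree_eq_zero.2 e)
  obtain ⟨t, ht⟩ := hr
  obtain ⟨j, hj⟩ := h t
  have : p j ∈ Ideal.span {g} := by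
    rw [← Ideal.submodule_span_eq, ← hg]
    exact Ideal.subset_span ⟨j, rfl⟩
  obtain ⟨q, e⟩ := Ideal.mem_span_singleton.1 this
  exact hj (by rw [e, eval_mul, ht, zero_mul])

theorem r16_bd {Γ : Finset Qb} {v : AV} {A : ℝ} (h : Adm Γ v A) {u : Qb[X]} {D : ℕ}
    (hD : u.natDegree < D) (hu : u.coeffs ⊆ Γ) {t : Qb} (ht : v t ≤ 1) :
    v (u.eval t) ≤ A ^ D * A := by
  rw [eval_eq_sum_range' hD]
  have := h.sum_le (range D) (fun i => u.coeff i * t ^ i) h.pos.le fun i _ => by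
    rw [v.map_mul, v.map_pow]
    refine (mul_le_of_le_one_right (v.nonneg _) (pow_le_one₀ (v.nonneg _) ht)).trans ?_
    by_cases e : u.coeff i = 0
    · rw [e, v.map_zero]
      exact h.pos.le
    · exact h.bd _ (hu (coeff_mem_coeffs e))
  rwa [card_range] at this

theorem r16_arch (v : AV) (hv : ∀ N : ℕ, v N = N) (q : Qb[X]) (hq : q.eval 0 ≠ 0) :
    ∀ᶠ N : ℕ in atTop, v (q.eval 0) / 2 ≤ v (q.eval (N : Qb)⁻¹) := by
  have h0 : 0 < v (q.eval 0) := v.pos hq
  set B := ∑ i ∈ range (q.divX.natDegree + 1), v (q.divX.coeff i) with hB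
  filter_upwards [eventually_ge_atTop 1,
    (tendsto_natCast_atTop_atTop (R := ℝ)).eventually_ge_atTop (2 * B / v (q.eval 0))] with N h1 h2
  have N1 : (1 : ℝ) ≤ N := by exact_mod_cast h1
  have e1 : v (N : Qb)⁻¹ = (N : ℝ)⁻¹ := by rw [map_inv₀, hv]
  have e2 : v (q.divX.eval (N : Qb)⁻¹) ≤ B := by
    rw [eval_eq_sum_range]
    refine (v.sum_le _ _).trans (sum_le_sum fun i _ => ?_)
    rw [v.map_mul, v.map_pow, e1]
    exact mul_le_of_le_one_right (v.nonneg _)
      (pow_le_one₀ (by positivity) (inv_le_one_of_one_le₀ N1))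
  have e3 : q.eval 0 = q.eval (N : Qb)⁻¹ - q.divX.eval (N : Qb)⁻¹ * (N : Qb)⁻¹ := by
    have := congrArg (eval (N : Qb)⁻¹) (divX_mul_X_add q)
    rw [eval_add, eval_mul, eval_X, eval_C, coeff_zero_eq_eval_zero] at this
    linear_combination this
  have e4 := v.sub_le_add (q.eval (N : Qb)⁻¹) (q.divX.eval (N : Qb)⁻¹ * (N : Qb)⁻¹)
  rw [← e3, v.map_mul, e1] at e4
  have e5 : v (q.divX.eval (N : Qb)⁻¹) * (N : ℝ)⁻¹ ≤ v (q.eval 0) / 2 := by
    rw [← div_eq_mul_inv, div_le_iff₀ (by linarith)]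
    rw [div_le_iff₀ h0] at h2
    nlinarith
  linarith

theorem r16_mem {L : Subfield Qb} {p : Qb[X]} (hp : ∀ x ∈ p.coeffs, x ∈ L) (N : ℕ) :
    p.eval (N : Qb) ∈ L := by
  rw [eval_eq_sum_range]
  refine L.sum_mem fun i _ => L.mul_mem ?_ (L.pow_mem (natCast_mem L N) _)
  by_cases e : p.coeff i = 0
  · rw [e]
    exact L.zero_mem
  · exact hp _ (coeff_mem_coeffs e)

theorem r16_S1 (hU : SpUnst) (_hP : SpPB) (hS : SpPS)
    (hne : ∀ n, 1 ≤ n → ∀ (M k : ℕ) (I : Fin M → MvPolynomial (Cf (n + 1)) Qb), IsGIT k I →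
      ∀ c, IsRat c → (fun j => MvPolynomial.eval c (I j)) ≠ 0) : SpS1 := by
  classical
  intro n hn M k I hI
  set c1 : Cf (n + 1) → Qb := fun x => (r16_n1 (n + 1) x : Qb) with hc1
  set c2 : Cf (n + 1) → Qb := fun x => (r16_n2 (n + 1) x : Qb) with hc2
  choose p hp using fun j => r16_line (I j) c1 c2
  obtain ⟨u, hu⟩ := r16_bezout p fun t => by
    obtain ⟨j, hj⟩ := Function.ne_iff.1 (hne n hn M k I hI _ (r16_rat hn t))
    exact ⟨j, by rw [hp]; exact hj⟩
  obtain ⟨j0, hj0⟩ : ∃ j, MvPolynomial.eval c2 (I j) ≠ 0 := by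
    by_contra h
    exact r16_not_null hU hn (hI.null _ fun j => not_not.1 fun e => h ⟨j, e⟩)
  obtain ⟨q, hq⟩ := r16_line (I j0) c2 c1
  have q0 : q.eval 0 ≠ 0 := by rwa [hq, zero_smul, add_zero]
  obtain ⟨K, hK⟩ := hS (univ.biUnion fun j => (u j).coeffs)
  obtain ⟨P⟩ := hK (univ.biUnion fun j => (p j).coeffs)
  obtain ⟨κ, hκ⟩ := (P.S.finite_toSet.image fun i => -Real.log (P.v i (q.eval 0) / 2)).bddAbove
  set D := univ.sup (fun j => (u j).natDegree) + 1 with hD
  have k0 : (0 : ℝ) < k := by exact_mod_cast hI.pos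
  set K' := (κ + (M + D + 1 : ℕ) * K) / k with hK'
  refine ⟨Real.log 3 + K', fun T => ?_⟩
  obtain ⟨N, ⟨N1, N2⟩, N3⟩ := (((eventually_ge_atTop 1).and
    ((eventually_all_finset P.S).2 fun i hi => r16_arch (P.v i) (P.arch i hi) q q0)).and
    ((Real.tendsto_log_atTop.comp tendsto_natCast_atTop_atTop).eventually_ge_atTop
      (T + K'))).exists
  have N0 : (1 : ℝ) ≤ N := by exact_mod_cast N1
  have Nq : (N : Qb) ≠ 0 := by exact_mod_cast (by omega : N ≠ 0)
  have hr := r16_rat hn (N : Qb)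
  have h0 := hne n hn M k I hI _ hr
  have hL : ∀ j, MvPolynomial.eval (c1 + (N : Qb) • c2) (I j) ∈ P.L := fun j => by
    rw [← hp]
    exact r16_mem (fun x hx => P.mem x (mem_biUnion.2 ⟨j, mem_univ _, hx⟩)) N
  have low : k * Real.log N - κ - (M + D + 1 : ℕ) * K ≤
      hgt fun j => MvPolynomial.eval (c1 + (N : Qb) • c2) (I j) := by
    rw [P.hgt_eq hL h0]
    obtain ⟨f1, s1⟩ := PSys.sm_arch (P := P) (k * Real.log N - κ)
    refine le_trans ?_ (PSys.sm_le (f1.sub (P.fs_A.const_mul ((M + D + 1 : ℕ) : ℝ)))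
      (P.fs_nrm hL h0) fun i => ?_)
    · rw [PSys.sm_sub f1 (P.fs_A.const_mul _), s1, PSys.sm_const_mul]
      exact sub_le_sub_left (mul_le_mul_of_nonneg_left P.sm_A (Nat.cast_nonneg _)) _
    have hA := P.adm i
    have lA : 0 ≤ ((M + D + 1 : ℕ) : ℝ) * Real.log (P.A i) :=
      mul_nonneg (Nat.cast_nonneg _) (Real.log_nonneg hA.one)
    split_ifs with hi
    · have e1 : MvPolynomial.eval (c1 + (N : Qb) • c2) (I j0) = N ^ k * q.eval (N : Qb)⁻¹ := by
        rw [hq, ← eval_smul_hom (hI.hom j0), smul_add, smul_smul, mul_inv_cancel₀ Nq, one_smul,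
          add_comm c1]
      have e2 := le_nrm (P.v i) (fun j => MvPolynomial.eval (c1 + (N : Qb) • c2) (I j)) j0
      simp only [e1] at e2
      rw [(P.v i).map_mul, (P.v i).map_pow, P.arch i hi] at e2
      have e3 : 0 < P.v i (q.eval 0) / 2 := half_pos ((P.v i).pos q0)
      have e4 := Real.log_le_log (by positivity)
        ((mul_le_mul_of_nonneg_left (N2 i hi) (by positivity : (0 : ℝ) ≤ (N : ℝ) ^ k)).trans e2)
      rw [Real.log_mul (by positivity) e3.ne', Real.log_pow] at e4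
      have e5 : -Real.log (P.v i (q.eval 0) / 2) ≤ κ := hκ ⟨i, hi, rfl⟩
      linarith
    · have e1 : ∑ j, (u j).eval (N : Qb) * MvPolynomial.eval (c1 + (N : Qb) • c2) (I j) = 1 := by
        have := congrArg (eval (N : Qb)) hu
        simpa only [eval_finsetSum, eval_mul, hp, eval_one] using this
      have e0 := nrm_pos (P.v i) h0
      have e2 := hA.sum_le univ
        (fun j => (u j).eval (N : Qb) * MvPolynomial.eval (c1 + (N : Qb) • c2) (I j))
        (B := P.A i ^ D * P.A i *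
          nrm (P.v i) fun j => MvPolynomial.eval (c1 + (N : Qb) • c2) (I j))
        (by have := hA.pos; positivity) fun j _ => by
          rw [(P.v i).map_mul]
          exact mul_le_mul (r16_bd hA (Nat.lt_succ_of_le (le_sup (f := fun j => (u j).natDegree)
            (mem_univ j))) (subset_biUnion_of_mem (fun j => (u j).coeffs) (mem_univ j))
            (P.non i hi N))
            (le_nrm (P.v i) (fun j => MvPolynomial.eval (c1 + (N : Qb) • c2) (I j)) j)
            ((P.v i).nonneg _) (by have := hA.pos; positivity)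
      rw [e1, (P.v i).map_one, card_univ, Fintype.card_fin, ← mul_assoc, ← pow_succ, ← pow_add,
        ← add_assoc] at e2
      have e3 := Real.log_nonneg e2
      rw [Real.log_mul (pow_pos hA.pos _).ne' e0.ne', Real.log_pow] at e3
      linarith
  have ec : ∀ x, (c1 + (N : Qb) • c2) x = ((r16_n1 (n + 1) x + N * r16_n2 (n + 1) x : ℕ) : Qb) :=
    fun x => by simp [hc1, hc2]
  have up : hgt (c1 + (N : Qb) • c2) ≤ Real.log 3 + Real.log N := by
    have hm : ∀ x, (c1 + (N : Qb) • c2) x ∈ P.L := fun x => by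
      rw [ec]
      exact natCast_mem _ _
    rw [P.hgt_eq hm hr.ne_zero]
    obtain ⟨f1, s1⟩ := PSys.sm_arch (P := P) (Real.log 3 + Real.log N)
    refine (PSys.sm_le (P.fs_nrm hm hr.ne_zero) f1 fun i => ?_).trans s1.le
    have e0 := nrm_pos (P.v i) hr.ne_zero
    split_ifs with hi
    · rw [← Real.log_mul (by norm_num) (by linarith)]
      refine Real.log_le_log e0 (nrm_le _ (by linarith) fun x => ?_)
      rw [ec, P.arch i hi]
      have a1 : r16_n1 (n + 1) x ≤ 2 := by unfold r16_n1; split_ifs <;> omega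
      have a2 : r16_n2 (n + 1) x ≤ 1 := by unfold r16_n2; split_ifs <;> omega
      have a3 := Nat.mul_le_mul_left N a2
      exact_mod_cast (by omega : r16_n1 (n + 1) x + N * r16_n2 (n + 1) x ≤ 3 * N)
    · exact Real.log_nonpos e0.le (nrm_le _ zero_le_one fun x => by rw [ec]; exact P.non i hi _)
  have hG' : Real.log N - K' ≤ hG k I (c1 + (N : Qb) • c2) := by
    rw [hG, le_div_iff₀ k0, hK', sub_mul, div_mul_cancel₀ _ k0.ne']
    linarith
  have N3' : T + K' ≤ Real.log N := N3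
  exact ⟨_, hr, by linarith, by linarith⟩

end Pool.Agent.MP_216eb3_nt.GIT
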