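import Pool.Agent.MP_216eb3_nt.GIT.Basic

set_option autoImplicit false

namespace Pool.Agent.MP_216eb3_nt.GIT

open Polynomial Finset Filter

section loc
variable {Γ : Finset Qb} {v : AV} {A : ℝ}

theorem r17_dt (h : Adm Γ v A) (a b : V2) {x y : ℝ} (hx : ∀ j, v (a j) ≤ x)
    (hy : ∀ j, v (b j) ≤ y) : v (dt a b) ≤ A * (x * y) := by
  have hx0 : 0 ≤ x := (v.nonneg _).trans (hx 0)
  unfold dt
  refine h.sub_le ?_ ?_ <;> rw [v.map_mul]
  · exact mul_le_mul (hx 0) (hy 1) (v.nonneg _) hx0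
  · exact mul_le_mul (hx 1) (hy 0) (v.nonneg _) hx0

theorem r17_ev (h : Adm Γ v A) {d : ℕ} (c : Cf d → Qb) (z : V2) {Z : ℝ} (hz : ∀ j, v (z j) ≤ Z)
    (r : Fin 2) : v (ev c z r) ≤ A ^ (d + 1) * (nrm v c * Z ^ d) := by
  have hZ : 0 ≤ Z := (v.nonneg _).trans (hz 0)
  have := h.sum_le univ (fun i : Fin (d + 1) => c (r, i) * z 0 ^ (i : ℕ) * z 1 ^ (d - (i : ℕ)))
    (B := nrm v c * Z ^ d) (mul_nonneg (nrm_nonneg v c) (pow_nonneg hZ d)) fun i _ => by
      have hi : (i : ℕ) + (d - (i : ℕ)) = d := by have := i.2; omega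
      have e : Z ^ d = Z ^ (i : ℕ) * Z ^ (d - (i : ℕ)) := by rw [← pow_add, hi]
      rw [v.map_mul, v.map_mul, v.map_pow, v.map_pow, e, ← mul_assoc]
      have h1 := le_nrm v c (r, i)
      have h2 := pow_le_pow_left₀ (v.nonneg _) (hz 0) (i : ℕ)
      have h3 := pow_le_pow_left₀ (v.nonneg _) (hz 1) (d - (i : ℕ))
      have h4 := nrm_nonneg v c
      gcongr
  simpa [ev] using this

/-- the derivative of `t ↦ ev c (z + t p) r` at `t = 0` -/
noncomputable def r17_dv {d : ℕ} (c : Cf d → Qb) (z p : V2) : V2 := fun r =>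
  ∑ i : Fin (d + 1), (c (r, i) * (((i : ℕ) : Qb) * z 0 ^ ((i : ℕ) - 1) * p 0) * z 1 ^ (d - (i : ℕ)) +
    c (r, i) * z 0 ^ (i : ℕ) * (((d - (i : ℕ) : ℕ) : Qb) * z 1 ^ (d - (i : ℕ) - 1) * p 1))

noncomputable def r17_Q {d : ℕ} (c : Cf d → Qb) (z p : V2) (r : Fin 2) : Qb[X] :=
  ∑ i : Fin (d + 1), C (c (r, i)) * (C (z 0) + X * C (p 0)) ^ (i : ℕ) *
    (C (z 1) + X * C (p 1)) ^ (d - (i : ℕ))

theorem r17_Q_eval {d : ℕ} (c : Cf d → Qb) (z p : V2) (r : Fin 2) (t : Qb) :
    (r17_Q c z p r).eval t = ev c (z + t • p) r := by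
  simp [r17_Q, ev, eval_finsetSum, mul_comm t]

theorem r17_Q_der {d : ℕ} (c : Cf d → Qb) (z p : V2) (r : Fin 2) :
    (derivative (r17_Q c z p r)).eval 0 = r17_dv c z p r := by
  simp [r17_Q, r17_dv, eval_finsetSum, derivative_pow]

theorem r17_dv_le (h : Adm Γ v A) {n : ℕ} (c : Cf (n + 1) → Qb) (z p : V2) {Z P : ℝ}
    (hz : ∀ j, v (z j) ≤ Z) (hp : ∀ j, v (p j) ≤ P) (r : Fin 2) :
    v (r17_dv c z p r) ≤ A ^ (2 * n + 4) * (nrm v c * P * Z ^ n) := by
  have hZ : 0 ≤ Z := (v.nonneg _).trans (hz 0)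
  have hP : 0 ≤ P := (v.nonneg _).trans (hp 0)
  have hc := nrm_nonneg v c
  have hA := h.pos
  have hB : 0 ≤ A ^ (n + 1) * (nrm v c * P * Z ^ n) := by positivity
  have := h.sum_le univ (fun i : Fin (n + 1 + 1) =>
    (c (r, i) * (((i : ℕ) : Qb) * z 0 ^ ((i : ℕ) - 1) * p 0) * z 1 ^ (n + 1 - (i : ℕ)) +
    c (r, i) * z 0 ^ (i : ℕ) * (((n + 1 - (i : ℕ) : ℕ) : Qb) * z 1 ^ (n + 1 - (i : ℕ) - 1) * p 1)))
    (B := A * (A ^ (n + 1) * (nrm v c * P * Z ^ n))) (by positivity) fun i _ => by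
      have hi := i.2
      have h1 := le_nrm v c (r, i)
      refine h.add_le ?_ ?_
      · rcases Nat.eq_zero_or_pos (i : ℕ) with e | e
        · rw [e]; simpa using hB
        · have hn : n = ((i : ℕ) - 1) + (n + 1 - (i : ℕ)) := by omega
          have h2 := pow_le_pow_left₀ (v.nonneg _) (hz 0) ((i : ℕ) - 1)
          have h3 := pow_le_pow_left₀ (v.nonneg _) (hz 1) (n + 1 - (i : ℕ))
          have h4 : v ((i : ℕ) : Qb) ≤ A ^ (n + 1) := (h.nat_le _).trans (h.pow_le (by omega))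
          have h5 := hp 0
          have e2 : Z ^ n = Z ^ ((i : ℕ) - 1) * Z ^ (n + 1 - (i : ℕ)) := by
            rw [← pow_add, ← hn]
          simp only [v.map_mul, v.map_pow]
          calc _ ≤ nrm v c * (A ^ (n + 1) * Z ^ ((i : ℕ) - 1) * P) * Z ^ (n + 1 - (i : ℕ)) := by
                gcongr
            _ = _ := by rw [e2]; ring
      · rcases Nat.eq_zero_or_pos (n + 1 - (i : ℕ)) with e | e
        · rw [e]; simpa using hB
        · have hn : n = (i : ℕ) + (n + 1 - (i : ℕ) - 1) := by omega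
          have h2 := pow_le_pow_left₀ (v.nonneg _) (hz 0) (i : ℕ)
          have h3 := pow_le_pow_left₀ (v.nonneg _) (hz 1) (n + 1 - (i : ℕ) - 1)
          have h4 : v ((n + 1 - (i : ℕ) : ℕ) : Qb) ≤ A ^ (n + 1) :=
            (h.nat_le _).trans (h.pow_le (by omega))
          have h5 := hp 1
          have e2 : Z ^ n = Z ^ (i : ℕ) * Z ^ (n + 1 - (i : ℕ) - 1) := by
            rw [← pow_add, ← hn]
          simp only [v.map_mul, v.map_pow]
          calc _ ≤ nrm v c * Z ^ (i : ℕ) * (A ^ (n + 1) * Z ^ (n + 1 - (i : ℕ) - 1) * P) := by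
                gcongr
            _ = _ := by rw [e2]; ring
  rw [card_univ, Fintype.card_fin] at this
  calc _ ≤ _ := this
    _ = _ := by ring

end loc

theorem r17_ev_zc (n N : ℕ) (z : V2) :
    ev (zc (n + 1) N) z = ![z 0 ^ (n + 1) + N * z 1 ^ (n + 1), z 1 ^ (n + 1)] := by
  funext r
  fin_cases r
  · simp only [ev, zc]
    rw [Fin.sum_univ_castSucc, Fin.sum_univ_succ, sum_eq_zero]
    · simp; ring
    · intro i _
      have := i.2
      simp; omega
  · simp only [ev, zc]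
    rw [Fin.sum_univ_succ, sum_eq_zero]
    · simp
    · intro i _
      simp

section facts
variable {n N : ℕ} {g : M2} {c : Cf (n + 1) → Qb} {p : V2}

theorem r17_dt_p (hg : g.det = 1) (hp : g.mulVec p = ![1, 0]) (z : V2) :
    dt z p = -g.mulVec z 1 := by
  have := dt_mulVec g z p
  rw [hg, one_mul, hp] at this
  rw [← this]; simp [dt]

theorem r17_fix (hg : g.det = 1) (h : Conj g (zc (n + 1) N) c) (hp : g.mulVec p = ![1, 0]) :
    ev c p = p := by
  refine mulVec_inj (g := g) (by rw [hg]; exact one_ne_zero) ?_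
  rw [h, hp, r17_ev_zc]
  simp

theorem r17_a (hg : g.det = 1) (h : Conj g (zc (n + 1) N) c) (hp : g.mulVec p = ![1, 0])
    (z : V2) : dt (ev c z) p = -(-dt z p) ^ (n + 1) := by
  rw [r17_dt_p hg hp, r17_dt_p hg hp, h, r17_ev_zc]
  simp

theorem r17_c (hg : g.det = 1) (h : Conj g (zc (n + 1) N) c) (hp : g.mulVec p = ![1, 0])
    {z : V2} (hz : dt z p = -1) (t : Qb) :
    dt (ev c (z + t • p)) z = (g.mulVec z 0 + t) ^ (n + 1) + N - g.mulVec z 0 := by
  have h1 : g.mulVec z 1 = 1 := by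
    have := r17_dt_p hg hp z
    rw [hz] at this
    exact (neg_injective this).symm
  have := dt_mulVec g (ev c (z + t • p)) z
  rw [hg, one_mul, h, r17_ev_zc, Matrix.mulVec_add, Matrix.mulVec_smul, hp] at this
  rw [← this]
  generalize g.mulVec z = w at h1 ⊢
  simp [dt, h1]

theorem r17_d (hg : g.det = 1) (h : Conj g (zc (n + 1) N) c) (hp : g.mulVec p = ![1, 0])
    {z : V2} (hz : dt z p = -1) :
    dt (r17_dv c z p) z = ((n + 1 : ℕ) : Qb) * g.mulVec z 0 ^ n := by
  have e : r17_Q c z p 0 * C (z 1) - r17_Q c z p 1 * C (z 0) =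
      (C (g.mulVec z 0) + X) ^ (n + 1) + C (N : Qb) - C (g.mulVec z 0) :=
    Polynomial.funext fun t => by
      have := r17_c hg h hp hz t
      simp only [eval_sub, eval_mul, eval_C, r17_Q_eval, eval_add, eval_pow, eval_X]
      rw [← this, dt]
  have e2 := congrArg (fun Q => (derivative Q).eval 0) e
  simp only [derivative_sub, derivative_mul, derivative_C, mul_zero, add_zero, eval_sub, eval_mul,
    eval_C, r17_Q_der, derivative_add, derivative_pow, derivative_X, zero_add, mul_one, sub_zero,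
    eval_pow, eval_add, eval_X, Nat.add_sub_cancel] at e2
  rw [dt, e2]

theorem r17_exz (v : AV) (hp0 : p ≠ 0) :
    ∃ z : V2, dt z p = -1 ∧ ∀ j, v (z j) ≤ (nrm v p)⁻¹ := by
  have hP := nrm_pos v hp0
  obtain ⟨j, hj⟩ := exists_nrm v p
  have h0 : p j ≠ 0 := fun e => by rw [e, v.map_zero] at hj; exact hP.ne hj
  fin_cases j
  · refine ⟨![0, (p 0)⁻¹], ?_, fun j => ?_⟩
    · have h0' : p 0 ≠ 0 := h0
      simp [dt, h0']
    · have hj' : v (p 0) = nrm v p := hj
      fin_cases j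
      · simpa using hP.le
      · simp [hj']
  · refine ⟨![-(p 1)⁻¹, 0], ?_, fun j => ?_⟩
    · have h0' : p 1 ≠ 0 := h0
      simp [dt, h0']
    · have hj' : v (p 1) = nrm v p := hj
      fin_cases j
      · simp [hj']
      · simpa using hP.le

variable {Γ : Finset Qb} {v : AV} {A : ℝ}

/-- the bound valid at all places -/
theorem r17_loc1 (hA : Adm Γ v A) (hg : g.det = 1) (h : Conj g (zc (n + 1) N) c)
    (hp : g.mulVec p = ![1, 0]) (hp0 : p ≠ 0) (hc0 : c ≠ 0) :
    n * Real.log (nrm v p) ≤ (2 * n + 5 : ℕ) * Real.log A + Real.log (nrm v c) := by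
  have hP := nrm_pos v hp0
  have hC := nrm_pos v hc0
  have hA0 := hA.pos
  obtain ⟨z, hz, hzn⟩ := r17_exz v hp0
  have h1 := r17_dt hA (ev c z) p (r17_ev hA c z hzn) (le_nrm v p)
  rw [r17_a hg h hp, hz] at h1
  simp only [neg_neg, one_pow, v.map_neg, v.map_one] at h1
  have h2 : nrm v p ^ n ≤ A ^ (2 * n + 5) * nrm v c := by
    have e : A * (A ^ (n + 1 + 1) * (nrm v c * (nrm v p)⁻¹ ^ (n + 1)) * nrm v p) * nrm v p ^ n =
        A ^ (n + 3) * nrm v c := by
      rw [inv_pow]; field_simp; ring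
    calc nrm v p ^ n = 1 * nrm v p ^ n := (one_mul _).symm
      _ ≤ _ := mul_le_mul_of_nonneg_right h1 (by positivity)
      _ = _ := e
      _ ≤ _ := mul_le_mul_of_nonneg_right (hA.pow_le (by omega)) hC.le
  have h3 := Real.log_le_log (by positivity) h2
  rwa [Real.log_mul (by positivity) hC.ne', Real.log_pow, Real.log_pow] at h3

/-- the bound at the archimedean places -/
theorem r17_loc2 (hA : Adm Γ v A) (hv : ∀ k : ℕ, v k = k) (hN : 4 ≤ N) (hg : g.det = 1)
    (h : Conj g (zc (n + 1) N) c) (hp : g.mulVec p = ![1, 0]) (hp0 : p ≠ 0) (hc0 : c ≠ 0) :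
    n * (Real.log N - Real.log 4) + (n + 1) * (n * Real.log (nrm v p)) ≤
      (n + 1) * ((2 * n + 5 : ℕ) * Real.log A + Real.log (nrm v c)) := by
  have hP := nrm_pos v hp0
  have hC := nrm_pos v hc0
  have hA0 := hA.pos
  have hN' : (4 : ℝ) ≤ N := by exact_mod_cast hN
  have hn : (0 : ℝ) ≤ n := n.cast_nonneg
  obtain ⟨z, hz, hzn⟩ := r17_exz v hp0
  set x := g.mulVec z 0 with hx
  have hl : Real.log ((N : ℝ) / 4) = Real.log N - Real.log 4 :=
    Real.log_div (by positivity) (by norm_num)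
  by_cases hc : (N : ℝ) / 4 ≤ v x ^ (n + 1)
  · have hx0 : 0 < v x := by
      rcases (v.nonneg x).eq_or_lt with e | e
      · rw [← e, zero_pow (Nat.succ_ne_zero n)] at hc; linarith
      · exact e
    have h1 := r17_dt hA (r17_dv c z p) z (r17_dv_le hA c z p hzn (le_nrm v p)) hzn
    rw [r17_d hg h hp hz, v.map_mul, hv, v.map_pow, ← hx] at h1
    have h2 : v x ^ n * nrm v p ^ n ≤ A ^ (2 * n + 5) * nrm v c := by
      have e : A * (A ^ (2 * n + 4) * (nrm v c * nrm v p * (nrm v p)⁻¹ ^ n) * (nrm v p)⁻¹) *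
          nrm v p ^ n = A ^ (2 * n + 5) * nrm v c := by
        rw [inv_pow]; field_simp; ring
      have h3 : v x ^ n ≤ ((n + 1 : ℕ) : ℝ) * v x ^ n :=
        le_mul_of_one_le_left (by positivity) (by push_cast; linarith)
      rw [← e]
      exact mul_le_mul_of_nonneg_right (h3.trans h1) (by positivity)
    have h3 := Real.log_le_log (by positivity) h2
    rw [Real.log_mul (by positivity) (by positivity), Real.log_mul (by positivity) hC.ne',
      Real.log_pow, Real.log_pow, Real.log_pow] at h3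
    have h4 := Real.log_le_log (by positivity) hc
    rw [hl, Real.log_pow] at h4
    push_cast at h4
    have h5 := mul_le_mul_of_nonneg_left h4 hn
    have h6 := mul_le_mul_of_nonneg_left h3 (show (0 : ℝ) ≤ n + 1 by linarith)
    nlinarith
  · push Not at hc
    have hx1 : v x ≤ N / 4 := by
      rcases le_total (v x) 1 with e | e
      · linarith
      · exact (le_self_pow₀ e (Nat.succ_ne_zero n)).trans hc.le
    have h0 : (N : ℝ) / 4 ≤ v (x ^ (n + 1) + N - x) := by
      have e : (N : Qb) = (x ^ (n + 1) + N - x) + (x + -x ^ (n + 1)) := by ring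
      have h1 := v.add_le (x ^ (n + 1) + N - x) (x + -x ^ (n + 1))
      have h2 := v.add_le x (-x ^ (n + 1))
      rw [← e, hv] at h1
      rw [v.map_neg, v.map_pow] at h2
      linarith
    have h1 := r17_dt hA (ev c z) z (r17_ev hA c z hzn) hzn
    have h1' := r17_c hg h hp hz 0
    rw [zero_smul, add_zero, add_zero, ← hx] at h1'
    rw [h1'] at h1
    have h2 : (N : ℝ) / 4 * nrm v p ^ (n + 2) ≤ A ^ (2 * n + 5) * nrm v c := by
      have e : A * (A ^ (n + 1 + 1) * (nrm v c * (nrm v p)⁻¹ ^ (n + 1)) * (nrm v p)⁻¹) *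
          nrm v p ^ (n + 2) = A ^ (n + 3) * nrm v c := by
        rw [inv_pow]; field_simp; ring
      calc _ ≤ _ := mul_le_mul_of_nonneg_right (h0.trans h1) (by positivity)
        _ = _ := e
        _ ≤ _ := mul_le_mul_of_nonneg_right (hA.pow_le (by omega)) hC.le
    have h3 := Real.log_le_log (by positivity) h2
    rw [Real.log_mul (by positivity) (by positivity), Real.log_mul (by positivity) hC.ne',
      Real.log_pow, Real.log_pow, hl] at h3
    have h4 : 1 ≤ A ^ (2 * n + 5) * nrm v c * nrm v p ^ n := by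
      have h5 : nrm v p ≤ A ^ (n + 1 + 1) * (nrm v c * nrm v p ^ (n + 1)) := by
        refine nrm_le v (by positivity) fun j => ?_
        have := r17_ev hA c p (le_nrm v p) j
        rwa [r17_fix hg h hp] at this
      have h6 : 1 ≤ A ^ (n + 1 + 1) * nrm v c * nrm v p ^ n := by
        refine le_of_mul_le_mul_right ?_ hP
        calc _ = nrm v p := one_mul _
          _ ≤ _ := h5
          _ = _ := by ring
      refine h6.trans ?_
      have := hA.pow_le (show n + 1 + 1 ≤ 2 * n + 5 by omega)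
      gcongr
    have h5 := Real.log_nonneg h4
    rw [Real.log_mul (by positivity) (by positivity), Real.log_mul (by positivity) hC.ne',
      Real.log_pow, Real.log_pow] at h5
    have h6 := mul_le_mul_of_nonneg_left h3 hn
    push_cast at h5 h6 ⊢
    nlinarith

end facts

theorem r17_S2b (hS : SpPS) (hH : SpHt) : SpS2b := by
  classical
  intro n _
  obtain ⟨K, hK⟩ := hS ∅
  have hK0 : 0 ≤ K := by
    obtain ⟨P⟩ := hK ∅
    exact P.K_nonneg
  have hn : (0 : ℝ) ≤ n := n.cast_nonneg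
  have hfr : (n : ℝ) / (n + 1) ≤ 1 := by rw [div_le_one (by linarith)]; linarith
  have hl4 : 0 ≤ Real.log 4 := Real.log_nonneg (by norm_num)
  refine ⟨Real.log 4 + (2 * n + 5 : ℕ) * K, fun N hN g₀ c₀ hg₀ h₀ => ?_⟩
  have hmK : 0 ≤ ((2 * n + 5 : ℕ) : ℝ) * K := by positivity
  rcases lt_or_ge N 4 with hN4 | hN4
  · have h1 : Real.log N ≤ Real.log 4 :=
      Real.log_le_log (by exact_mod_cast hN) (by exact_mod_cast hN4.le)
    have h2 : 0 ≤ Real.log N := Real.log_natCast_nonneg N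
    have h3 := (hH _ c₀).1
    nlinarith
  obtain ⟨g, t, hg, ht, h⟩ := Conj.norm hg₀ h₀
  rw [← (hH _ c₀).2.1 t ht]
  set c := t • c₀
  obtain ⟨p, hp⟩ := mulVec_surj (g := g) (by rw [hg]; exact one_ne_zero) ![1, 0]
  have hp0 : p ≠ 0 := fun e => by
    rw [e, Matrix.mulVec_zero] at hp
    simpa using congrFun hp 0
  have hc0 : c ≠ 0 := fun e => by
    have := r17_fix hg h hp
    rw [e] at this
    refine hp0 (this.symm.trans ?_)
    funext r
    simp [ev]
  obtain ⟨P⟩ := hK (univ.image c ∪ univ.image p)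
  have hcL : ∀ j, c j ∈ P.L := fun j => P.mem _ (by simp)
  have hpL : ∀ j, p j ∈ P.L := fun j => P.mem _ (by simp)
  have fc := P.fs_nrm hcL hc0
  have fp := P.fs_nrm hpL hp0
  obtain ⟨fa, sa⟩ := PSys.sm_arch (P := P) (n * (Real.log N - Real.log 4))
  have f1 := (fp.const_mul n).const_mul (n + 1)
  have f2 := (P.fs_A.const_mul (2 * n + 5 : ℕ)).add fc
  have key := PSys.sm_le (P := P) (fa.add f1) (f2.const_mul (n + 1)) fun i => by
    by_cases hi : i ∈ P.S
    · rw [if_pos hi]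
      exact r17_loc2 (P.adm i) (P.arch i hi) hN4 hg h hp hp0 hc0
    · rw [if_neg hi, zero_add]
      exact mul_le_mul_of_nonneg_left (r17_loc1 (P.adm i) hg h hp hp0 hc0) (by linarith)
  rw [PSys.sm_add fa f1, sa, PSys.sm_const_mul, PSys.sm_const_mul, PSys.sm_const_mul,
    PSys.sm_add (P.fs_A.const_mul _) fc, PSys.sm_const_mul, ← P.hgt_eq hcL hc0,
    ← P.hgt_eq hpL hp0] at key
  have h1 := (hH _ p).1
  have h2 := mul_le_mul_of_nonneg_left P.sm_A (show (0 : ℝ) ≤ (2 * n + 5 : ℕ) by positivity)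
  have h3 : 0 ≤ ((n : ℝ) + 1) * (n * hgt p) := by positivity
  have h4 := mul_le_mul_of_nonneg_left h2 (show (0 : ℝ) ≤ n + 1 by linarith)
  rw [sub_le_iff_le_add, div_mul_eq_mul_div, div_le_iff₀ (by linarith)]
  nlinarith

end Pool.Agent.MP_216eb3_nt.GIT
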