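import Pool.Agent.MP_216eb3_nt.GIT.Spec

set_option autoImplicit false

namespace Pool.Agent.MP_216eb3_nt.GIT

open Polynomial Finset

theorem r2_hev_ne {e : ℕ} {g : Qb[X]} (hg : g.natDegree ≤ e) {q : V2} (h : q 1 ≠ 0) :
    hev e g q = q 1 ^ e * g.eval (q 0 / q 1) := by
  rw [hev, eval_eq_sum_range' (Nat.lt_succ_of_le hg), mul_sum]
  refine sum_congr rfl fun i hi => ?_
  obtain ⟨k, rfl⟩ := Nat.exists_eq_add_of_le (Nat.le_of_lt_succ (mem_range.1 hi))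
  rw [Nat.add_sub_cancel_left, pow_add, div_pow]
  field_simp

theorem r2_hev_zero (e : ℕ) (g : Qb[X]) {q : V2} (h : q 1 = 0) :
    hev e g q = g.coeff e * q 0 ^ e := by
  rw [hev, sum_range_succ, sum_eq_zero, Nat.sub_self, pow_zero, mul_one, zero_add]
  intro i hi
  rw [h, zero_pow (Nat.sub_ne_zero_of_lt (mem_range.1 hi)), mul_zero]

theorem r2_fst_ne {q : V2} (hq : q ≠ 0) (h : q 1 = 0) : q 0 ≠ 0 := fun h0 => hq (by
  funext i
  fin_cases i
  · exact h0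
  · exact h)

theorem r2_lin_zero {q : V2} (h : q 1 = 0) : lin q = C (-q 0) := by simp [lin, h]

theorem r2_lin_ne {q : V2} (h : q 1 ≠ 0) : lin q = C (q 1) * (X - C (q 0 / q 1)) := by
  rw [lin, mul_sub, ← C_mul, mul_div_cancel₀ _ h]

theorem r2_lin_ne_zero {q : V2} (hq : q ≠ 0) : lin q ≠ 0 := by
  by_cases h : q 1 = 0
  · rw [r2_lin_zero h]
    exact C_ne_zero.2 (neg_ne_zero.2 (r2_fst_ne hq h))
  · rw [r2_lin_ne h]
    exact mul_ne_zero (C_ne_zero.2 h) (X_sub_C_ne_zero _)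

theorem r2_lin_deg (q : V2) : (lin q).natDegree ≤ 1 := by
  unfold lin
  compute_degree

theorem r2_prod_deg {n : ℕ} (q : Fin n → V2) : (∏ s, lin (q s)).natDegree ≤ n :=
  (natDegree_prod_le _ _).trans
    ((sum_le_sum fun s _ => r2_lin_deg (q s)).trans (by simp))

theorem r2_div {n : ℕ} {P : Qb[X]} {q : V2} (hP : P ≠ 0) (hd : P.natDegree ≤ n + 1) (hq : q ≠ 0)
    (h : hev (n + 1) P q = 0) : ∃ P' : Qb[X], P' ≠ 0 ∧ P'.natDegree ≤ n ∧ P = lin q * P' := by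
  by_cases h1 : q 1 = 0
  · have h0 := r2_fst_ne hq h1
    rw [r2_hev_zero _ _ h1] at h
    have h2 := (mul_eq_zero.1 h).resolve_right (pow_ne_zero _ h0)
    refine ⟨C (-q 0)⁻¹ * P, mul_ne_zero (C_ne_zero.2 (inv_ne_zero (neg_ne_zero.2 h0))) hP,
      (natDegree_C_mul_le _ _).trans (natDegree_le_pred hd h2), ?_⟩
    rw [r2_lin_zero h1, ← mul_assoc, ← C_mul, mul_inv_cancel₀ (neg_ne_zero.2 h0), C_1, one_mul]
  · rw [r2_hev_ne hd h1] at h
    obtain ⟨R, hR⟩ := dvd_iff_isRoot.2 ((mul_eq_zero.1 h).resolve_left (pow_ne_zero _ h1))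
    have hR0 : R ≠ 0 := fun e => hP (by rw [hR, e, mul_zero])
    refine ⟨C (q 1)⁻¹ * R, mul_ne_zero (C_ne_zero.2 (inv_ne_zero h1)) hR0,
      (natDegree_C_mul_le _ _).trans ?_, ?_⟩
    · rw [hR, natDegree_mul (X_sub_C_ne_zero _) hR0, natDegree_X_sub_C] at hd
      omega
    · rw [r2_lin_ne h1, mul_mul_mul_comm, ← C_mul, mul_inv_cancel₀ h1, C_1, one_mul, ← hR]

theorem r2_root {n : ℕ} {P : Qb[X]} (hd : P.natDegree ≤ n + 1) :
    ∃ q : V2, q ≠ 0 ∧ hev (n + 1) P q = 0 := by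
  by_cases h : P.natDegree ≤ n
  · refine ⟨![1, 0], fun e => by simpa using congrFun e 0, ?_⟩
    rw [r2_hev_zero _ _ rfl, coeff_eq_zero_of_natDegree_lt (by omega), zero_mul]
  · obtain ⟨r, hr⟩ := IsAlgClosed.exists_root P
      (natDegree_pos_iff_degree_pos.1 (by omega)).ne'
    refine ⟨![r, 1], fun e => by simpa using congrFun e 1, ?_⟩
    rw [r2_hev_ne hd (by simp)]
    simpa using hr

theorem r2_fac (n : ℕ) : ∀ P : Qb[X], P ≠ 0 → P.natDegree ≤ n + 1 →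
    ∃ q : Fin (n + 1) → V2, (∀ s, q s ≠ 0) ∧ P = ∏ s, lin (q s) := by
  induction n with
  | zero =>
    intro P hP hd
    have e : P = lin ![-P.coeff 0, P.coeff 1] := by
      conv_lhs => rw [eq_X_add_C_of_natDegree_le_one hd]
      simp [lin]
    refine ⟨fun _ => ![-P.coeff 0, P.coeff 1], fun _ h => hP ?_, by simpa using e⟩
    rw [e, show (![-P.coeff 0, P.coeff 1] : V2) = 0 from h]
    simp [lin]
  | succ n ih =>
    intro P hP hd
    obtain ⟨q₀, h0, h1⟩ := r2_root hd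
    obtain ⟨P', h2, h3, rfl⟩ := r2_div hP hd h0 h1
    obtain ⟨q, h4, rfl⟩ := ih P' h2 h3
    refine ⟨Fin.cons q₀ q, fun s => Fin.cases h0 h4 s, ?_⟩
    rw [Fin.prod_univ_succ (n := n + 1)]
    simp

theorem r2_Fac : SpFac := by
  refine ⟨fun n P hn hP hd => ?_, fun n P q₀ hn hP hd h0 h1 => ?_⟩
  · obtain ⟨k, rfl⟩ : ∃ k, n = k + 1 := ⟨n - 1, by omega⟩
    exact r2_fac k P hP hd
  · obtain ⟨k, rfl⟩ : ∃ k, n = k + 1 := ⟨n - 1, by omega⟩
    obtain ⟨P', h2, h3, rfl⟩ := r2_div hP hd h0 h1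
    obtain ⟨q, h4, rfl⟩ := r2_fac k P' h2 h3
    exact ⟨q, h4, rfl⟩

theorem r2_res_mul {f₁ f₂ g : Qb[X]} {m₁ m₂ e : ℕ} (h₁ : f₁.natDegree ≤ m₁)
    (h₂ : f₂.natDegree ≤ m₂) (hg : g.natDegree ≤ e) :
    resultant (f₁ * f₂) g (m₁ + m₂) e = resultant f₁ g m₁ e * resultant f₂ g m₂ e := by
  obtain ⟨a, rfl⟩ := Nat.exists_eq_add_of_le h₁
  obtain ⟨b, rfl⟩ := Nat.exists_eq_add_of_le h₂
  rw [add_add_add_comm, resultant_add_left_deg _ _ _ _ _ natDegree_mul_le,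
    resultant_add_left_deg _ _ _ _ _ le_rfl, resultant_add_left_deg _ _ _ _ _ le_rfl,
    resultant_mul_left _ _ _ _ hg]
  ring

theorem r2_res_lin {q : V2} {g : Qb[X]} {e : ℕ} (hg : g.natDegree ≤ e) :
    resultant (lin q) g 1 e = hev e g q := by
  by_cases h : q 1 = 0
  · rw [r2_lin_zero h, resultant_C_left, r2_hev_zero _ _ h, one_mul, pow_one, mul_right_comm,
      ← mul_pow]
    simp [mul_comm]
  · rw [r2_lin_ne h, resultant_C_mul_left, resultant_X_sub_C_left _ _ _ hg, r2_hev_ne hg h]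

theorem r2_Res : SpRes := by
  intro n e q Ψ hq hΨ
  clear hq
  induction n with
  | zero => simp
  | succ n ih =>
    rw [Fin.prod_univ_succ, Fin.prod_univ_succ, ← ih, ← r2_res_lin hΨ,
      ← r2_res_mul (r2_lin_deg _) (r2_prod_deg _) hΨ, add_comm 1 n]

end Pool.Agent.MP_216eb3_nt.GIT
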