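import Pool.Agent.MP_216eb3_nt.GIT.Spec

/-! Transvectants are covariants, by the symbolic method. -/

set_option autoImplicit false

namespace Pool.Agent.MP_216eb3_nt.GIT

open Polynomial Finset

theorem r3_hev_sum {ι : Type} (N : ℕ) (s : Finset ι) (P : ι → Qb[X]) (z : V2) :
    hev N (∑ x ∈ s, P x) z = ∑ x ∈ s, hev N (P x) z := by
  simp only [hev, finsetSum_coeff, sum_mul]
  exact sum_comm

theorem r3_hev_mon (N k : ℕ) (hk : k ≤ N) (a : Qb) (z : V2) :
    hev N (C a * X ^ k) z = a * z 0 ^ k * z 1 ^ (N - k) := by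
  unfold hev
  rw [sum_eq_single k]
  · simp
  · intro i _ hi
    simp [coeff_X_pow, hi]
  · intro h
    exact absurd (mem_range.2 (by omega)) h

theorem r3_pure (r t : ℕ) (a b a' b' x y : Qb) :
    ∑ s ∈ range (r + 1), ∑ i ∈ range (t + 1), ∑ j ∈ range (t + 1),
      (-1) ^ s * (r.choose s : Qb) * (t.choose i : Qb) * (t.choose j : Qb) *
        (a ^ (r - s + i) * b ^ (r + t - (r - s + i))) * (a' ^ (s + j) * b' ^ (r + t - (s + j))) *
        x ^ (i + j) * y ^ (2 * t - (i + j)) =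
      (a * b' - b * a') ^ r * (a * x + b * y) ^ t * (a' * x + b' * y) ^ t := by
  have e : a * b' - b * a' = -(b * a') + a * b' := by ring
  rw [e, add_pow, add_pow, add_pow, mul_assoc, sum_mul_sum, sum_mul]
  refine sum_congr rfl fun s hs => ?_
  rw [mul_sum]
  refine sum_congr rfl fun i hi => ?_
  rw [mul_sum]
  refine sum_congr rfl fun j hj => ?_
  have hs' := mem_range.1 hs
  have hi' := mem_range.1 hi
  have hj' := mem_range.1 hj
  have e1 : r + t - (r - s + i) = s + (t - i) := by omega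
  have e2 : r + t - (s + j) = r - s + (t - j) := by omega
  have e3 : 2 * t - (i + j) = t - i + (t - j) := by omega
  rw [e1, e2, e3, neg_pow (b * a')]
  simp only [pow_add, mul_pow]
  ring

theorem r3_main {ι : Type} [Fintype ι] (r t : ℕ) (lam a b : ι → Qb) (φ : ℕ → Qb)
    (h : ∀ i ≤ r + t, φ i = ∑ m, lam m * (a m ^ i * b m ^ (r + t - i))) (z : V2) :
    hev (2 * t) (Tr (r + t) r φ) z = ∑ m, ∑ m', lam m * lam m' *
      ((a m * b m' - b m * a m') ^ r * (a m * z 0 + b m * z 1) ^ t *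
        (a m' * z 0 + b m' * z 1) ^ t) := by
  simp only [← r3_pure, mul_sum]
  simp only [sum_comm (s := (univ : Finset ι)) (t := range _)]
  rw [Tr, Nat.add_sub_cancel_left, r3_hev_sum]
  refine sum_congr rfl fun s hs => ?_
  rw [r3_hev_sum]
  refine sum_congr rfl fun i hi => ?_
  rw [r3_hev_sum]
  refine sum_congr rfl fun j hj => ?_
  have hs' := mem_range.1 hs
  have hi' := mem_range.1 hi
  have hj' := mem_range.1 hj
  rw [r3_hev_mon _ _ (by omega), h _ (by omega), h _ (by omega),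
    mul_assoc _ (univ.sum _) (univ.sum _), sum_mul_sum]
  simp only [mul_sum, sum_mul]
  refine sum_congr rfl fun m _ => sum_congr rfl fun m' _ => ?_
  ring

theorem r3_exists (n : ℕ) (φ : ℕ → Qb) : ∃ lam : Fin (n + 1) → Qb,
    ∀ i ≤ n, φ i = ∑ m, lam m * (((m : ℕ) : Qb) ^ i * 1 ^ (n - i)) := by
  have hd : (Matrix.vandermonde fun m : Fin (n + 1) => ((m : ℕ) : Qb)).det ≠ 0 :=
    Matrix.det_vandermonde_ne_zero_iff.2 fun m m' e => Fin.ext (Nat.cast_injective e)
  obtain ⟨lam, hl⟩ := Matrix.vecMul_surjective_iff_isUnit.2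
    ((Matrix.isUnit_iff_isUnit_det _).2 hd.isUnit) fun i : Fin (n + 1) => φ i
  refine ⟨lam, fun i hi => ?_⟩
  have := congrFun hl ⟨i, by omega⟩
  simpa [Matrix.vecMul, dotProduct] using this.symm

theorem r3_coeff (n i : ℕ) (hi : i ≤ n) (P : Qb[X]) : P.coeff i = n.choose i * hat n P i := by
  have : (n.choose i : Qb) ≠ 0 := Nat.cast_ne_zero.2 (Nat.choose_pos hi).ne'
  simp [hat, this]

theorem r3_expand {ι : Type} [Fintype ι] (n : ℕ) (lam a b : ι → Qb) (x y : Qb) :
    ∑ m, lam m * (a m * x + b m * y) ^ n = ∑ i ∈ range (n + 1),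
      (n.choose i * ∑ m, lam m * (a m ^ i * b m ^ (n - i))) * x ^ i * y ^ (n - i) := by
  simp only [add_pow, mul_sum, sum_mul]
  rw [sum_comm]
  refine sum_congr rfl fun i _ => sum_congr rfl fun m _ => ?_
  simp only [mul_pow]
  ring

theorem r3_uniq (n : ℕ) (u v : ℕ → Qb)
    (h : ∀ x : Qb, ∑ i ∈ range (n + 1), u i * x ^ i = ∑ i ∈ range (n + 1), v i * x ^ i)
    (i : ℕ) (hi : i ≤ n) : u i = v i := by
  have e : ∑ i ∈ range (n + 1), monomial i (u i) = ∑ i ∈ range (n + 1), monomial i (v i) :=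
    Polynomial.funext fun x => by simpa [eval_finsetSum] using h x
  have := congrArg (fun p => coeff p i) e
  simpa [finsetSum_coeff, coeff_monomial, Nat.lt_succ_of_le hi] using this

theorem r3_Tr : SpTr := by
  intro n r P P' g hr hg h z
  obtain ⟨t, rfl⟩ := Nat.exists_eq_add_of_le hr
  obtain ⟨lam, hl⟩ := r3_exists (r + t) (hat (r + t) P)
  have h0 : ∀ w : V2, g.mulVec w 0 = g 0 0 * w 0 + g 0 1 * w 1 := fun w => by
    simp [Matrix.mulVec, dotProduct]
  have h1 : ∀ w : V2, g.mulVec w 1 = g 1 0 * w 0 + g 1 1 * w 1 := fun w => by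
    simp [Matrix.mulVec, dotProduct]
  have hl' : ∀ i ≤ r + t, hat (r + t) P' i = ∑ m : Fin (r + t + 1), lam m *
      ((((m : ℕ) : Qb) * g 0 0 + g 1 0) ^ i * (((m : ℕ) : Qb) * g 0 1 + g 1 1) ^ (r + t - i)) := by
    intro i hi
    have hc : ((r + t).choose i : Qb) ≠ 0 := Nat.cast_ne_zero.2 (Nat.choose_pos hi).ne'
    refine mul_left_cancel₀ hc ?_
    rw [← r3_coeff _ _ hi]
    refine r3_uniq (r + t) P'.coeff (fun i => (r + t).choose i * ∑ m : Fin (r + t + 1), lam m *
      ((((m : ℕ) : Qb) * g 0 0 + g 1 0) ^ i * (((m : ℕ) : Qb) * g 0 1 + g 1 1) ^ (r + t - i)))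
      (fun x => ?_) i hi
    have e1 := r3_expand (r + t) lam (fun m => ((m : ℕ) : Qb) * g 0 0 + g 1 0)
      (fun m => ((m : ℕ) : Qb) * g 0 1 + g 1 1) x 1
    have e2 := r3_expand (r + t) lam (fun m => ((m : ℕ) : Qb)) (fun _ => 1)
      (g.mulVec ![x, 1] 0) (g.mulVec ![x, 1] 1)
    have e3 : hev (r + t) P (g.mulVec ![x, 1]) = ∑ m : Fin (r + t + 1), lam m *
        (((m : ℕ) : Qb) * g.mulVec ![x, 1] 0 + 1 * g.mulVec ![x, 1] 1) ^ (r + t) := by
      rw [e2]
      refine sum_congr rfl fun i hi => ?_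
      have hi' : i ≤ r + t := Nat.lt_succ_iff.1 (mem_range.1 hi)
      rw [r3_coeff _ _ hi', hl i hi']
    have e4 : hev (r + t) P' ![x, 1] = ∑ i ∈ range (r + t + 1), P'.coeff i * x ^ i := by
      simp [hev]
    simp only [one_pow, mul_one] at e1
    rw [← e4, h, e3, ← e1]
    refine sum_congr rfl fun m _ => ?_
    rw [h0, h1]
    congr 2
    simp only [Matrix.cons_val_zero, Matrix.cons_val_one]
    ring
  rw [Nat.add_sub_cancel_left, r3_main r t lam _ _ _ hl', r3_main r t lam _ _ _ hl]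
  rw [Matrix.det_fin_two] at hg
  refine sum_congr rfl fun m _ => sum_congr rfl fun m' _ => ?_
  rw [h0, h1]
  congr 3
  · congr 1
    linear_combination (((m : ℕ) : Qb) - ((m' : ℕ) : Qb)) * hg
  · congr 1
    ring
  · ring

end Pool.Agent.MP_216eb3_nt.GIT
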