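import Pool.Agent.MP_216eb3_nt.GIT.Basic

set_option autoImplicit false

namespace Pool.Agent.MP_216eb3_nt.GIT

open Polynomial Finset

/-- derivative of a form of degree `n + 1` in the first variable -/
noncomputable def r4_d0 (n : ℕ) (P : Qb[X]) (z : V2) : Qb :=
  ∑ i ∈ range (n + 1), ((i : Qb) + 1) * P.coeff (i + 1) * z 0 ^ i * z 1 ^ (n - i)

/-- derivative of a form of degree `n + 1` in the second variable -/
noncomputable def r4_d1 (n : ℕ) (P : Qb[X]) (z : V2) : Qb :=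
  ∑ i ∈ range (n + 1), (((n + 1 : ℕ) : Qb) - i) * P.coeff i * z 0 ^ i * z 1 ^ (n - i)

/-- a form along a line -/
noncomputable def r4_T (d : ℕ) (P : Qb[X]) (z e : V2) : Qb[X] :=
  ∑ i ∈ range (d + 1),
    C (P.coeff i) * (C (z 0) + C (e 0) * X) ^ i * (C (z 1) + C (e 1) * X) ^ (d - i)

theorem r4_eval (d : ℕ) (P : Qb[X]) (z e : V2) (t : Qb) :
    (r4_T d P z e).eval t = hev d P (z + t • e) := by
  unfold r4_T hev
  rw [eval_finsetSum]
  refine sum_congr rfl fun i _ => ?_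
  simp [mul_comm t]

theorem r4_der (n : ℕ) (P : Qb[X]) (z e : V2) :
    (derivative (r4_T (n + 1) P z e)).eval 0 = e 0 * r4_d0 n P z + e 1 * r4_d1 n P z := by
  have h : (derivative (r4_T (n + 1) P z e)).eval 0 =
      ∑ i ∈ range (n + 1 + 1), e 0 * ((i : Qb) * P.coeff i * z 0 ^ (i - 1) * z 1 ^ (n + 1 - i)) +
      ∑ i ∈ range (n + 1 + 1),
        e 1 * (((n + 1 - i : ℕ) : Qb) * P.coeff i * z 0 ^ i * z 1 ^ (n + 1 - i - 1)) := by
    unfold r4_T
    rw [derivative_sum, eval_finsetSum, ← sum_add_distrib]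
    refine sum_congr rfl fun i _ => ?_
    simp [derivative_mul, derivative_pow]
    ring
  rw [h, sum_range_succ', sum_range_succ _ (n + 1), r4_d0, r4_d1, mul_sum, mul_sum]
  simp only [Nat.cast_zero, zero_mul, mul_zero, add_zero, Nat.sub_self]
  congr 1
  · refine sum_congr rfl fun i _ => ?_
    rw [Nat.add_sub_cancel, Nat.add_sub_add_right, Nat.cast_succ]
  · refine sum_congr rfl fun i hi => ?_
    have := mem_range.1 hi
    rw [Nat.cast_sub (by omega), show n + 1 - i - 1 = n - i by omega]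

theorem r4_Gp (n : ℕ) (c : Cf (n + 1) → Qb) (z : V2) :
    hev n (Gp c) z = r4_d0 n (pol c 0) z + r4_d1 n (pol c 1) z := by
  unfold hev r4_d0 r4_d1
  rw [← sum_add_distrib]
  refine sum_congr rfl fun i _ => ?_
  rw [Gp_coeff]
  ring

theorem r4_chain {n : ℕ} {g : M2} {c c' : Cf (n + 1) → Qb} (h : Conj g c c') (z e : V2)
    (r : Fin 2) :
    g r 0 * (e 0 * r4_d0 n (pol c' 0) z + e 1 * r4_d1 n (pol c' 0) z) +
      g r 1 * (e 0 * r4_d0 n (pol c' 1) z + e 1 * r4_d1 n (pol c' 1) z) =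
    (g 0 0 * e 0 + g 0 1 * e 1) * r4_d0 n (pol c r) (g.mulVec z) +
      (g 1 0 * e 0 + g 1 1 * e 1) * r4_d1 n (pol c r) (g.mulVec z) := by
  have h1 : C (g r 0) * r4_T (n + 1) (pol c' 0) z e + C (g r 1) * r4_T (n + 1) (pol c' 1) z e =
      r4_T (n + 1) (pol c r) (g.mulVec z) (g.mulVec e) := by
    refine Polynomial.funext fun t => ?_
    rw [eval_add, eval_mul, eval_mul, eval_C, eval_C, r4_eval, r4_eval, r4_eval, hev_pol, hev_pol,
      hev_pol, ← Matrix.mulVec_smul, ← Matrix.mulVec_add, ← h]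
    simp [Matrix.mulVec, dotProduct, Fin.sum_univ_two]
  have h2 := congrArg (fun P => (derivative P).eval 0) h1
  simp only [derivative_add, derivative_C_mul, eval_add, eval_mul, eval_C, r4_der] at h2
  rw [h2]
  simp [Matrix.mulVec, dotProduct, Fin.sum_univ_two]

theorem r4_Div : SpDiv := by
  intro n g c c' hg h z
  have h00 := r4_chain h z ![1, 0] 0
  have h10 := r4_chain h z ![1, 0] 1
  have h01 := r4_chain h z ![0, 1] 0
  have h11 := r4_chain h z ![0, 1] 1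
  simp only [Matrix.cons_val_zero, Matrix.cons_val_one] at h00 h10 h01 h11
  rw [Matrix.det_fin_two] at hg
  rw [r4_Gp, r4_Gp]
  linear_combination g 1 1 * h00 - g 0 1 * h10 - g 1 0 * h01 + g 0 0 * h11 -
    (r4_d0 n (pol c' 0) z + r4_d1 n (pol c' 1) z - r4_d0 n (pol c 0) (g.mulVec z) -
      r4_d1 n (pol c 1) (g.mulVec z)) * hg

theorem r4_lin {v : AV} {A : ℝ} (h : Adm ∅ v A) {a b : Qb} (ha : v a ≤ 1) (hb : v b ≤ 1)
    (k : ℕ) {P : Qb[X]} {B : ℝ} (hP : ∀ i, v (P.coeff i) ≤ B) (i : ℕ) :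
    v (((C a * X + C b) ^ k * P).coeff i) ≤ A ^ k * B := by
  induction k generalizing i with
  | zero => simpa using hP i
  | succ k ih =>
    have h0 : ∀ (x : Qb) (j : ℕ), v x ≤ 1 →
        v (x * ((C a * X + C b) ^ k * P).coeff j) ≤ A ^ k * B := fun x j hx => by
      rw [v.map_mul]
      exact (mul_le_of_le_one_left (v.nonneg _) hx).trans (ih j)
    rw [pow_succ', mul_assoc, add_mul, coeff_add, mul_assoc, coeff_C_mul, coeff_C_mul, pow_succ',
      mul_assoc]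
    refine h.add_le ?_ (h0 b i hb)
    cases i with
    | zero => simpa using (v.nonneg _).trans (ih 0)
    | succ i => rw [coeff_X_mul]; exact h0 a i ha

theorem r4_hev_lin (a b : Qb) (k : ℕ) (z : V2) :
    ((C a * X + C b) ^ k).natDegree ≤ k ∧ hev k ((C a * X + C b) ^ k) z = (a * z 0 + b * z 1) ^ k := by
  have h1 : (C a * X + C b).natDegree ≤ 1 := by compute_degree
  refine ⟨natDegree_pow_le.trans (by simpa using Nat.mul_le_mul_left k h1), ?_⟩
  have h2 := hev_pow h1 k z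
  rw [mul_one] at h2
  rw [h2]
  congr 1
  simp [hev, sum_range_succ, coeff_C]
  ring

/-- the substituted form -/
noncomputable def r4_U {d : ℕ} (g : M2) (c : Cf d → Qb) (r : Fin 2) : Qb[X] :=
  ∑ j : Fin (d + 1), C (c (r, j)) *
    ((C (g 0 0) * X + C (g 0 1)) ^ (j : ℕ) * (C (g 1 0) * X + C (g 1 1)) ^ (d - (j : ℕ)))

theorem r4_hev_U {d : ℕ} (g : M2) (c : Cf d → Qb) (r : Fin 2) (z : V2) :
    hev d (r4_U g c r) z = ev c (g.mulVec z) r := by
  unfold r4_U ev
  rw [hev_sum]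
  refine sum_congr rfl fun j _ => ?_
  have h := hev_mul (r4_hev_lin (g 0 0) (g 0 1) j z).1 (r4_hev_lin (g 1 0) (g 1 1) (d - j) z).1 z
  rw [show (j : ℕ) + (d - j) = d by have := j.2; omega, (r4_hev_lin _ _ _ z).2,
    (r4_hev_lin _ _ _ z).2] at h
  rw [hev_C_mul, h, mul_assoc]
  simp [Matrix.mulVec, dotProduct, Fin.sum_univ_two]

theorem r4_bd_U {d : ℕ} {v : AV} {A : ℝ} (h : Adm ∅ v A) {g : M2} (hg : ∀ i j, v (g i j) ≤ 1)
    (c : Cf d → Qb) (r : Fin 2) (i : ℕ) :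
    v ((r4_U g c r).coeff i) ≤ A ^ (d + 1) * (A ^ d * nrm v c) := by
  unfold r4_U
  rw [finsetSum_coeff]
  refine (h.sum_le univ _ (mul_nonneg (pow_nonneg h.pos.le d) (nrm_nonneg v c))
    fun j _ => ?_).trans (by simp)
  have h1 : ∀ i, v ((1 : Qb[X]).coeff i) ≤ 1 := fun i => by
    rw [coeff_one]
    split_ifs <;> simp
  have h2 := r4_lin h (hg 1 0) (hg 1 1) (d - j) h1
  simp only [mul_one] at h2
  have h3 := r4_lin h (hg 0 0) (hg 0 1) j h2 i
  rw [← pow_add, show (j : ℕ) + (d - j) = d by have := j.2; omega] at h3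
  rw [coeff_C_mul, v.map_mul, mul_comm]
  exact mul_le_mul h3 (le_nrm v c _) (v.nonneg _) (pow_nonneg h.pos.le d)

theorem r4_Conj : SpConj := by
  intro d
  refine ⟨1 + (d + 1 + d), fun g c hg => ?_⟩
  let W : Fin 2 → Qb[X] := ![C (g 1 1) * r4_U g c 0 - C (g 0 1) * r4_U g c 1,
    C (g 0 0) * r4_U g c 1 - C (g 1 0) * r4_U g c 0]
  refine ⟨fun x => (W x.1).coeff x.2, fun z => ?_, fun v A h hv => ?_⟩
  · have h1 : ∀ r, ev (fun x : Cf d => (W x.1).coeff x.2) z r = hev d (W r) z := fun r =>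
      Fin.sum_univ_eq_sum_range (fun i => (W r).coeff i * z 0 ^ i * z 1 ^ (d - i)) (d + 1)
    have h2 : ∀ r, g.mulVec (ev (fun x : Cf d => (W x.1).coeff x.2) z) r =
        g r 0 * hev d (W 0) z + g r 1 * hev d (W 1) z := fun r => by
      rw [← h1, ← h1]
      simp [Matrix.mulVec, dotProduct, Fin.sum_univ_two]
    have h3 : hev d (W 0) z = g 1 1 * ev c (g.mulVec z) 0 - g 0 1 * ev c (g.mulVec z) 1 := by
      rw [← r4_hev_U, ← r4_hev_U, ← hev_C_mul, ← hev_C_mul, ← hev_sub]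
      rfl
    have h4 : hev d (W 1) z = g 0 0 * ev c (g.mulVec z) 1 - g 1 0 * ev c (g.mulVec z) 0 := by
      rw [← r4_hev_U, ← r4_hev_U, ← hev_C_mul, ← hev_C_mul, ← hev_sub]
      rfl
    rw [Matrix.det_fin_two] at hg
    refine funext (Fin.forall_fin_two.2 ⟨?_, ?_⟩)
    · rw [h2, h3, h4]
      linear_combination ev c (g.mulVec z) 0 * hg
    · rw [h2, h3, h4]
      linear_combination ev c (g.mulVec z) 1 * hg
  · have h0 : ∀ (a b r : Fin 2) (i : ℕ), v ((C (g a b) * r4_U g c r).coeff i) ≤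
        A ^ (d + 1) * (A ^ d * nrm v c) := fun a b r i => by
      rw [coeff_C_mul, v.map_mul]
      exact (mul_le_of_le_one_left (v.nonneg _) (hv a b)).trans (r4_bd_U h hv c r i)
    have h1 : ∀ (r : Fin 2) (i : ℕ), v ((W r).coeff i) ≤ A * (A ^ (d + 1) * (A ^ d * nrm v c)) :=
      Fin.forall_fin_two.2 ⟨fun i => by
        show v ((_ - _ : Qb[X]).coeff i) ≤ _
        rw [coeff_sub]
        exact h.sub_le (h0 _ _ _ i) (h0 _ _ _ i), fun i => by
        show v ((_ - _ : Qb[X]).coeff i) ≤ _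
        rw [coeff_sub]
        exact h.sub_le (h0 _ _ _ i) (h0 _ _ _ i)⟩
    refine nrm_le v (mul_nonneg (pow_nonneg h.pos.le _) (nrm_nonneg v c)) fun x => ?_
    exact (h1 x.1 x.2).trans (le_of_eq (by ring))

end Pool.Agent.MP_216eb3_nt.GIT
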