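import Pool.Agent.MP_216eb3_nt.GIT.R6a

set_option autoImplicit false

namespace Pool.Agent.MP_216eb3_nt.GIT

open Polynomial Finset

/-- small natural numbers and their inverses are bounded by `A` -/
def r6_Bd (L : ℕ) (v : AV) (A : ℝ) : Prop :=
  ∀ m : ℕ, m ≤ L → v (m : Qb) ≤ A ∧ v ((m : Qb)⁻¹) ≤ A

theorem r6_Tr_zero (n r : ℕ) (φ : ℕ → Qb) :
    (Tr n r φ).coeff 0 = ∑ s ∈ range (r + 1), (-1) ^ s * (r.choose s : Qb) * φ (r - s) * φ s := by
  unfold Tr
  simp only [finsetSum_coeff, coeff_C_mul_X_pow]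
  refine sum_congr rfl fun s _ => ?_
  rw [sum_eq_single 0 (fun i _ hi => sum_eq_zero fun j _ => if_neg (by omega)) (by simp),
    sum_eq_single 0 (fun j _ hj => if_neg (by omega)) (by simp)]
  simp

section est
variable {v : AV} {A η : ℝ}

theorem r6_ind (h : Adm ∅ v A) (D m₀ J : ℕ) (hb : r6_Bd (2 ^ D) v A) (h0 : 0 ≤ η) (h1 : η ≤ 1)
    (φ : ℕ → Qb) (hφ : ∀ i, i ≤ D → v (φ i) ≤ A ^ m₀)
    (hτ : ∀ j, 2 * j ≤ D → v ((Tr D (2 * j) φ).coeff 0) ≤ A ^ m₀ * η ^ 2 ^ J) :
    ∀ j, j ≤ J → ∀ i, i < j → 2 * i ≤ D →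
      v (φ i) ≤ A ^ (j * (D + 4 + m₀)) * η ^ 2 ^ (J - j) := by
  have hA := h.pos
  intro j
  induction j with
  | zero => intro _ i hi; omega
  | succ j ih =>
    intro hj i hi hiD
    have ih' := ih (by omega)
    have he : 2 ^ (J - j) = 2 ^ (J - (j + 1)) * 2 := by
      rw [← pow_succ]; congr 1; omega
    rcases Nat.lt_succ_iff_lt_or_eq.1 hi with hi | rfl
    · refine (ih' i hi hiD).trans (mul_le_mul (h.pow_le (Nat.mul_le_mul_right _ (by omega)))
        (pow_le_pow_of_le_one h0 h1 (by rw [he]; omega)) (by positivity) (by positivity))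
    · set B := A ^ (i * (D + 4 + m₀)) * η ^ 2 ^ (J - i) with hB
      have hB0 : 0 ≤ B := by positivity
      have hch : ∀ s, (2 * i).choose s ≤ 2 ^ D := fun s =>
        (Nat.choose_le_two_pow _ _).trans (Nat.pow_le_pow_right two_pos hiD)
      have hterm : ∀ s ∈ (range (2 * i + 1)).erase i,
          v ((-1) ^ s * ((2 * i).choose s : Qb) * φ (2 * i - s) * φ s) ≤ A * (A ^ m₀ * B) := by
        intro s hs
        obtain ⟨hsi, hs⟩ := mem_erase.1 hs
        have hs := mem_range.1 hs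
        rw [map_mul, map_mul, map_mul, map_pow, v.map_neg, map_one, one_pow, one_mul, mul_assoc]
        refine mul_le_mul (hb _ (hch s)).1 ?_ (by positivity) hA.le
        rcases lt_or_gt_of_ne hsi with hlt | hgt
        · exact mul_le_mul (hφ _ (by omega)) (ih' s hlt (by omega)) (v.nonneg _) (by positivity)
        · rw [mul_comm]
          exact mul_le_mul (hφ _ (by omega)) (ih' _ (by omega) (by omega)) (v.nonneg _)
            (by positivity)
      have hsum := h.sum_le _ _ (by positivity) hterm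
      have hcard : ((range (2 * i + 1)).erase i).card ≤ D := by
        rw [card_erase_of_mem (mem_range.2 (by omega)), card_range]; omega
      have hsum' := hsum.trans (mul_le_mul_of_nonneg_right (h.pow_le hcard) (by positivity))
      have hτ' : v ((Tr D (2 * i) φ).coeff 0) ≤ A ^ D * (A * (A ^ m₀ * B)) := by
        refine (hτ i hiD).trans ?_
        have e1 : η ^ 2 ^ J ≤ B := by
          refine (pow_le_pow_of_le_one h0 h1 (Nat.pow_le_pow_right two_pos (Nat.sub_le J i))).trans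
            (le_mul_of_one_le_left (by positivity) (h.one_le_pow _))
        refine (mul_le_mul_of_nonneg_left e1 (by positivity)).trans ?_
        refine (le_mul_of_one_le_left (by positivity) h.one).trans ?_
        exact le_mul_of_one_le_left (by positivity) (h.one_le_pow _)
      have hd := h.sub_le hτ' hsum'
      rw [r6_Tr_zero, ← add_sum_erase _ _ (mem_range.2 (show i < 2 * i + 1 by omega)),
        add_sub_cancel_right, show 2 * i - i = i by omega, map_mul, map_mul, map_mul, map_pow,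
        v.map_neg, map_one, one_pow, one_mul] at hd
      have hne : (((2 * i).choose i : ℕ) : Qb) ≠ 0 :=
        Nat.cast_ne_zero.2 (Nat.choose_pos (by omega)).ne'
      have hinv : v ((((2 * i).choose i : ℕ) : Qb)⁻¹) * v (((2 * i).choose i : ℕ) : Qb) = 1 := by
        rw [← map_mul, inv_mul_cancel₀ hne, map_one]
      have hsq : v (φ i) ^ 2 ≤ A * (A * (A ^ D * (A * (A ^ m₀ * B)))) := by
        calc v (φ i) ^ 2 = v ((((2 * i).choose i : ℕ) : Qb)⁻¹) *
              (v (((2 * i).choose i : ℕ) : Qb) * v (φ i) * v (φ i)) := by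
              rw [← mul_assoc, ← mul_assoc, hinv]; ring
          _ ≤ _ := mul_le_mul (hb _ (hch i)).2 hd (by positivity) hA.le
      refine le_of_pow_le_pow_left₀ two_ne_zero (by positivity) (hsq.trans ?_)
      have hx : D + 3 + m₀ + i * (D + 4 + m₀) ≤ (i + 1) * (D + 4 + m₀) * 2 := by
        rw [add_mul i, one_mul]; omega
      rw [hB, he, pow_mul η, mul_pow, ← pow_mul A]
      calc _ = A ^ (D + 3 + m₀ + i * (D + 4 + m₀)) * (η ^ 2 ^ (J - (i + 1))) ^ 2 := by ring
        _ ≤ _ := mul_le_mul_of_nonneg_right (h.pow_le hx) (by positivity)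

variable {n : ℕ}

theorem r6_two (n : ℕ) : n + 2 ≤ 2 ^ (n + 2) := Nat.lt_two_pow_self.le

theorem r6_big (h : Adm ∅ v A) (hb : r6_Bd (2 ^ (n + 2)) v A) (c : Cf (n + 1) → Qb)
    (hc : nrm v c = 1) : ∃ k i, k < 2 ∧ 1 ≤ A ^ 3 * v ((r6_Ph k c).coeff i) := by
  have hA := h.pos
  by_contra hcon
  push Not at hcon
  have hF : ∀ i, A ^ 3 * v ((Fp c).coeff i) < 1 := fun i => by
    simpa [r6_Ph] using hcon 0 i (by omega)
  have hG : ∀ i, A ^ 3 * v ((Gp c).coeff i) < 1 := fun i => by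
    simpa [r6_Ph] using hcon 1 i (by omega)
  have hn2 : ((n + 2 : ℕ) : Qb) ≠ 0 := Nat.cast_ne_zero.2 (by omega)
  have key : ∀ (x y z : Qb) (m : ℕ), m ≤ n + 2 → A ^ 3 * v y < 1 → A ^ 3 * v z < 1 →
      ((n + 2 : ℕ) : Qb) * x = y + m * z → v x < 1 := by
    intro x y z m hm hy hz e
    have e' : x = ((n + 2 : ℕ) : Qb)⁻¹ * (y + m * z) := by
      rw [← e, ← mul_assoc, inv_mul_cancel₀ hn2, one_mul]
    have hM : 0 ≤ max (v y) (v z) := le_max_of_le_left (v.nonneg _)
    have h1 : v y ≤ A * max (v y) (v z) :=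
      (le_max_left _ _).trans (le_mul_of_one_le_left hM h.one)
    have h2 : v (m * z) ≤ A * max (v y) (v z) := by
      rw [map_mul]
      exact mul_le_mul (hb m (hm.trans (r6_two n))).1 (le_max_right _ _) (v.nonneg _) hA.le
    have h3 : v x ≤ A * (A * (A * max (v y) (v z))) := by
      rw [e', map_mul]
      exact mul_le_mul (hb _ (r6_two n)).2 (h.add_le h1 h2) (v.nonneg _) hA.le
    refine h3.trans_lt ?_
    rcases le_total (v y) (v z) with hh | hh
    · rw [max_eq_right hh]; linarith [show A * (A * (A * v z)) = A ^ 3 * v z by ring]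
    · rw [max_eq_left hh]; linarith [show A * (A * (A * v y)) = A ^ 3 * v y by ring]
  obtain ⟨⟨r, i⟩, hj⟩ := exists_nrm v c
  rw [hc, ← pol_coeff_fin c] at hj
  have hi := i.2
  generalize (i : ℕ) = i at hj hi
  refine absurd hj (ne_of_lt ?_)
  fin_cases r
  · rcases i with _ | i
    · have := hF 0
      rw [Fp_coeff_zero] at this
      exact (le_mul_of_one_le_left (v.nonneg _) (h.one_le_pow 3)).trans_lt this
    · refine key _ _ _ (n + 1 - i) (by omega) (hG i) (hF (i + 1)) ?_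
      rw [Gp_coeff, Fp_coeff_succ, Nat.cast_sub (by omega)]
      push_cast
      ring
  · refine key _ _ (-(Fp c).coeff (i + 1)) (i + 1) (by omega) (hG i)
      (by rw [v.map_neg]; exact hF (i + 1)) ?_
    rw [Gp_coeff, Fp_coeff_succ]
    push_cast
    ring

theorem r6_coef (h : Adm ∅ v A) (hb : r6_Bd (2 ^ (n + 2)) v A) (c : Cf (n + 1) → Qb) {B : ℝ}
    (hc : nrm v c ≤ B) (k i : ℕ) : v ((r6_Ph k c).coeff i) ≤ A ^ 2 * B := by
  have hA := h.pos
  have hB : 0 ≤ B := (nrm_nonneg v c).trans hc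
  have hp : ∀ r i, v ((pol c r).coeff i) ≤ B := fun r i => by
    rw [pol_coeff]
    split_ifs
    · exact (le_nrm v c _).trans hc
    · simpa using hB
  have hAB : B ≤ A * B := le_mul_of_one_le_left hB h.one
  have hAB' : A * B ≤ A ^ 2 * B := by
    rw [pow_two, mul_assoc]; exact le_mul_of_one_le_left (by positivity) h.one
  unfold r6_Ph
  split_ifs
  · rcases i with _ | i
    · rw [Fp_coeff_zero]; exact (hp _ _).trans (hAB.trans hAB')
    · rw [Fp_coeff_succ]; exact (h.sub_le (hp _ _) (hp _ _)).trans hAB'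
  · by_cases hi : i ≤ n
    · rw [Gp_coeff, pow_two, mul_assoc, ← Nat.cast_sub (by omega), ← Nat.cast_succ]
      have h2 := r6_two n
      refine h.add_le ?_ ?_ <;> rw [map_mul]
      · exact mul_le_mul (hb _ (by omega)).1 (hp _ _) (v.nonneg _) hA.le
      · exact mul_le_mul (hb _ (by omega)).1 (hp _ _) (v.nonneg _) hA.le
    · rw [coeff_eq_zero_of_natDegree_lt ((natDegree_Gp c).trans_lt (by omega)), map_zero]
      positivity

theorem r6_norm (v : AV) {q : V2} (hq : q ≠ 0) : ∃ (t : Qb) (g : M2), g.det = 1 ∧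
    (∀ i j, v (g i j) ≤ 1) ∧ q = t • g.mulVec ![0, 1] ∧ ∀ j, v (q j) ≤ v t := by
  rcases le_total (v (q 0)) (v (q 1)) with hh | hh
  · have h1 : q 1 ≠ 0 := fun e => hq (by
      have : q 0 = 0 := by
        rw [e, map_zero] at hh
        exact v.eq_zero.1 (le_antisymm hh (v.nonneg _))
      ext i; fin_cases i <;> simp [e, this])
    refine ⟨q 1, !![1, q 0 / q 1; 0, 1], by simp, fun i j => ?_, ?_, fun j => ?_⟩
    · fin_cases i <;> fin_cases j <;> simp [div_le_one (v.pos h1), hh]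
    · ext i; fin_cases i
      · simp; field_simp
      · simp
    · fin_cases j <;> simp [hh]
  · have h1 : q 0 ≠ 0 := fun e => hq (by
      have : q 1 = 0 := by
        rw [e, map_zero] at hh
        exact v.eq_zero.1 (le_antisymm hh (v.nonneg _))
      ext i; fin_cases i <;> simp [e, this])
    refine ⟨q 0, !![0, 1; -1, q 1 / q 0], by simp, fun i j => ?_, ?_, fun j => ?_⟩
    · fin_cases i <;> fin_cases j <;> simp [div_le_one (v.pos h1), hh]
    · ext i; fin_cases i
      · simp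
      · simp; field_simp
    · fin_cases j <;> simp [hh]

end est

theorem r6_root (hG : SpGauss) (hF : SpFac) (hR : SpRes) {n : ℕ} (hn : 1 ≤ n) :
    ∃ M : ℕ, ∀ (v : AV) (A η : ℝ) (e₁ : ℕ) (c : Cf (n + 1) → Qb), Adm ∅ v A →
      r6_Bd (2 ^ (n + 2)) v A → 0 ≤ η → η ≤ 1 → nrm v c = 1 →
      (∀ k i, k < 2 → v ((r6_Res k c).coeff i) ≤ η ^ (e₁ * (n + 2))) →
      ∃ g : M2, g.det = 1 ∧ (∀ i j, v (g i j) ≤ 1) ∧ ∀ a, a < n + 4 →
        v (hev (r6_e0 n) (r6_Ep a c) (g.mulVec ![0, 1])) ≤ A ^ M * η ^ e₁ := by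
  obtain ⟨m, hm⟩ := hG (n + 4)
  refine ⟨(3 + m) * r6_e0 n + m, fun v A η e₁ c h hb h0 h1 hc hRes => ?_⟩
  have hA := h.pos
  obtain ⟨hm1, hm2⟩ := hm v A h
  obtain ⟨k, i, hk, hi⟩ := r6_big h hb c hc
  have hci : (r6_Ph k c).coeff i ≠ 0 := fun e => by
    rw [e, map_zero, mul_zero] at hi
    exact absurd hi (by norm_num)
  have hP0 : r6_Ph k c ≠ 0 := fun e => hci (by rw [e, coeff_zero])
  have hiD : i ≤ r6_dg n k := (le_natDegree_of_ne_zero hci).trans (r6_natDegree_Ph k c)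
  have hD1 := r6_dg_pos hn k
  have hD2 := r6_dg_le n k
  obtain ⟨q, hq, hP⟩ := hF.1 _ _ hD1 hP0 (r6_natDegree_Ph k c)
  choose t g hg1 hg2 hg3 hg4 using fun s => r6_norm v (hq s)
  have hcard : (univ : Finset (Fin (r6_dg n k))).card = r6_dg n k := by simp
  have h2 := hm2 _ univ (fun s => q s 1) (fun s => -q s 0) (fun s => v (t s)) 1 1
    (by rw [hcard]; omega) zero_le_one zero_le_one
    (fun s _ => ⟨v.nonneg _, by rw [mul_one]; exact hg4 s 1,
      by rw [mul_one, v.map_neg]; exact hg4 s 0⟩) i (by rw [hcard]; exact hiD)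
  have hlin : ∏ s, (C (q s 1) * X + C (-q s 0)) = r6_Ph k c := by
    rw [hP]
    exact prod_congr rfl fun s _ => by rw [lin, map_neg, sub_eq_add_neg]
  rw [hlin, one_pow, one_pow, mul_one, mul_one] at h2
  have h3 : 1 ≤ A ^ (3 + m) * ∏ s, v (t s) := by
    rw [pow_add, mul_assoc]
    exact hi.trans (mul_le_mul_of_nonneg_left h2 (by positivity))
  by_contra hcon
  push Not at hcon
  choose a ha1 ha2 using fun s => hcon (g s) (hg1 s) (hg2 s)
  have h4 := hm1 _ univ (fun s => r6_pt c (q s)) a (η ^ (e₁ * (n + 2))) (by rw [hcard]; omega)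
    (fun s _ => r6_natDegree_pt c (q s))
    (fun i => by rw [← r6_Res_prod hR k c q hq hP]; exact hRes k i hk)
  set f : Fin (r6_dg n k) → ℝ :=
    fun s => v (hev (r6_e0 n) (r6_Ep (a s) c) ((g s).mulVec ![0, 1])) with hf
  have hf0 : ∀ s, 0 ≤ f s := fun s => v.nonneg _
  have h5 : ∏ s, v ((r6_pt c (q s)).coeff (a s)) = (∏ s, v (t s)) ^ r6_e0 n * ∏ s, f s := by
    rw [← prod_pow, ← prod_mul_distrib]
    refine prod_congr rfl fun s _ => ?_
    rw [r6_pt_coeff c _ (ha1 s)]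
    conv_lhs => rw [hg3 s, hev_smul, map_mul, map_pow]
  rw [h5] at h4
  have hf1 : 0 ≤ ∏ s, f s := prod_nonneg fun s _ => hf0 s
  have h6 : ∏ s, f s ≤ A ^ ((3 + m) * r6_e0 n + m) * η ^ (e₁ * (n + 2)) := by
    calc ∏ s, f s ≤ (A ^ (3 + m) * ∏ s, v (t s)) ^ r6_e0 n * ∏ s, f s :=
          le_mul_of_one_le_left hf1 (one_le_pow₀ h3)
      _ = A ^ ((3 + m) * r6_e0 n) * ((∏ s, v (t s)) ^ r6_e0 n * ∏ s, f s) := by
          rw [mul_pow, ← pow_mul, mul_assoc]
      _ ≤ A ^ ((3 + m) * r6_e0 n) * (A ^ m * η ^ (e₁ * (n + 2))) :=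
          mul_le_mul_of_nonneg_left h4 (by positivity)
      _ = _ := by rw [pow_add, mul_assoc]
  obtain ⟨s₀, -, hs₀⟩ := exists_min_image univ f ⟨⟨0, hD1⟩, mem_univ _⟩
  have h7 : f s₀ ^ r6_dg n k ≤ ∏ s, f s := by
    have := prod_le_prod (s := univ) (f := fun _ => f s₀) (fun _ _ => hf0 s₀) hs₀
    rwa [prod_const, hcard] at this
  have h8 := pow_lt_pow_left₀ (ha2 s₀) (by positivity) (show r6_dg n k ≠ 0 by omega)
  refine absurd (h8.trans_le (h7.trans h6)) (not_lt.2 ?_)
  rw [mul_pow, ← pow_mul, ← pow_mul]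
  exact mul_le_mul (h.pow_le (Nat.le_mul_of_pos_right _ hD1))
    (pow_le_pow_of_le_one h0 h1 (Nat.mul_le_mul_left _ hD2)) (by positivity) (by positivity)

theorem r6_L1 (hG : SpGauss) (hF : SpFac) (hR : SpRes) (hT : SpTr) (hD : SpDiv) (hC : SpConj) :
    SpL1 := by
  classical
  intro n hn
  obtain ⟨M, hM⟩ := r6_root hG hF hR hn
  obtain ⟨mC, hmC⟩ := hC (n + 1)
  set x : Cf (n + 1) → MvPolynomial (Cf (n + 1)) Qb := MvPolynomial.X with hx
  set RR : Finset (MvPolynomial (Cf (n + 1)) Qb) :=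
    (range 2).biUnion (fun k => (r6_Res k x).coeffs) ∪ (range (n + 4)).image fun a => r6_Z a x
    with hRR
  have hφ : ∀ (c : Cf (n + 1) → Qb) (y : Qb), MvPolynomial.eval c
      (algebraMap Qb (MvPolynomial (Cf (n + 1)) Qb) y) = algebraMap Qb Qb y := fun c y => by simp
  have hevR : ∀ (c : Cf (n + 1) → Qb) k i,
      MvPolynomial.eval c ((r6_Res k x).coeff i) = (r6_Res k c).coeff i := fun c k i => by
    rw [← coeff_map, r6_Res_map _ (hφ c)]
    simp [hx]
  have hevZ : ∀ (c : Cf (n + 1) → Qb) a, MvPolynomial.eval c (r6_Z a x) = r6_Z a c := fun c a => by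
    rw [r6_Z_map _ (hφ c)]
    simp [hx]
  have hinv : ∀ r ∈ RR, IsInv r ∧ MvPolynomial.constantCoeff r = 0 := by
    intro r hr
    rw [← MvPolynomial.eval_zero']
    rcases mem_union.1 hr with hr | hr
    · obtain ⟨k, -, hr⟩ := mem_biUnion.1 hr
      obtain ⟨i, -, rfl⟩ := mem_coeffs_iff.1 hr
      refine ⟨fun g c c' hg h => ?_, ?_⟩
      · rw [hevR, hevR, r6_Res_inv hF hR hT hD hn hg h]
      · rw [hevR, r6_Res_zero _ _ (r6_Ph_zero k), coeff_zero]
    · obtain ⟨a, -, rfl⟩ := mem_image.1 hr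
      refine ⟨fun g c c' hg h => ?_, ?_⟩
      · rw [hevZ, hevZ, r6_Z_inv hT hD hg h]
      · rw [hevZ, r6_Z_zero]
  have he0 := r6_e0_pos n
  refine ⟨RR.card, fun a => (RR.equivFin.symm a : _),
    (range (2 ^ (n + 2) + 1)).image (fun m : ℕ => (m : Qb)) ∪
      (range (2 ^ (n + 2) + 1)).image (fun m : ℕ => (m : Qb)⁻¹),
    mC + ((n + 2) * (n + 2 + 4 + (M + mC + 3)) + 1), 2 ^ (n + 2) * r6_e0 n * (n + 2),
    by positivity, fun a => hinv _ (RR.equivFin.symm a).2, fun v A η c hA h0 h1 hc hsm => ?_⟩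
  have h := hA.empty
  have hApos := h.pos
  have hb : r6_Bd (2 ^ (n + 2)) v A := fun m hm =>
    ⟨hA.bd _ (mem_union_left _ (mem_image_of_mem _ (mem_range.2 (by omega)))),
      hA.bd _ (mem_union_right _ (mem_image_of_mem _ (mem_range.2 (by omega))))⟩
  have hsm' : ∀ r ∈ RR, v (MvPolynomial.eval c r) ≤ η ^ (2 ^ (n + 2) * r6_e0 n * (n + 2)) :=
    fun r hr => by simpa using hsm (RR.equivFin ⟨r, hr⟩)
  obtain ⟨g, hg1, hg2, hg3⟩ := hM v A η (2 ^ (n + 2) * r6_e0 n) c h hb h0 h1 hc fun k i hk => by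
    rw [← hevR]
    by_cases e : (r6_Res k x).coeff i = 0
    · rw [e, map_zero, map_zero]; positivity
    · exact hsm' _ (mem_union_left _ (mem_biUnion.2 ⟨k, mem_range.2 hk, coeff_mem_coeffs e⟩))
  obtain ⟨c', hc', hn'⟩ := hmC g c hg1
  have hn' := hn' v A h hg2
  rw [hc, mul_one] at hn'
  have hE : ∀ a, a < n + 4 → 2 * (a / 2) ≤ r6_dg n a →
      v ((r6_E a c').coeff 0) ≤ A ^ M * η ^ 2 ^ (n + 2) := by
    intro a ha ha2
    rcases ha2.lt_or_eq with hlt | heq
    · have h3 := hg3 a ha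
      rw [r6_hev_Ep hlt, ← r6_E_cov hT hD hg1 hc' ha2, hev_o, map_pow] at h3
      have hu := r6_div_mul hlt
      have hu1 : r6_e0 n / r6_o n a ≠ 0 := fun e => by rw [e, zero_mul] at hu; omega
      refine le_of_pow_le_pow_left₀ hu1 (by positivity) (h3.trans ?_)
      rw [mul_pow, ← pow_mul, ← pow_mul]
      exact mul_le_mul (h.pow_le (Nat.le_mul_of_pos_right _ (Nat.pos_of_ne_zero hu1)))
        (pow_le_pow_of_le_one h0 h1 (Nat.mul_le_mul_left _ (Nat.div_le_self _ _)))
        (by positivity) (by positivity)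
    · have h3 := hsm' _ (mem_union_right _ (mem_image_of_mem _ (mem_range.2 ha)))
      rw [hevZ, ← r6_Z_inv hT hD hg1 hc', r6_Z, if_pos heq] at h3
      refine h3.trans ((pow_le_pow_of_le_one h0 h1 ?_).trans
        (le_mul_of_one_le_left (by positivity) (h.one_le_pow _)))
      rw [mul_assoc]
      exact Nat.le_mul_of_pos_right _ (by positivity)
  have hfin : ∀ k, k < 2 → ∀ i, 2 * i ≤ r6_dg n k → v ((r6_Ph k c').coeff i) ≤
      A ^ (mC + ((n + 2) * (n + 2 + 4 + (M + mC + 3)) + 1)) * η := by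
    intro k hk i hi
    have hD2 := r6_dg_le n k
    have hpw : 2 ^ r6_dg n k ≤ 2 ^ (n + 2) := Nat.pow_le_pow_right two_pos hD2
    have hch : ∀ s, (r6_dg n k).choose s ≤ 2 ^ (n + 2) := fun s =>
      (Nat.choose_le_two_pow _ _).trans hpw
    have h3 := r6_ind h (r6_dg n k) (M + mC + 3) (n + 2) (fun m hm => hb m (hm.trans hpw)) h0 h1
      (hat (r6_dg n k) (r6_Ph k c')) (fun s _ => by
        rw [hat, map_mul]
        refine (mul_le_mul (hb _ (hch s)).2 (r6_coef h hb c' hn' k s) (v.nonneg _)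
          hApos.le).trans ?_
        calc A * (A ^ 2 * A ^ mC) = A ^ (mC + 3) := by ring
          _ ≤ _ := h.pow_le (by omega))
      (fun j hj => by
        have e1 : r6_dg n (2 * j + k) = r6_dg n k := by
          unfold r6_dg; rw [show (2 * j + k) % 2 = k % 2 by omega]
        have e2 : r6_Ph (2 * j + k) c' = r6_Ph k c' := by
          unfold r6_Ph; rw [show (2 * j + k) % 2 = k % 2 by omega]
        have e3 : (2 * j + k) / 2 = j := by omega
        have h4 := hE (2 * j + k) (by omega) (by rw [e1, e3]; exact hj)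
        rw [r6_E, e1, e2, e3] at h4
        exact h4.trans (mul_le_mul_of_nonneg_right (h.pow_le (by omega)) (by positivity)))
      (n + 2) le_rfl i (by omega) hi
    rw [Nat.sub_self, pow_zero, pow_one] at h3
    have hne : (((r6_dg n k).choose i : ℕ) : Qb) ≠ 0 :=
      Nat.cast_ne_zero.2 (Nat.choose_pos (by omega)).ne'
    have e : (r6_Ph k c').coeff i =
        ((r6_dg n k).choose i : ℕ) * hat (r6_dg n k) (r6_Ph k c') i := by
      rw [hat, Algebra.algebraMap_self_apply, ← mul_assoc, mul_inv_cancel₀ hne, one_mul]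
    rw [e, map_mul]
    refine (mul_le_mul (hb _ (hch i)).1 h3 (v.nonneg _) hApos.le).trans ?_
    rw [← mul_assoc, ← pow_succ']
    refine mul_le_mul_of_nonneg_right (h.pow_le ?_) h0
    have := Nat.mul_le_mul_left (n + 2)
      (show r6_dg n k + 4 + (M + mC + 3) ≤ n + 2 + 4 + (M + mC + 3) by omega)
    omega
  refine ⟨g, c', hg1, hc', hn'.trans (h.pow_le (by omega)), fun i hi => ?_, fun i hi => ?_⟩
  · simpa [r6_Ph] using hfin 0 (by omega) i (by simpa [r6_dg] using hi)
  · simpa [r6_Ph] using hfin 1 (by omega) i (by simpa [r6_dg] using hi)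

end Pool.Agent.MP_216eb3_nt.GIT
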