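import Pool.Agent.MP_216eb3_nt.GIT.Basic

set_option autoImplicit false

namespace Pool.Agent.MP_216eb3_nt.GIT

open Polynomial Finset

/-- degree of the form number `a` -/
def r6_dg (n a : ℕ) : ℕ := if a % 2 = 0 then n + 2 else n

/-- the common order -/
def r6_e0 (n : ℕ) : ℕ := (2 * n + 4).factorial

theorem r6_dg_le (n a : ℕ) : r6_dg n a ≤ n + 2 := by
  unfold r6_dg; split_ifs <;> omega

theorem r6_dg_pos {n : ℕ} (hn : 1 ≤ n) (a : ℕ) : 1 ≤ r6_dg n a := by
  unfold r6_dg; split_ifs <;> omega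

theorem r6_e0_pos (n : ℕ) : 0 < r6_e0 n := Nat.factorial_pos _

/-- order of the covariant number `a` -/
def r6_o (n a : ℕ) : ℕ := 2 * (r6_dg n a - 2 * (a / 2))

theorem r6_div_mul {n a : ℕ} (h : 2 * (a / 2) < r6_dg n a) :
    r6_e0 n / r6_o n a * r6_o n a = r6_e0 n := by
  refine Nat.div_mul_cancel (Nat.dvd_factorial ?_ ?_)
  · unfold r6_o; omega
  · have := r6_dg_le n a
    unfold r6_o; omega

section generic
variable {S : Type} [CommRing S] {n : ℕ}

/-- the form number `a` -/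
noncomputable def r6_Ph (a : ℕ) (c : Cf (n + 1) → S) : S[X] := if a % 2 = 0 then Fp c else Gp c

theorem r6_natDegree_Ph (a : ℕ) (c : Cf (n + 1) → S) : (r6_Ph a c).natDegree ≤ r6_dg n a := by
  unfold r6_Ph r6_dg
  split_ifs
  · exact natDegree_Fp c
  · exact natDegree_Gp c

theorem r6_Ph_zero (a : ℕ) : r6_Ph a (fun _ : Cf (n + 1) => (0 : S)) = 0 := by
  simp [r6_Ph, Fp, Gp, pol]

variable [Algebra Qb S]

/-- the covariant number `a` -/
noncomputable def r6_E (a : ℕ) (c : Cf (n + 1) → S) : S[X] :=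
  Tr (r6_dg n a) (2 * (a / 2)) (hat (r6_dg n a) (r6_Ph a c))

/-- covariants raised to the common order -/
noncomputable def r6_Ep (a : ℕ) (c : Cf (n + 1) → S) : S[X] :=
  if 2 * (a / 2) < r6_dg n a then r6_E a c ^ (r6_e0 n / r6_o n a) else 0

/-- covariants of order zero -/
noncomputable def r6_Z (a : ℕ) (c : Cf (n + 1) → S) : S :=
  if 2 * (a / 2) = r6_dg n a then (r6_E a c).coeff 0 else 0

/-- the generating form -/
noncomputable def r6_Psi (c : Cf (n + 1) → S) : S[X][X] :=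
  ∑ a ∈ range (n + 4), C (X ^ a) * (r6_Ep a c).map C

/-- the resultant with the generating form -/
noncomputable def r6_Res (k : ℕ) (c : Cf (n + 1) → S) : S[X] :=
  resultant ((r6_Ph k c).map C) (r6_Psi c) (r6_dg n k) (r6_e0 n)

theorem r6_natDegree_E (a : ℕ) (c : Cf (n + 1) → S) : (r6_E a c).natDegree ≤ r6_o n a :=
  natDegree_Tr _ _ _

theorem r6_natDegree_Ep (a : ℕ) (c : Cf (n + 1) → S) : (r6_Ep a c).natDegree ≤ r6_e0 n := by
  unfold r6_Ep
  split_ifs with h
  · refine natDegree_pow_le.trans ?_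
    calc _ ≤ r6_e0 n / r6_o n a * r6_o n a := Nat.mul_le_mul_left _ (r6_natDegree_E a c)
      _ = _ := r6_div_mul h
  · simp

theorem r6_Res_zero (k : ℕ) (c : Cf (n + 1) → S) (h : r6_Ph k c = 0) : r6_Res k c = 0 := by
  rw [r6_Res, h, Polynomial.map_zero, resultant_zero_left, zero_pow (r6_e0_pos n).ne', zero_mul]

theorem r6_Z_zero (a : ℕ) : r6_Z a (fun _ : Cf (n + 1) => (0 : S)) = 0 := by
  unfold r6_Z r6_E
  rw [r6_Ph_zero]
  simp [Tr, hat]

variable {S' : Type} [CommRing S'] [Algebra Qb S'] (φ : S →+* S')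

omit [Algebra Qb S] [Algebra Qb S'] in
theorem r6_Ph_map (a : ℕ) (c : Cf (n + 1) → S) :
    (r6_Ph a c).map φ = r6_Ph a (fun x => φ (c x)) := by
  unfold r6_Ph
  split_ifs
  · exact Fp_map φ c
  · exact Gp_map φ c

variable (hφ : ∀ x, φ (algebraMap Qb S x) = algebraMap Qb S' x)
include hφ

theorem r6_E_map (a : ℕ) (c : Cf (n + 1) → S) :
    (r6_E a c).map φ = r6_E a (fun x => φ (c x)) := by
  unfold r6_E
  rw [Tr_map, ← r6_Ph_map]
  congr 1
  funext i
  simp [hat, hφ]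

theorem r6_Ep_map (a : ℕ) (c : Cf (n + 1) → S) :
    (r6_Ep a c).map φ = r6_Ep a (fun x => φ (c x)) := by
  unfold r6_Ep
  split_ifs
  · rw [Polynomial.map_pow, r6_E_map φ hφ]
  · simp

theorem r6_Z_map (a : ℕ) (c : Cf (n + 1) → S) : φ (r6_Z a c) = r6_Z a (fun x => φ (c x)) := by
  unfold r6_Z
  split_ifs
  · rw [← r6_E_map φ hφ, coeff_map]
  · simp

theorem r6_Res_map (k : ℕ) (c : Cf (n + 1) → S) :
    (r6_Res k c).map φ = r6_Res k (fun x => φ (c x)) := by
  have hC : ∀ P : S[X], (P.map C).map (mapRingHom φ) = (P.map φ).map C := fun P => by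
    rw [Polynomial.map_map, Polynomial.map_map]
    congr 1
    exact RingHom.ext fun x => by simp
  unfold r6_Res
  rw [← coe_mapRingHom, ← resultant_map_map, hC, r6_Ph_map]
  congr 1
  unfold r6_Psi
  rw [Polynomial.map_sum]
  refine sum_congr rfl fun a _ => ?_
  rw [Polynomial.map_mul, hC, r6_Ep_map φ hφ, map_C]
  simp

end generic

variable {n : ℕ}

/-- values of all covariants at a point, as the coefficients of one polynomial -/
noncomputable def r6_pt (c : Cf (n + 1) → Qb) (q : V2) : Qb[X] :=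
  ∑ a ∈ range (n + 4), C (hev (r6_e0 n) (r6_Ep a c) q) * X ^ a

theorem r6_pt_coeff (c : Cf (n + 1) → Qb) (q : V2) {a : ℕ} (ha : a < n + 4) :
    (r6_pt c q).coeff a = hev (r6_e0 n) (r6_Ep a c) q := by
  unfold r6_pt
  simp only [finsetSum_coeff, coeff_C_mul_X_pow]
  rw [sum_eq_single a (fun b _ hb => if_neg hb.symm) (fun h => absurd (mem_range.2 ha) h),
    if_pos rfl]

theorem r6_natDegree_pt (c : Cf (n + 1) → Qb) (q : V2) : (r6_pt c q).natDegree ≤ n + 4 :=
  natDegree_sum_le_of_forall_le _ _ fun _ ha =>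
    (natDegree_C_mul_X_pow_le _ _).trans (mem_range.1 ha).le

theorem r6_Res_prod (hR : SpRes) (k : ℕ) (c : Cf (n + 1) → Qb) (q : Fin (r6_dg n k) → V2)
    (hq : ∀ s, q s ≠ 0) (h : r6_Ph k c = ∏ s, lin (q s)) :
    r6_Res k c = ∏ s, r6_pt c (q s) := by
  refine Polynomial.funext fun t => ?_
  have hC : ∀ P : Qb[X], (P.map C).map (evalRingHom t) = P := fun P => by
    have : (evalRingHom t).comp C = RingHom.id Qb := RingHom.ext fun x => by simp
    rw [Polynomial.map_map, this, Polynomial.map_id]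
  have hP : (r6_Psi c).map (evalRingHom t) = ∑ a ∈ range (n + 4), C (t ^ a) * r6_Ep a c := by
    unfold r6_Psi
    rw [Polynomial.map_sum]
    refine sum_congr rfl fun a _ => ?_
    rw [Polynomial.map_mul, hC, map_C]
    simp
  rw [r6_Res, ← coe_evalRingHom, ← resultant_map_map, hC, hP, h, hR _ _ q _ hq
    (natDegree_sum_le_of_forall_le _ _ fun a _ =>
      (natDegree_C_mul_le _ _).trans (r6_natDegree_Ep a c)), map_prod]
  refine prod_congr rfl fun s _ => ?_
  rw [hev_sum, r6_pt, map_sum]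
  refine sum_congr rfl fun a _ => ?_
  rw [hev_C_mul, coe_evalRingHom, eval_mul, eval_C, eval_pow, eval_X, mul_comm]

section cov
variable {g : M2} {c c' : Cf (n + 1) → Qb}

theorem r6_Ph_cov (hD : SpDiv) (hg : g.det = 1) (h : Conj g c c') (a : ℕ) (z : V2) :
    hev (r6_dg n a) (r6_Ph a c') z = hev (r6_dg n a) (r6_Ph a c) (g.mulVec z) := by
  unfold r6_dg r6_Ph
  split_ifs
  · exact h.Fp hg z
  · exact hD n g c c' hg h z

theorem r6_E_cov (hT : SpTr) (hD : SpDiv) (hg : g.det = 1) (h : Conj g c c') {a : ℕ}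
    (ha : 2 * (a / 2) ≤ r6_dg n a) (z : V2) :
    hev (r6_o n a) (r6_E a c') z = hev (r6_o n a) (r6_E a c) (g.mulVec z) :=
  hT _ _ _ _ g ha hg (r6_Ph_cov hD hg h a) z

theorem r6_hev_Ep {a : ℕ} (ha : 2 * (a / 2) < r6_dg n a) (c : Cf (n + 1) → Qb) (z : V2) :
    hev (r6_e0 n) (r6_Ep a c) z = hev (r6_o n a) (r6_E a c) z ^ (r6_e0 n / r6_o n a) := by
  rw [r6_Ep, if_pos ha, ← hev_pow (r6_natDegree_E a c), r6_div_mul ha]

theorem r6_Ep_cov (hT : SpTr) (hD : SpDiv) (hg : g.det = 1) (h : Conj g c c') (a : ℕ) (z : V2) :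
    hev (r6_e0 n) (r6_Ep a c') z = hev (r6_e0 n) (r6_Ep a c) (g.mulVec z) := by
  by_cases ha : 2 * (a / 2) < r6_dg n a
  · rw [r6_hev_Ep ha, r6_hev_Ep ha, r6_E_cov hT hD hg h ha.le]
  · rw [r6_Ep, r6_Ep, if_neg ha, if_neg ha, hev_zero, hev_zero]

theorem r6_Z_inv (hT : SpTr) (hD : SpDiv) (hg : g.det = 1) (h : Conj g c c') (a : ℕ) :
    r6_Z a c' = r6_Z a c := by
  unfold r6_Z
  split_ifs with ha
  · have := r6_E_cov hT hD hg h ha.le 0
    have h0 : r6_o n a = 0 := by unfold r6_o; omega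
    rw [h0] at this
    simpa [hev] using this
  · rfl

theorem r6_Res_inv (hF : SpFac) (hR : SpRes) (hT : SpTr) (hD : SpDiv) (hn : 1 ≤ n)
    (hg : g.det = 1) (h : Conj g c c') (k : ℕ) : r6_Res k c' = r6_Res k c := by
  by_cases h0 : r6_Ph k c = 0
  · rw [r6_Res_zero k c h0, r6_Res_zero k c']
    refine hev_ext (r6_natDegree_Ph k c') (by simp) fun x => ?_
    rw [r6_Ph_cov hD hg h, h0, hev_zero, hev_zero]
  · obtain ⟨q, hq, hP⟩ := hF.1 _ _ (r6_dg_pos hn k) h0 (r6_natDegree_Ph k c)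
    have hg0 : g.det ≠ 0 := by rw [hg]; exact one_ne_zero
    have hb : ∀ w : V2, g.mulVec (g⁻¹.mulVec w) = w := fun w => by
      rw [Matrix.mulVec_mulVec, Matrix.mul_nonsing_inv _ hg0.isUnit, Matrix.one_mulVec]
    have hP' : r6_Ph k c' = ∏ s, lin (g⁻¹.mulVec (q s)) := by
      refine hev_ext (r6_natDegree_Ph k c') (natDegree_prod_lin _) fun x => ?_
      rw [r6_Ph_cov hD hg h, hP, hev_prod_lin, hev_prod_lin]
      refine prod_congr rfl fun s _ => ?_
      conv_lhs => rw [← hb (q s), dt_mulVec, hg, one_mul]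
    rw [r6_Res_prod hR k c q hq hP, r6_Res_prod hR k c' _ (fun s =>
      mulVec_ne_zero (by rw [det_inv_one hg]; exact one_ne_zero) (hq s)) hP']
    refine prod_congr rfl fun s _ => ?_
    unfold r6_pt
    refine sum_congr rfl fun a _ => ?_
    rw [r6_Ep_cov hT hD hg h, hb]

end cov

end Pool.Agent.MP_216eb3_nt.GIT
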