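import Pool.Agent.MP_216eb3_nt.GIT.Spec

set_option autoImplicit false

namespace Pool.Agent.MP_216eb3_nt.GIT

open Finset MvPolynomial

theorem r7_sum {Γ : Finset Qb} {v : AV} {A B : ℝ} (h : Adm Γ v A) (hB : 0 ≤ B) {ι : Type}
    (s : Finset ι) (f : ι → Qb) (hf : ∀ a ∈ s, v (f a) ≤ B) :
    v (∑ a ∈ s, f a) ≤ A ^ s.card * B := by
  classical
  induction s using Finset.induction_on with
  | empty => simpa using hB
  | insert a s ha ih =>
    rw [sum_insert ha, card_insert_of_notMem ha, pow_succ', mul_assoc]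
    refine (h.tri _ _).trans (mul_le_mul_of_nonneg_left (max_le ?_
      (ih fun b hb => hf b (mem_insert_of_mem hb))) (zero_le_one.trans h.one))
    exact (hf a (mem_insert_self _ _)).trans (le_mul_of_one_le_left hB (one_le_pow₀ h.one))

theorem r7_le_nrm {ι : Type} [Finite ι] (v : AV) (x : ι → Qb) (i : ι) : v (x i) ≤ nrm v x :=
  le_ciSup (Finite.bddAbove_range fun i => v (x i)) i

theorem r7_nrm_nonneg {ι : Type} (v : AV) (x : ι → Qb) : 0 ≤ nrm v x :=
  Real.iSup_nonneg fun _ => v.nonneg _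

theorem r7_PB : SpPB := by
  classical
  intro σ _ Q
  refine ⟨Q.support.image fun d => Q.coeff d, Q.support.card + 1, fun v A c h => ?_⟩
  have A0 : 0 ≤ A := zero_le_one.trans h.one
  have key : ∀ B, 0 ≤ B → (∀ d ∈ Q.support, nrm v c ^ d.degree ≤ B) →
      v (eval c Q) ≤ A ^ (Q.support.card + 1) * B := fun B B0 hB => by
    rw [eval_eq, pow_succ, mul_assoc]
    refine r7_sum h (mul_nonneg A0 B0) _ _ fun d hd => ?_
    rw [map_mul, map_prod]
    refine mul_le_mul (h.bd _ (mem_image_of_mem _ hd)) (le_trans ?_ (hB d hd))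
      (prod_nonneg fun _ _ => v.nonneg _) A0
    rw [Finsupp.degree_apply, ← prod_pow_eq_pow_sum]
    refine prod_le_prod (fun _ _ => v.nonneg _) fun i _ => ?_
    rw [map_pow]
    exact pow_le_pow_left₀ (v.nonneg _) (r7_le_nrm v c i) _
  refine ⟨fun h1 => ?_, fun k hk => key _ (pow_nonneg (r7_nrm_nonneg v c) k) fun d hd => ?_⟩
  · simpa using key 1 zero_le_one fun d _ => pow_le_one₀ (r7_nrm_nonneg v c) h1
  · rw [by_contra fun e : ¬d.degree = k => mem_support_iff.1 hd (hk.coeff_eq_zero e)]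

theorem r7_smul {σ : Type} {Q : MvPolynomial σ Qb} {k : ℕ} (h : Q.IsHomogeneous k) (t : Qb)
    (c : σ → Qb) : eval (t • c) Q = eval c Q * t ^ k := by
  rw [eval_eq, eval_eq, sum_mul]
  refine sum_congr rfl fun d hd => ?_
  rw [← by_contra fun e : ¬d.degree = k => mem_support_iff.1 hd (h.coeff_eq_zero e),
    Finsupp.degree_apply, ← prod_pow_eq_pow_sum, mul_assoc, ← prod_mul_distrib]
  exact congrArg _ (prod_congr rfl fun i _ => by rw [Pi.smul_apply, smul_eq_mul, mul_comm, mul_pow])

theorem r7_ev_smul {d : ℕ} (t : Qb) (c : Cf d → Qb) (z : V2) : ev (t • c) z = t • ev c z := by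
  funext r
  simp [ev, mul_sum, mul_assoc]

theorem r7_conj_smul {d : ℕ} {g : M2} {c c' : Cf d → Qb} (h : Conj g c c') (t : Qb) :
    Conj g (t • c) (t • c') := fun z => by
  rw [r7_ev_smul, r7_ev_smul, Matrix.mulVec_smul, h z]

theorem r7_comp {d : ℕ} {R : MvPolynomial (Cf d) Qb} (h : IsInv R) (i : ℕ) :
    IsInv (homogeneousComponent i R) := by
  intro g c c' hg hc
  have e : ∀ (c : Cf d → Qb) t, Polynomial.eval t (∑ j ∈ range (R.totalDegree + 1),
      Polynomial.monomial j (eval c (homogeneousComponent j R))) = eval (t • c) R := fun c t => by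
    conv_rhs => rw [← sum_homogeneousComponent R]
    rw [Polynomial.eval_finsetSum, map_sum]
    exact sum_congr rfl fun j _ => by
      rw [Polynomial.eval_monomial, r7_smul (homogeneousComponent_isHomogeneous j R)]
  have := congrArg (Polynomial.coeff · i) (Polynomial.funext fun t =>
    ((e c' t).trans (h g _ _ hg (r7_conj_smul hc t))).trans (e c t).symm)
  simp only [Polynomial.finsetSum_coeff, Polynomial.coeff_monomial, sum_ite_eq', mem_range] at this
  split_ifs at this with hi
  · exact this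
  · rw [homogeneousComponent_eq_zero _ _ (by omega), map_zero, map_zero]

theorem r7_Null (hP : SpPB) : SpNull := by
  classical
  intro d R hR h0
  have a : ∀ c, IsNull c → eval c R = 0 := fun c hc => by
    rw [← sum_homogeneousComponent R, map_sum]
    refine sum_eq_zero fun j _ => ?_
    rcases j.eq_zero_or_pos with rfl | hj
    · rw [homogeneousComponent_zero, ← constantCoeff_eq, h0, map_zero, map_zero]
    · exact hc j _ hj (homogeneousComponent_isHomogeneous j R) (r7_comp hR j)
  refine ⟨a, fun M k I hI => ?_⟩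
  have b : R ∈ (Ideal.span (Set.range I)).radical := by
    rw [← vanishingIdeal_zeroLocus_eq_radical (K := Qb), zeroLocus_span]
    exact fun c hc => a c (hI.null c fun j => hc _ ⟨j, rfl⟩)
  obtain ⟨s, hs⟩ := b
  obtain ⟨q, hq⟩ := Ideal.mem_span_range_iff_exists_fun.1 (Ideal.mul_mem_left _ R hs)
  choose Γ m hm using fun j => hP _ (q j)
  refine ⟨s + 1, univ.biUnion Γ, (univ : Finset (Fin M)).card + univ.sup m, s.succ_pos,
    fun v A c h h1 => ?_⟩
  rw [← map_pow, ← map_pow, pow_succ', ← hq, map_sum, pow_add, mul_assoc]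
  refine r7_sum h (mul_nonneg (pow_nonneg (zero_le_one.trans h.one) _) (r7_nrm_nonneg _ _)) _ _
    fun j _ => ?_
  rw [map_mul, map_mul]
  exact mul_le_mul (((hm j v A c ⟨h.one, h.tri, fun γ hγ =>
    h.bd γ (mem_biUnion.2 ⟨j, mem_univ j, hγ⟩)⟩).1 h1).trans
      (pow_le_pow_right₀ h.one (le_sup (mem_univ j)))) (r7_le_nrm v (fun j => eval c (I j)) j)
    (v.nonneg _) (pow_nonneg (zero_le_one.trans h.one) _)

theorem r7_Ex : SpEx := by
  intro d
  obtain ⟨T, hT, e⟩ := (Submodule.fg_span_iff_fg_span_finset_subset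
    {J : MvPolynomial (Cf d) Qb | ∃ m, 0 < m ∧ J.IsHomogeneous m ∧ IsInv J}).1
    (IsNoetherian.noetherian (R := MvPolynomial (Cf d) Qb) _)
  choose m m0 mh mi using fun J : T => hT J.2
  refine ⟨T.card, ∏ J, m J, fun j => (T.equivFin.symm j).1 ^ ((∏ J, m J) / m (T.equivFin.symm j)),
    prod_pos fun J _ => m0 J, fun j => ?_, fun j g c c' hg hc => ?_, fun c hc n J n0 hJ iJ => ?_⟩
  · have := (mh (T.equivFin.symm j)).pow ((∏ J, m J) / m (T.equivFin.symm j))
    rwa [Nat.mul_div_cancel' (dvd_prod_of_mem m (mem_univ _))] at this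
  · rw [map_pow, map_pow, mi _ g c c' hg hc]
  · have : Ideal.span (T : Set (MvPolynomial (Cf d) Qb)) ≤ RingHom.ker (eval c) :=
      Ideal.span_le.2 fun J hJ => by
        have := hc (T.equivFin ⟨J, hJ⟩)
        rw [Equiv.symm_apply_apply, map_pow] at this
        exact pow_eq_zero_iff'.1 this |>.1
    exact this (e.le (Submodule.subset_span ⟨n, n0, hJ, iJ⟩))

end Pool.Agent.MP_216eb3_nt.GIT
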