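import Pool.Agent.MP_216eb3_nt.GIT.Basic

set_option autoImplicit false

namespace Pool.Agent.MP_216eb3_nt.GIT

open Polynomial Finset

open Classical in
theorem r8_Unst (h : SpL1) (hN : SpNull) : SpUnst := by
  intro n hn c hc
  rcases eq_or_ne c 0 with rfl | h0
  · refine ⟨1, 0, Matrix.det_one, conj_one _, fun i _ => ?_, fun i _ => ?_⟩
    · simp [Fp, pol]
    · simp [Gp, pol]
  obtain ⟨N, R, Γ, m, e, he, hR, H⟩ := h n hn
  have htr : ∀ x : Qb, (AbsoluteValue.trivial : AV) x ≤ 1 := fun x =>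
    (adm_trivial {x}).bd x (mem_singleton_self x)
  have hn1 : nrm (AbsoluteValue.trivial : AV) c = 1 := by
    obtain ⟨j, hj⟩ := Function.ne_iff.1 h0
    refine le_antisymm (nrm_le _ zero_le_one fun i => htr _) ?_
    have := le_nrm (AbsoluteValue.trivial : AV) c j
    rwa [AbsoluteValue.trivial_apply hj] at this
  obtain ⟨g, c', hg, hcc, -, hF, hG⟩ := H AbsoluteValue.trivial 1 0 c (adm_trivial Γ) le_rfl
    zero_le_one hn1 (fun a => by
      rw [(hN _ (R a) (hR a).1 (hR a).2).1 c hc, map_zero]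
      exact pow_nonneg le_rfl _)
  have hz : ∀ x : Qb, (AbsoluteValue.trivial : AV) x ≤ 1 ^ m * 0 → x = 0 := fun x hx => by
    rw [mul_zero] at hx
    exact (AbsoluteValue.eq_zero _).1 (le_antisymm hx (AbsoluteValue.nonneg _ _))
  exact ⟨g, c', hg, hcc, fun i hi => hz _ (hF i hi), fun i hi => hz _ (hG i hi)⟩

/-- small coefficients of the two covariants give small coefficients of the map -/
theorem r8_small {n : ℕ} {Γ : Finset Qb} {v : AV} {A B : ℝ} (hA : Adm Γ v A)
    (hΓ : v ((n : Qb) + 2)⁻¹ ≤ A) (hB : 0 ≤ B) (c : Cf (n + 1) → Qb)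
    (hF : ∀ i, 2 * i ≤ n + 2 → v ((Fp c).coeff i) ≤ B)
    (hG : ∀ i, 2 * i ≤ n → v ((Gp c).coeff i) ≤ B) (x : Cf (n + 1))
    (hx : 2 * (x.2 : ℕ) + 2 * (x.1 : ℕ) ≤ n + 2) : v (c x) ≤ A ^ (n + 3) * B := by
  have h2 : ((n : Qb) + 2) ≠ 0 := by exact_mod_cast (by omega : n + 2 ≠ 0)
  have key : ∀ (y p q : Qb) (k : ℕ), k ≤ n + 1 → v p ≤ B → v q ≤ B →
      ((n : Qb) + 2) * y = p + k * q → v y ≤ A ^ (n + 3) * B := by
    intro y p q k hk hp hq e
    have e' : y = ((n : Qb) + 2)⁻¹ * (p + k * q) := by rw [← e, inv_mul_cancel_left₀ h2]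
    have h1 : v p ≤ A ^ (n + 1) * B := hp.trans (le_mul_of_one_le_left hB (hA.one_le_pow _))
    have h3 : v (k * q) ≤ A ^ (n + 1) * B := by
      rw [map_mul]
      exact mul_le_mul ((hA.nat_le k).trans (hA.pow_le hk)) hq (v.nonneg _)
        (pow_nonneg hA.pos.le _)
    rw [e', map_mul]
    calc _ ≤ A * (A * (A ^ (n + 1) * B)) :=
          mul_le_mul hΓ (hA.add_le h1 h3) (v.nonneg _) hA.pos.le
      _ = A ^ (n + 3) * B := by ring
  obtain ⟨r, i⟩ := x
  rw [← pol_coeff_fin c r i]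
  have hi := i.2
  generalize (i : ℕ) = j at hx hi ⊢
  fin_cases r
  · simp only [Fin.zero_eta] at hx ⊢
    rcases j with _ | j
    · rw [← Fp_coeff_zero]
      exact (hF 0 (by omega)).trans (le_mul_of_one_le_left hB (hA.one_le_pow _))
    · have hj : 2 * j ≤ n := by simp at hx; omega
      refine key _ _ _ (n + 1 - j) (by omega) (hG j hj) (hF (j + 1) (by omega)) ?_
      rw [Gp_coeff, Fp_coeff_succ, Nat.cast_sub (by omega)]
      push_cast
      ring
  · simp only [Fin.mk_one] at hx ⊢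
    have hj : 2 * j ≤ n := by simp at hx; omega
    refine key _ ((Gp c).coeff j) (-(Fp c).coeff (j + 1)) (j + 1) (by omega) (hG j hj)
      (by rw [v.map_neg]; exact hF (j + 1) (by omega)) ?_
    rw [Gp_coeff, Fp_coeff_succ]
    push_cast
    ring

/-- the effect of the diagonal matrix on one coefficient -/
theorem r8_diag {n : ℕ} {t : Qb} (ht : t ≠ 0) (y : Qb) (x : Cf (n + 1)) :
    y * t ^ (x.2 : ℕ) * t⁻¹ ^ (n + 1 - (x.2 : ℕ)) * (![t, t⁻¹] x.1)⁻¹ * t ^ (n + 2) =
      y * t ^ (2 * (x.2 : ℕ) + 2 * (x.1 : ℕ)) := by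
  obtain ⟨r, i⟩ := x
  have hi := i.2
  simp only
  generalize (i : ℕ) = j at hi ⊢
  obtain ⟨k, hk⟩ : ∃ k, n + 1 = j + k := ⟨n + 1 - j, by omega⟩
  have e1 : n + 1 - j = k := by omega
  have e2 : n + 2 = j + k + 1 := by omega
  rw [e1, e2, inv_pow]
  fin_cases r
  · simp only [Fin.zero_eta, Matrix.cons_val_zero, Fin.val_zero]
    field_simp
    ring
  · simp only [Fin.mk_one, Matrix.cons_val_one, Matrix.cons_val_zero, Fin.val_one, inv_inv]
    field_simp
    ring

theorem r8_L2 (h : SpL1) : SpL2 := by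
  classical
  intro n hn
  obtain ⟨N, R, Γ, m, e, he, hR, H⟩ := h n hn
  refine ⟨N, R, insert ((n : Qb) + 2)⁻¹ Γ, m + (n + 3 + m), (n + 3) * e, by positivity, hR, ?_⟩
  intro v A η c hA h0 h1 hc hn1 hRe
  have hA' : Adm Γ v A := hA.mono (subset_insert _ _)
  have hAp := hA.pos
  obtain ⟨g, c', hg, hcc, hn', hF, hG⟩ := H v A (η ^ (n + 3)) c hA' (pow_nonneg h0 _)
    (pow_le_one₀ h0 h1) hn1 (fun a => by rw [← pow_mul]; exact hRe a)
  have hs := r8_small hA (hA.bd _ (mem_insert_self _ _)) (by positivity) c' hF hG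
  have hc' : IsRat c' := hc.conj (by rw [hg]; exact one_ne_zero) hcc
  obtain ⟨x₀, hx₀, hmax⟩ := exists_max_image
    (univ.filter fun x : Cf (n + 1) => 2 * (x.2 : ℕ) + 2 * (x.1 : ℕ) ≤ n + 2) (fun x => v (c' x))
    ⟨(0, 0), by simp⟩
  have hξ : c' x₀ ≠ 0 := fun e0 => by
    have hz : ∀ r : Fin 2, c' (r, 0) = 0 := fun r => by
      have := hmax (r, 0) (by have := r.2; simp; omega)
      rw [e0, map_zero] at this
      exact (AbsoluteValue.eq_zero _).1 (le_antisymm this (v.nonneg _))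
    exact hc'.at_o (hz 0) (hz 1)
  have hb : v (c' x₀) ≤ A ^ (n + 3 + m) * η ^ (n + 3) := by
    refine (hs x₀ (mem_filter.1 hx₀).2).trans_eq ?_
    ring
  have hone : 1 ≤ A ^ (n + 3 + m) := hA.one_le_pow _
  rcases le_total (v (c' x₀)) 1 with hle | hge
  · obtain ⟨t, ht⟩ := IsAlgClosed.exists_pow_nat_eq (c' x₀) (show 0 < n + 3 by omega)
    have ht0 : t ≠ 0 := fun e0 => hξ (by rw [← ht, e0, zero_pow (by omega)])
    have hw : 0 < v t := v.pos ht0
    have hwt : v t ^ (n + 3) = v (c' x₀) := by rw [← ht, map_pow]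
    have hw1 : v t ≤ 1 := by
      rw [← hwt] at hle
      exact (pow_le_one_iff_of_nonneg hw.le (by omega)).1 hle
    have hwη : v t ≤ A ^ (n + 3 + m) * η := by
      refine (pow_le_pow_iff_left₀ hw.le (by positivity) (show n + 3 ≠ 0 by omega)).1 ?_
      rw [hwt, mul_pow]
      exact hb.trans (mul_le_mul_of_nonneg_right (le_self_pow₀ hone (by omega)) (by positivity))
    refine ⟨g * !![t, 0; 0, t⁻¹], _, ?_, hcc.mul (conj_diag c' ht0 (inv_ne_zero ht0)), ?_⟩
    · rw [Matrix.det_mul, hg, one_mul, Matrix.det_fin_two_of, mul_inv_cancel₀ ht0]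
      simp
    · refine nrm_le _ (by positivity) fun x => ?_
      have e1 := congrArg v (r8_diag ht0 (c' x) x)
      rw [map_mul v _ (t ^ (n + 2)), map_mul v (c' x), map_pow, map_pow] at e1
      have e2 : v (c' x) * v t ^ (2 * (x.2 : ℕ) + 2 * (x.1 : ℕ)) ≤ A ^ m * v t ^ (n + 3) := by
        by_cases hx : 2 * (x.2 : ℕ) + 2 * (x.1 : ℕ) ≤ n + 2
        · have := hmax x (mem_filter.2 ⟨mem_univ _, hx⟩)
          rw [← hwt] at this
          calc _ ≤ v t ^ (n + 3) * 1 :=
                mul_le_mul this (pow_le_one₀ hw.le hw1) (by positivity) (by positivity)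
            _ ≤ A ^ m * v t ^ (n + 3) := by
                rw [mul_one]
                exact le_mul_of_one_le_left (by positivity) (hA.one_le_pow _)
        · exact mul_le_mul ((le_nrm v c' x).trans hn')
            (pow_le_pow_of_le_one hw.le hw1 (by omega)) (by positivity) (by positivity)
      rw [← e1, pow_succ' (v t) (n + 2), ← mul_assoc] at e2
      refine (le_of_mul_le_mul_right e2 (by positivity)).trans ?_
      rw [pow_add A m, mul_assoc]
      exact mul_le_mul_of_nonneg_left hwη (by positivity)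
  · refine ⟨g, c', hg, hcc, hn'.trans ?_⟩
    rw [pow_add A m, mul_assoc]
    refine le_mul_of_one_le_right (by positivity) (hge.trans (hb.trans ?_))
    exact mul_le_mul_of_nonneg_left (pow_le_of_le_one h0 h1 (by omega)) (by positivity)

end Pool.Agent.MP_216eb3_nt.GIT
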