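import Pool.Agent.MP_216eb3_nt.GIT.Basic

set_option autoImplicit false

namespace Pool.Agent.MP_216eb3_nt.GIT

open Polynomial Finset Filter

theorem r9_ne (hU : SpUnst) : ∀ n, 1 ≤ n → ∀ M k (I : Fin M → MvPolynomial (Cf (n + 1)) Qb),
    IsGIT k I → ∀ c, IsRat c → (fun j => MvPolynomial.eval c (I j)) ≠ 0 := by
  intro n hn M k I hI c hc h
  obtain ⟨g, c', hg, hconj, hF, hG⟩ := hU n hn c (hI.null c fun j => congrFun h j)
  have hc' : IsRat c' := hc.conj (by rw [hg]; exact one_ne_zero) hconj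
  have h0 := hF 0 (by omega)
  have h1 := hF (0 + 1) (by omega)
  have h2 := hG 0 (by omega)
  rw [Fp_coeff_zero] at h0
  rw [Fp_coeff_succ] at h1
  rw [Gp_coeff] at h2
  have e0 : (pol c' 0).coeff 0 = c' (0, 0) := pol_coeff_fin c' 0 0
  have e1 : (pol c' 1).coeff 0 = c' (1, 0) := pol_coeff_fin c' 1 0
  rw [e0] at h0
  rw [e1] at h1 h2
  refine hc'.at_o h0 ?_
  have h3 : ((n + 2 : ℕ) : Qb) * c' (1, 0) = 0 := by
    push_cast at h2 ⊢
    linear_combination h2 - h1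
  exact (mul_eq_zero.1 h3).resolve_left (Nat.cast_ne_zero.2 (by omega))

theorem r9_theta {ε : ℝ} (hε : 0 < ε) (E : ℕ) :
    ∃ θ : ℝ, 0 ≤ θ ∧ θ < 1 ∧ 1 ≤ (1 + ε) * θ ^ E := by
  have h1 : (0 : ℝ) < (1 + ε) * (E + 1) := by positivity
  have hE : (0 : ℝ) ≤ E := Nat.cast_nonneg E
  set δ : ℝ := ε / ((1 + ε) * (E + 1)) with hδ
  have hδ0 : 0 < δ := by positivity
  have hδ1 : δ * ((1 + ε) * (E + 1)) = ε := by rw [hδ]; field_simp
  have hδ2 : δ ≤ 1 := by
    rw [hδ, div_le_one h1]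
    nlinarith
  refine ⟨1 - δ, by linarith, by linarith, ?_⟩
  have h2 := one_add_mul_le_pow (a := -δ) (by linarith) E
  rw [← sub_eq_add_neg] at h2
  have h3 : (1 + ε) * (1 + E * -δ) ≤ (1 + ε) * (1 - δ) ^ E :=
    mul_le_mul_of_nonneg_left h2 (by linarith)
  nlinarith

theorem r9_LL (hU : SpUnst) (h2 : SpL2) (hN : SpNull) : SpLL := by
  classical
  intro n hn M k I hI
  obtain ⟨N, R, Γ₂, m₂, e, he, hR, hL⟩ := h2 n hn
  have hN' := fun a => (hN (n + 1) (R a) (hR a).1 (hR a).2).2 M k I hI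
  choose s Γ m hs hb using hN'
  set S : ℕ := ∑ a, s a with hS
  set mm : ℕ := ∑ a, m a with hmm
  have hsS : ∀ a, s a ≤ S := fun a =>
    single_le_sum (f := s) (fun _ _ => Nat.zero_le _) (mem_univ a)
  have hmm' : ∀ a, m a ≤ mm := fun a =>
    single_le_sum (f := m) (fun _ _ => Nat.zero_le _) (mem_univ a)
  refine ⟨Γ₂ ∪ univ.biUnion Γ, mm + m₂ * (e * S), fun v A ε c hA hε hc => ?_⟩
  have hA2 : Adm Γ₂ v A := hA.mono subset_union_left
  have hAa : ∀ a, Adm (Γ a) v A := fun a =>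
    hA.mono ((subset_biUnion_of_mem Γ (mem_univ a)).trans subset_union_right)
  have hApos := hA.pos
  set P : ℝ := nrm v (fun j => MvPolynomial.eval c (I j)) with hP
  have hPpos : 0 < P := nrm_pos v (r9_ne hU n hn M k I hI c hc)
  set B : ℝ := (1 + ε) * A ^ (mm + m₂ * (e * S)) * P with hB
  have hBpos : 0 < B := by positivity
  by_contra hcon
  push Not at hcon
  obtain ⟨θ, hθ0, hθ1, hθ⟩ := r9_theta hε (e * S)
  have step : ∀ (g : M2) (c0 : Cf (n + 1) → Qb), g.det = 1 → Conj g c c0 →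
      ∃ (g' : M2) (c' : Cf (n + 1) → Qb), g'.det = 1 ∧ Conj g' c c' ∧
        nrm v c' ≤ θ * nrm v c0 := by
    intro g c0 hg hconj
    have hc0 : IsRat c0 := hc.conj (by rw [hg]; exact one_ne_zero) hconj
    have hM0 : 0 < nrm v c0 := nrm_pos v hc0.ne_zero
    obtain ⟨i, hi⟩ := exists_nrm v c0
    have hlam : c0 i ≠ 0 := fun h => by rw [h, map_zero] at hi; exact hM0.ne hi
    have hn1 : nrm v ((c0 i)⁻¹ • c0) = 1 := by
      rw [nrm_smul, map_inv₀, hi, inv_mul_cancel₀ hM0.ne']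
    have hI1 : (fun j => MvPolynomial.eval ((c0 i)⁻¹ • c0) (I j)) =
        ((c0 i)⁻¹ ^ k) • fun j => MvPolynomial.eval c (I j) := by
      funext j
      rw [eval_smul_hom (hI.hom j), hI.inv j g c c0 hg hconj, Pi.smul_apply, smul_eq_mul]
    have hI2 : nrm v (fun j => MvPolynomial.eval ((c0 i)⁻¹ • c0) (I j)) = P / nrm v c0 ^ k := by
      rw [hI1, nrm_smul, map_pow, map_inv₀, hi, inv_pow, ← hP, div_eq_inv_mul]
    have hBlt : B < nrm v c0 ^ k := hcon g c0 hg hconj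
    have hA2pos : 0 < A ^ m₂ := pow_pos hApos _
    have hη0 : 0 ≤ θ / A ^ m₂ := div_nonneg hθ0 hA2pos.le
    have hη1 : θ / A ^ m₂ ≤ 1 := by
      rw [div_le_one hA2pos]
      exact hθ1.le.trans (hA.one_le_pow _)
    have hsmall : ∀ a, v (MvPolynomial.eval ((c0 i)⁻¹ • c0) (R a)) ≤ (θ / A ^ m₂) ^ e := by
      intro a
      have h1 := hb a v A _ (hAa a) hn1.le
      rw [hI2] at h1
      have h3 : A ^ m a * (P / nrm v c0 ^ k) ≤ (θ / A ^ m₂) ^ (e * S) := by
        have h4 : P / nrm v c0 ^ k ≤ P / B := div_le_div_of_nonneg_left hPpos.le hBpos hBlt.le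
        have h5 : A ^ m a * (P / nrm v c0 ^ k) ≤ A ^ mm * (P / B) :=
          mul_le_mul (hA.pow_le (hmm' a)) h4 (by positivity) (by positivity)
        refine h5.trans ?_
        have h6 : A ^ mm * (P / B) = 1 / ((1 + ε) * A ^ (m₂ * (e * S))) := by
          rw [hB, pow_add]
          field_simp
        rw [h6, div_pow, ← pow_mul, div_le_div_iff₀ (by positivity) (by positivity), one_mul]
        have h7 : 0 < A ^ (m₂ * (e * S)) := pow_pos hApos _
        nlinarith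
      have h8 : (θ / A ^ m₂) ^ (e * S) ≤ ((θ / A ^ m₂) ^ e) ^ s a := by
        rw [← pow_mul]
        exact pow_le_pow_of_le_one hη0 hη1 (Nat.mul_le_mul_left e (hsS a))
      exact le_of_pow_le_pow_left₀ (hs a).ne' (pow_nonneg hη0 e) (h1.trans (h3.trans h8))
    obtain ⟨g', c', hg', hconj', hle⟩ := hL v A (θ / A ^ m₂) _ hA2 hη0 hη1
      (hc0.smul (inv_ne_zero hlam)) hn1 hsmall
    have hconj'' := hconj'.smul (c0 i)
    rw [smul_smul, mul_inv_cancel₀ hlam, one_smul] at hconj''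
    refine ⟨g * g', c0 i • c', by rw [Matrix.det_mul, hg, hg', one_mul], hconj.mul hconj'', ?_⟩
    rw [mul_div_cancel₀ _ hA2pos.ne'] at hle
    rw [nrm_smul, hi, mul_comm]
    exact mul_le_mul_of_nonneg_right hle hM0.le
  have iter : ∀ j : ℕ, ∃ (g' : M2) (c' : Cf (n + 1) → Qb), g'.det = 1 ∧ Conj g' c c' ∧
      nrm v c' ≤ θ ^ j * nrm v c := by
    intro j
    induction j with
    | zero => exact ⟨1, c, Matrix.det_one, conj_one c, by simp⟩
    | succ j ih =>
      obtain ⟨g, c0, hg, hconj, hle⟩ := ih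
      obtain ⟨g', c', hg', hconj', hle'⟩ := step g c0 hg hconj
      refine ⟨g', c', hg', hconj', hle'.trans ?_⟩
      rw [pow_succ', mul_assoc]
      exact mul_le_mul_of_nonneg_left hle hθ0
  have hM : 0 < nrm v c := nrm_pos v hc.ne_zero
  obtain ⟨j, hj⟩ := exists_pow_lt_of_lt_one (div_pos (lt_min one_pos hBpos) hM) hθ1
  obtain ⟨g, c', hg, hconj, hle⟩ := iter j
  have h1 : nrm v c' ≤ min 1 B := hle.trans ((lt_div_iff₀ hM).1 hj).le
  have h3 : nrm v c' ^ k ≤ nrm v c' :=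
    pow_le_of_le_one (nrm_nonneg v c') (h1.trans (min_le_left _ _)) hI.pos.ne'
  exact absurd (hcon g c' hg hconj) (not_lt.2 (h3.trans (h1.trans (min_le_right _ _))))

end Pool.Agent.MP_216eb3_nt.GIT
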