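import Pool.Agent.MP_216eb3_nt.GIT.Defs

set_option autoImplicit false

namespace Pool.Agent.MP_216eb3_nt.GIT

open Polynomial Finset Filter NumberField

abbrev AV : Type := AbsoluteValue Qb ℝ
abbrev V2 : Type := Fin 2 → Qb
abbrev M2 : Type := Matrix (Fin 2) (Fin 2) Qb

/-- `A` bounds the triangle inequality of `v` and the constants in `Γ` -/
structure Adm (Γ : Finset Qb) (v : AV) (A : ℝ) : Prop where
  one : 1 ≤ A
  tri : ∀ x y, v (x + y) ≤ A * max (v x) (v y)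
  bd : ∀ γ ∈ Γ, v γ ≤ A

/-- maximum norm -/
noncomputable def nrm {ι : Type} (v : AV) (x : ι → Qb) : ℝ := ⨆ i, v (x i)

noncomputable def dt (p q : V2) : Qb := p 0 * q 1 - p 1 * q 0

/-- the linear form `z ↦ dt z q` at `z = (X, 1)` -/
noncomputable def lin (q : V2) : Qb[X] := C (q 1) * X - C (q 0)

/-- value at `z` of `P` read as a binary form of degree `n` -/
noncomputable def hev (n : ℕ) (P : Qb[X]) (z : V2) : Qb :=
  ∑ i ∈ range (n + 1), P.coeff i * z 0 ^ i * z 1 ^ (n - i)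

section generic
variable {S : Type} [CommRing S]

noncomputable def pol {d : ℕ} (c : Cf d → S) (r : Fin 2) : S[X] :=
  ∑ i : Fin (d + 1), C (c (r, i)) * X ^ (i : ℕ)

/-- the fixed point form, of degree `d + 1` -/
noncomputable def Fp {d : ℕ} (c : Cf d → S) : S[X] := pol c 0 - X * pol c 1

/-- the divergence, of degree `d - 1` -/
noncomputable def Gp {d : ℕ} (c : Cf d → S) : S[X] :=
  derivative (pol c 0) + (C (d : S) * pol c 1 - X * derivative (pol c 1))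

/-- coefficients divided by binomial coefficients -/
noncomputable def hat [Algebra Qb S] (n : ℕ) (P : S[X]) (i : ℕ) : S :=
  algebraMap Qb S ((n.choose i : Qb)⁻¹) * P.coeff i

/-- the transvectant of index `r` of a form of degree `n` with itself -/
noncomputable def Tr (n r : ℕ) (φ : ℕ → S) : S[X] :=
  ∑ s ∈ range (r + 1), ∑ i ∈ range (n - r + 1), ∑ j ∈ range (n - r + 1),
    C ((-1) ^ s * (r.choose s : S) * ((n - r).choose i : S) * ((n - r).choose j : S) *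
      φ (r - s + i) * φ (s + j)) * X ^ (i + j)

end generic

/-- the form `z ↦ dt (ev c z) q`, of degree `d` -/
noncomputable def Bp {d : ℕ} (c : Cf d → Qb) (q : V2) : Qb[X] :=
  pol c 0 * C (q 1) - pol c 1 * C (q 0)

/-! ## Local rows -/

/-- row 1: lower and upper bounds for products of polynomials -/
def SpGauss : Prop := ∀ n : ℕ, ∃ m : ℕ, ∀ (v : AV) (A : ℝ), Adm ∅ v A →
  (∀ (ι : Type) (s : Finset ι) (p : ι → Qb[X]) (j : ι → ℕ) (B : ℝ), s.card ≤ n →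
    (∀ a ∈ s, (p a).natDegree ≤ n) → (∀ i, v ((∏ a ∈ s, p a).coeff i) ≤ B) →
    ∏ a ∈ s, v ((p a).coeff (j a)) ≤ A ^ m * B) ∧
  (∀ (ι : Type) (s : Finset ι) (α β : ι → Qb) (μ : ι → ℝ) (x y : ℝ), s.card ≤ n → 0 ≤ x → 0 ≤ y →
    (∀ a ∈ s, 0 ≤ μ a ∧ v (α a) ≤ μ a * x ∧ v (β a) ≤ μ a * y) → ∀ i, i ≤ s.card →
    v ((∏ a ∈ s, (C (α a) * X + C (β a))).coeff i) ≤
      A ^ m * (∏ a ∈ s, μ a) * x ^ i * y ^ (s.card - i))

/-- row 2a: factorisation into linear forms -/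
def SpFac : Prop :=
  (∀ (n : ℕ) (P : Qb[X]), 1 ≤ n → P ≠ 0 → P.natDegree ≤ n →
    ∃ q : Fin n → V2, (∀ s, q s ≠ 0) ∧ P = ∏ s, lin (q s)) ∧
  (∀ (n : ℕ) (P : Qb[X]) (q₀ : V2), 1 ≤ n → P ≠ 0 → P.natDegree ≤ n + 1 → q₀ ≠ 0 →
    hev (n + 1) P q₀ = 0 → ∃ q : Fin n → V2, (∀ s, q s ≠ 0) ∧ P = lin q₀ * ∏ s, lin (q s))

/-- row 2b: the resultant as a product over the roots -/
def SpRes : Prop := ∀ (n e : ℕ) (q : Fin n → V2) (Ψ : Qb[X]), (∀ s, q s ≠ 0) → Ψ.natDegree ≤ e →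
  resultant (∏ s, lin (q s)) Ψ n e = ∏ s, hev e Ψ (q s)

/-- row 3: transvectants are covariants -/
def SpTr : Prop := ∀ (n r : ℕ) (P P' : Qb[X]) (g : M2), r ≤ n → g.det = 1 →
  (∀ z, hev n P' z = hev n P (g.mulVec z)) → ∀ z,
    hev (2 * (n - r)) (Tr n r (hat n P')) z = hev (2 * (n - r)) (Tr n r (hat n P)) (g.mulVec z)

/-- row 4: covariance of the divergence -/
def SpDiv : Prop := ∀ (n : ℕ) (g : M2) (c c' : Cf (n + 1) → Qb), g.det = 1 → Conj g c c' →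
  ∀ z, hev n (Gp c') z = hev n (Gp c) (g.mulVec z)

/-- row 5: conjugates exist, with a bound -/
def SpConj : Prop := ∀ d : ℕ, ∃ m : ℕ, ∀ (g : M2) (c : Cf d → Qb), g.det = 1 →
  ∃ c', Conj g c c' ∧ ∀ (v : AV) (A : ℝ), Adm ∅ v A → (∀ i j, v (g i j) ≤ 1) →
    nrm v c' ≤ A ^ m * nrm v c

/-- row 6: invariants that detect an almost unstable point -/
def SpL1 : Prop := ∀ n : ℕ, 1 ≤ n → ∃ (N : ℕ) (R : Fin N → MvPolynomial (Cf (n + 1)) Qb)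
  (Γ : Finset Qb) (m e : ℕ), 0 < e ∧ (∀ a, IsInv (R a) ∧ MvPolynomial.constantCoeff (R a) = 0) ∧
  ∀ (v : AV) (A η : ℝ) (c : Cf (n + 1) → Qb), Adm Γ v A → 0 ≤ η → η ≤ 1 → nrm v c = 1 →
    (∀ a, v (MvPolynomial.eval c (R a)) ≤ η ^ e) →
    ∃ (g : M2) (c' : Cf (n + 1) → Qb), g.det = 1 ∧ Conj g c c' ∧ nrm v c' ≤ A ^ m ∧
      (∀ i, 2 * i ≤ n + 2 → v ((Fp c').coeff i) ≤ A ^ m * η) ∧
      (∀ i, 2 * i ≤ n → v ((Gp c').coeff i) ≤ A ^ m * η)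

/-- row 7a: bounds for values of polynomials -/
def SpPB : Prop := ∀ (σ : Type) [Finite σ] (Q : MvPolynomial σ Qb), ∃ (Γ : Finset Qb) (m : ℕ),
  ∀ (v : AV) (A : ℝ) (c : σ → Qb), Adm Γ v A →
    (nrm v c ≤ 1 → v (MvPolynomial.eval c Q) ≤ A ^ m) ∧
    ∀ k, Q.IsHomogeneous k → v (MvPolynomial.eval c Q) ≤ A ^ m * nrm v c ^ k

/-- row 7b: invariants without constant term vanish on nullforms; Nullstellensatz -/
def SpNull : Prop := ∀ (d : ℕ) (R : MvPolynomial (Cf d) Qb), IsInv R →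
  MvPolynomial.constantCoeff R = 0 → (∀ c, IsNull c → MvPolynomial.eval c R = 0) ∧
  ∀ (M k : ℕ) (I : Fin M → MvPolynomial (Cf d) Qb), IsGIT k I →
    ∃ (s : ℕ) (Γ : Finset Qb) (m : ℕ), 0 < s ∧ ∀ (v : AV) (A : ℝ) (c : Cf d → Qb), Adm Γ v A →
      nrm v c ≤ 1 → v (MvPolynomial.eval c R) ^ s ≤
        A ^ m * nrm v (fun j => MvPolynomial.eval c (I j))

/-- row 7c: systems of invariants exist -/
def SpEx : Prop := ∀ d : ℕ, ∃ (M k : ℕ) (I : Fin M → MvPolynomial (Cf d) Qb), IsGIT k I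

/-- row 8a: nullforms are unstable -/
def SpUnst : Prop := ∀ n : ℕ, 1 ≤ n → ∀ c : Cf (n + 1) → Qb, IsNull c →
  ∃ (g : M2) (c' : Cf (n + 1) → Qb), g.det = 1 ∧ Conj g c c' ∧
    (∀ i, 2 * i ≤ n + 2 → (Fp c').coeff i = 0) ∧ (∀ i, 2 * i ≤ n → (Gp c').coeff i = 0)

/-- row 8b: small invariants allow to lower the norm -/
def SpL2 : Prop := ∀ n : ℕ, 1 ≤ n → ∃ (N : ℕ) (R : Fin N → MvPolynomial (Cf (n + 1)) Qb)
  (Γ : Finset Qb) (m e : ℕ), 0 < e ∧ (∀ a, IsInv (R a) ∧ MvPolynomial.constantCoeff (R a) = 0) ∧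
  ∀ (v : AV) (A η : ℝ) (c : Cf (n + 1) → Qb), Adm Γ v A → 0 ≤ η → η ≤ 1 → IsRat c → nrm v c = 1 →
    (∀ a, v (MvPolynomial.eval c (R a)) ≤ η ^ e) →
    ∃ (g : M2) (c' : Cf (n + 1) → Qb), g.det = 1 ∧ Conj g c c' ∧ nrm v c' ≤ A ^ m * η

/-- row 9: the local theorem -/
def SpLL : Prop := ∀ n : ℕ, 1 ≤ n → ∀ (M k : ℕ) (I : Fin M → MvPolynomial (Cf (n + 1)) Qb),
  IsGIT k I → ∃ (Γ : Finset Qb) (m : ℕ), ∀ (v : AV) (A ε : ℝ) (c : Cf (n + 1) → Qb), Adm Γ v A →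
    0 < ε → IsRat c → ∃ (g : M2) (c' : Cf (n + 1) → Qb), g.det = 1 ∧ Conj g c c' ∧
      nrm v c' ^ k ≤ (1 + ε) * A ^ m * nrm v (fun j => MvPolynomial.eval c (I j))

/-- row 10: norms of the roots -/
def SpLoc : Prop := ∀ n : ℕ, ∃ m : ℕ, ∀ (v : AV) (A : ℝ) (a : M2) (cc c : Cf (n + 1) → Qb),
  Adm ∅ v A → a.det = 1 → Conj a cc c →
  (∀ p q : V2, v (dt p q) ≤ A * (nrm v (a.mulVec p) * nrm v (a.mulVec q))) ∧
  (∀ (q₀ : V2) (p : Fin (n + 1) → V2), Fp c = lin q₀ * ∏ s, lin (p s) →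
    nrm v (a.mulVec q₀) * ∏ s, nrm v (a.mulVec (p s)) ≤ A ^ m * nrm v cc) ∧
  (∀ (q₀ : V2) (p : Fin n → V2), q₀ ≠ 0 → Bp c q₀ = lin q₀ * ∏ s, lin (p s) →
    ∏ s, nrm v (a.mulVec (p s)) ≤ A ^ m * nrm v cc)

/-! ## Places -/

/-- row 11a: absolute values of a number field extend to the algebraic numbers -/
def SpExt : Prop := ∀ (L : IntermediateField ℚ Qb) [NumberField L],
  (∀ w : InfinitePlace L, ∃ v : AV, ∀ x : L, v x = w x) ∧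
  (∀ w : FinitePlace L, ∃ v : AV, IsNonarchimedean v ∧ ∀ x : L, v x = w x)

/-- row 11b: elements with prescribed sizes -/
def SpMK : Prop := ∀ (L : Type) [Field L] [NumberField L] (y₁ : InfinitePlace L → ℝ)
  (y₂ : FinitePlace L → ℝ), (∀ᶠ w in cofinite, y₂ w = 0) →
  ∑ w, (w.mult : ℝ) * y₁ w + ∑ᶠ w, y₂ w = 0 →
  ∃ E : ℝ, ∀ m : ℕ, ∃ u : L, u ≠ 0 ∧ (∀ w : InfinitePlace L, Real.log (w u) ≤ m * y₁ w + E) ∧
    ∀ w : FinitePlace L, Real.log (w u) ≤ m * y₂ w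

/-- the places of a number field `L` containing `X`, extended to the algebraic numbers -/
structure PSys (Γ X : Finset Qb) (K : ℝ) where
  ι : Type
  L : Subfield Qb
  v : ι → AV
  w : ι → ℝ
  A : ι → ℝ
  S : Finset ι
  mem : ∀ x ∈ X, x ∈ L
  wpos : ∀ i, 0 < w i
  adm : ∀ i, Adm Γ (v i) (A i)
  afs : ∀ᶠ i in cofinite, A i = 1
  asum : ∑ᶠ i, w i * Real.log (A i) ≤ K
  fs : ∀ x ∈ L, x ≠ 0 → ∀ᶠ i in cofinite, v i x = 1
  pf : ∀ x ∈ L, x ≠ 0 → ∑ᶠ i, w i * Real.log (v i x) = 0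
  ht : ∀ (J : Type) [Finite J] (x : J → Qb), (∀ j, x j ∈ L) → x ≠ 0 →
    hgt x = ∑ᶠ i, w i * Real.log (nrm (v i) x)
  mink : ∀ y : ι → ℝ, (∀ᶠ i in cofinite, y i = 0) → ∑ᶠ i, w i * y i = 0 →
    ∃ e : ι → ℝ, (∀ᶠ i in cofinite, e i = 0) ∧
      ∀ m : ℕ, ∃ u ∈ L, u ≠ 0 ∧ ∀ i, Real.log (v i u) ≤ m * y i + e i
  sumS : ∑ i ∈ S, w i = 1
  arch : ∀ i ∈ S, ∀ n : ℕ, v i n = n
  non : ∀ i, i ∉ S → ∀ n : ℕ, v i n ≤ 1

/-- row 11c -/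
def SpPS : Prop := ∀ Γ : Finset Qb, ∃ K : ℝ, ∀ X : Finset Qb, Nonempty (PSys Γ X K)

/-- row 11d: general facts on heights -/
def SpHt : Prop := ∀ (J : Type) [Finite J] (x : J → Qb), 0 ≤ hgt x ∧
  (∀ t : Qb, t ≠ 0 → hgt (t • x) = hgt x) ∧ ∀ m : ℕ, hgt (fun j => x j ^ m) = m * hgt x

/-- local models of `c` at all places -/
structure LD {Γ X : Finset Qb} {K : ℝ} (P : PSys Γ X K) {d : ℕ} (c : Cf d → Qb) where
  a : P.ι → M2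
  cc : P.ι → Cf d → Qb
  det : ∀ i, (a i).det = 1
  conj : ∀ i, Conj (a i) (cc i) c
  fin : ∀ᶠ i in cofinite, a i = 1

section
variable {Γ X : Finset Qb} {K : ℝ} {P : PSys Γ X K} {d : ℕ} {c : Cf d → Qb}

noncomputable def LD.H (D : LD P c) : ℝ := ∑ᶠ i, P.w i * Real.log (nrm (P.v i) (D.cc i))

noncomputable def LD.eta (D : LD P c) (q : V2) : ℝ :=
  ∑ᶠ i, P.w i * Real.log (nrm (P.v i) ((D.a i).mulVec q))

end

/-- a fixed point `q₀`, a second point `r`, and the roots of the two forms -/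
structure Fr {n : ℕ} (L : Subfield Qb) (c : Cf (n + 1) → Qb) (q₀ r : V2) (p : Fin (n + 1) → V2)
    (p' : Fin n → V2) : Prop where
  m0 : ∀ j, q₀ j ∈ L
  mr : ∀ j, r j ∈ L
  mp : ∀ s j, p s j ∈ L
  mp' : ∀ s j, p' s j ∈ L
  np : ∀ s, p s ≠ 0
  np' : ∀ s, p' s ≠ 0
  one : dt r q₀ = 1
  hF : Fp c = lin q₀ * ∏ s, lin (p s)
  hB : Bp c q₀ = lin q₀ * ∏ s, lin (p' s)

/-! ## Global rows -/

/-- row 12: local models of small norm -/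
def SpData : Prop := ∀ n : ℕ, 1 ≤ n → ∀ (M k : ℕ) (I : Fin M → MvPolynomial (Cf (n + 1)) Qb),
  IsGIT k I → ∃ (Γ : Finset Qb) (m : ℕ), ∀ (X : Finset Qb) (K : ℝ) (P : PSys Γ X K)
    (c : Cf (n + 1) → Qb), IsRat c → (∀ j, c j ∈ P.L) → (∀ j, MvPolynomial.eval c (I j) ∈ P.L) →
    ∃ D : LD P c, D.H ≤ hG k I c + m * K + 1

/-- row 13: the choice of the two points -/
def SpKey1 : Prop := ∀ n : ℕ, 1 ≤ n → ∃ m : ℕ, ∀ c : Cf (n + 1) → Qb, IsRat c →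
  ∃ Y : Finset Qb, ∀ (Γ X : Finset Qb) (K : ℝ) (P : PSys Γ X K) (D : LD P c),
    (∀ j, c j ∈ P.L) → (∀ x ∈ Y, x ∈ P.L) →
    ∃ q₀ r p p', Fr P.L c q₀ r p p' ∧ n * D.eta q₀ ≤ D.H + m * K ∧ n * D.eta r ≤ D.H + m * K

/-- row 14: the conjugate of small height -/
def SpKey2 : Prop := ∀ n : ℕ, 1 ≤ n → ∃ m : ℕ, ∀ (c : Cf (n + 1) → Qb) (Γ X : Finset Qb) (K : ℝ)
  (P : PSys Γ X K) (D : LD P c) (q₀ r : V2) (p : Fin (n + 1) → V2) (p' : Fin n → V2),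
    IsRat c → (∀ j, c j ∈ P.L) → Fr P.L c q₀ r p p' →
    ∃ (g : M2) (c' : Cf (n + 1) → Qb), g.det ≠ 0 ∧ Conj g c c' ∧
      hgt c' ≤ D.H + n * max (D.eta q₀) (D.eta r) + m * K + 1

/-- row 15: the easy inequality -/
def SpLow : Prop := ∀ n : ℕ, 1 ≤ n → ∀ (M k : ℕ) (I : Fin M → MvPolynomial (Cf (n + 1)) Qb),
  IsGIT k I → ∃ K : ℝ, ∀ (c c' : Cf (n + 1) → Qb) (g : M2), IsRat c → g.det ≠ 0 → Conj g c c' →
    hG k I c ≤ hgt c' + K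

/-- row 16: the constant one is optimal -/
def SpS1 : Prop := ∀ n : ℕ, 1 ≤ n → ∀ (M k : ℕ) (I : Fin M → MvPolynomial (Cf (n + 1)) Qb),
  IsGIT k I → ∃ K : ℝ, ∀ T : ℝ, ∃ c : Cf (n + 1) → Qb, IsRat c ∧ T ≤ hG k I c ∧
    hgt c ≤ hG k I c + K

/-- the map `z ^ d + N` -/
noncomputable def zc (d N : ℕ) : Cf d → Qb := fun x =>
  if x.1 = 0 then (if (x.2 : ℕ) = d then 1 else if (x.2 : ℕ) = 0 then (N : Qb) else 0)
  else (if (x.2 : ℕ) = 0 then 1 else 0)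

/-- row 17a: the moduli height of `z ^ d + N` -/
def SpS2a : Prop := ∀ n : ℕ, 1 ≤ n → ∀ (M k : ℕ) (I : Fin M → MvPolynomial (Cf (n + 1)) Qb),
  IsGIT k I → ∃ K : ℝ, ∀ N : ℕ, 1 ≤ N → IsRat (zc (n + 1) N) ∧
    2 * hG k I (zc (n + 1) N) ≤ (n : ℝ) / (n + 1) * Real.log N + K

/-- row 17b: the minimal height of `z ^ d + N` -/
def SpS2b : Prop := ∀ n : ℕ, 1 ≤ n → ∃ K : ℝ, ∀ N : ℕ, 1 ≤ N →
  ∀ (g : M2) (c' : Cf (n + 1) → Qb), g.det ≠ 0 → Conj g (zc (n + 1) N) c' →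
    (n : ℝ) / (n + 1) * Real.log N - K ≤ hgt c'

end Pool.Agent.MP_216eb3_nt.GIT
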